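import Pool.Agent.W_2cf66e_h46.Stmt
import Pool.Agent.W_2cf66e_h65.Defs

/-!
# MP_2cf66e_nt (periods), quadratic volumes: definitions (helper46)

Paper proof: table `proofs`, row 317.

Points of `ℝ^(ι ⊕ κ)` are written `Sum.elim y b`; `y` are the base coordinates (in the cube
`box ι = [-1,1]^ι`), `b` the new coordinates.
-/

set_option autoImplicit false

noncomputable section

open MeasureTheory MvPolynomial

namespace Pool.Agent.QVol

/-- A set given by finitely many inequalities `0 ≤ q`, `q` affine up to one product of two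
coordinates. -/
def QS {ι : Type} (S : Set (ι → ℝ)) : Prop :=
  ∃ (m : ℕ) (q : Fin m → MvPolynomial ι ℚ), (∀ i, IsQI (q i)) ∧
    S = {z : ι → ℝ | ∀ i, 0 ≤ aeval z (q i)}

/-- The cube `[-1,1]^ι` (same as `CVol.box`). -/
abbrev box (ι : Type) : Set (ι → ℝ) := Pool.Agent.CVol.box ι

/-- A rational box. -/
def rbox {ι : Type} (l u : ι → ℚ) : Set (ι → ℝ) :=
  Set.Icc (fun i => (l i : ℝ)) (fun i => (u i : ℝ))

/-- The fibre of `T` over `y`. -/
def fib {ι κ : Type} (T : Set (ι ⊕ κ → ℝ)) (y : ι → ℝ) : Set (κ → ℝ) := {b | Sum.elim y b ∈ T}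

/-- Power of the positive part; for `k = 0` it is the indicator of `0 ≤ x`. -/
def pp (k : ℕ) (x : ℝ) : ℝ := if 0 ≤ x then x ^ k else 0

/-- Noise gadget: over the cube, `H` is the mean of the coordinate `b_k` over the fibres of a
quadratic set with constant fibre volume `v`, with small deviation. -/
def NumG {ι : Type} [Fintype ι] (H : MvPolynomial ι ℚ) : Prop :=
  ∀ ε : ℚ, 0 < ε → ∃ (κ : Type) (_ : Fintype κ) (T : Set (ι ⊕ κ → ℝ)) (k : κ) (v : ℚ),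
    QS T ∧ 0 < v ∧ (∃ A : ℝ, ∀ y ∈ box ι, ∀ b ∈ fib T y, ∀ i, |b i| ≤ A) ∧
    ∀ y ∈ box ι, volume (fib T y) = ENNReal.ofReal v ∧
      (∫ b in fib T y, b k) = v * aeval y H ∧ ∀ b ∈ fib T y, |b k - aeval y H| ≤ ε

/-- Weight gadget: the fibre volume of a quadratic set is `v H`. -/
def WtG {ι : Type} [Fintype ι] (H : MvPolynomial ι ℚ) : Prop :=
  ∃ (κ : Type) (_ : Fintype κ) (T : Set (ι ⊕ κ → ℝ)) (v : ℚ),
    QS T ∧ 0 < v ∧ (∃ A : ℝ, ∀ y ∈ box ι, ∀ b ∈ fib T y, ∀ i, |b i| ≤ A) ∧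
    ∀ y ∈ box ι, volume (fib T y) = ENNReal.ofReal (v * aeval y H)

/-- Cone gadget for the polynomial `p` with `m` noise variables. -/
def ConeG {ι : Type} [Fintype ι] (p : MvPolynomial ι ℚ) (m : ℕ) : Prop :=
  ∃ (κ : Type) (_ : Fintype κ) (L : Set (ι ⊕ κ → ℝ)) (k₀ : κ) (G : MvPolynomial ι ℚ),
    QS L ∧ (∀ y ∈ box ι, 0 < aeval y G) ∧
    (∀ y ∈ box ι, ∀ b ∈ fib L y, b k₀ ≤ aeval y p) ∧
    (∀ R : ℝ, ∃ A : ℝ, ∀ y ∈ box ι, ∀ b ∈ fib L y, -R ≤ b k₀ → ∀ i, |b i| ≤ A) ∧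
    ∀ y ∈ box ι, ∀ (k : ℕ) (c : ℝ),
      ∫⁻ b in fib L y, ENNReal.ofReal (pp k (b k₀ - c)) =
        ENNReal.ofReal ((k.factorial : ℝ) / (k + m).factorial * pp (k + m) (aeval y p - c) /
          aeval y G)

/-- A block: `x` is the mean of a maximum of affine functions over a compact quadratic set of
rational volume, and this maximum is at most `β`. -/
def Block (x β : ℝ) : Prop :=
  ∃ (κ : Type) (_ : Fintype κ) (Z : Set (κ → ℝ)) (α : Type) (_ : Fintype α) (_ : Nonempty α)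
    (θ : α → MvPolynomial κ ℚ) (v : ℚ),
    QS Z ∧ IsCompact Z ∧ (∀ a, (θ a).totalDegree ≤ 1) ∧ 0 < v ∧
    volume Z = ENNReal.ofReal v ∧ (∫ z in Z, ⨆ a, aeval z (θ a)) = v * x ∧
    ∀ z ∈ Z, ∀ a, aeval z (θ a) ≤ β

/-- For fixed polynomials `P_j` and every `e ≥ 1`, the number `x` is a sum of integrals over the
cube of `H_j (P_j)_+^(2e)`. -/
def Apow (x : ℝ) : Prop :=
  ∃ (ι : Type) (_ : Fintype ι) (J : ℕ) (P : Fin J → MvPolynomial ι ℚ), ∀ e : ℕ, 1 ≤ e →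
    ∃ H : Fin J → MvPolynomial ι ℚ,
      x = ∑ j, ∫ z in box ι, aeval z (H j) * (max (aeval z (P j)) 0) ^ (2 * e)

end Pool.Agent.QVol
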