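import Pool.Agent.W_2cf66e_h46.QAa

/-!
# Quadratic volumes, part A: quadratic sets (helper46)
-/

set_option autoImplicit false

noncomputable section

open MeasureTheory MvPolynomial

namespace Pool.Agent.QVol

/-- Affine polynomials are of the required form. -/
theorem IsQI.of_aff {ι : Type} {q : MvPolynomial ι ℚ} (h : q.totalDegree ≤ 1) : IsQI q := Or.inl h

/-- Injective renaming. (`totalDegree_rename_le`.) -/
theorem IsQI.ren {ι κ : Type} {q : MvPolynomial ι ℚ} (h : IsQI q) {f : ι → κ}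
    (hf : Function.Injective f) : IsQI (rename f q) := by
  rcases h with h | ⟨l, c, i, j, h1, h2, h3⟩
  · exact Or.inl ((totalDegree_rename_le f q).trans h)
  · refine Or.inr ⟨rename f l, c, f i, f j, (totalDegree_rename_le f l).trans h1,
      fun h => h2 (hf h), ?_⟩
    rw [h3, map_add, map_mul, map_mul, rename_C, rename_X, rename_X]

theorem QS.univ {ι : Type} : QS (Set.univ : Set (ι → ℝ)) := by
  refine ⟨0, Fin.elim0, fun i => i.elim0, ?_⟩
  ext z
  simp only [Set.mem_univ, Set.mem_ofPred_eq, true_iff]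
  exact fun i => i.elim0

theorem QS.of_qi {ι : Type} {q : MvPolynomial ι ℚ} (h : IsQI q) :
    QS {z : ι → ℝ | 0 ≤ (aeval z q : ℝ)} := by
  refine ⟨1, fun _ => q, fun _ => h, ?_⟩
  ext z
  simp only [Set.mem_ofPred_eq]
  exact ⟨fun h _ => h, fun h => h 0⟩

theorem QS.inter {ι : Type} {S T : Set (ι → ℝ)} (hS : QS S) (hT : QS T) : QS (S ∩ T) := by
  obtain ⟨m, q, hq, rfl⟩ := hS
  obtain ⟨m', q', hq', rfl⟩ := hT
  refine ⟨m + m', Fin.append q q', fun i => ?_, ?_⟩
  · refine Fin.addCases (fun i => ?_) (fun i => ?_) i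
    · rw [Fin.append_left]
      exact hq i
    · rw [Fin.append_right]
      exact hq' i
  · ext z
    simp only [Set.mem_inter_iff, Set.mem_ofPred_eq]
    constructor
    · rintro ⟨h1, h2⟩ i
      refine Fin.addCases (fun i => ?_) (fun i => ?_) i
      · rw [Fin.append_left]
        exact h1 i
      · rw [Fin.append_right]
        exact h2 i
    · intro h
      constructor
      · intro i
        have h1 := h (Fin.castAdd m' i)
        rwa [Fin.append_left] at h1
      · intro i
        have h1 := h (Fin.natAdd m i)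
        rwa [Fin.append_right] at h1

theorem QS.iInter {ι α : Type} [Fintype α] (S : α → Set (ι → ℝ)) (h : ∀ a, QS (S a)) :
    QS (⋂ a, S a) := by
  classical
  have key : ∀ s : Finset α, QS (⋂ a ∈ s, S a) := by
    intro s
    induction s using Finset.induction_on with
    | empty =>
      have h1 : (⋂ a ∈ (∅ : Finset α), S a) = Set.univ := by simp
      rw [h1]
      exact QS.univ
    | insert a s _ ih =>
      rw [Finset.set_biInter_insert]
      exact (h a).inter ih
  have h1 := key Finset.univ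
  simpa using h1

/-- Renaming of coordinates (in particular cylinders). -/
theorem QS.ren {ι κ : Type} {S : Set (ι → ℝ)} (h : QS S) {f : ι → κ}
    (hf : Function.Injective f) : QS {z : κ → ℝ | (fun i => z (f i)) ∈ S} := by
  obtain ⟨m, q, hq, rfl⟩ := h
  refine ⟨m, fun i => rename f (q i), fun i => (hq i).ren hf, ?_⟩
  ext z
  simp only [Set.mem_ofPred_eq, aeval_rename]
  exact Iff.rfl

theorem QS.closed {ι : Type} {S : Set (ι → ℝ)} (h : QS S) : IsClosed S := by
  obtain ⟨m, q, hq, rfl⟩ := h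
  have h1 : {z : ι → ℝ | ∀ i, 0 ≤ (aeval z (q i) : ℝ)} =
      ⋂ i, {z : ι → ℝ | 0 ≤ (aeval z (q i) : ℝ)} := by
    ext z
    simp
  rw [h1]
  exact isClosed_iInter fun i => isClosed_le continuous_const (cont_aeval (q i))

theorem QS.meas {ι : Type} [Fintype ι] {S : Set (ι → ℝ)} (h : QS S) : MeasurableSet S :=
  h.closed.measurableSet

theorem QS.isSA {ι : Type} {S : Set (ι → ℝ)} (h : QS S) : Pool.Agent.CVol.IsSA S := by
  obtain ⟨m, q, hq, rfl⟩ := h
  clear hq
  induction m with
  | zero =>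
    have h1 : {z : ι → ℝ | ∀ i : Fin 0, 0 ≤ (aeval z (q i) : ℝ)} =
        {z : ι → ℝ | 0 < (aeval z (1 : MvPolynomial ι ℚ) : ℝ)} := by
      ext z
      simp
    rw [h1]
    exact Pool.Agent.CVol.IsSA.pos 1
  | succ m ih =>
    have h1 : {z : ι → ℝ | ∀ i : Fin (m + 1), 0 ≤ (aeval z (q i) : ℝ)} =
        {z : ι → ℝ | 0 < (aeval z (-(q 0)) : ℝ)}ᶜ ∩
          {z : ι → ℝ | ∀ i : Fin m, 0 ≤ (aeval z (q i.succ) : ℝ)} := by
      ext z
      simp only [Set.mem_inter_iff, Set.mem_compl_iff, Set.mem_ofPred_eq, Fin.forall_fin_succ,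
        map_neg, not_lt, neg_nonpos]
    rw [h1]
    exact (Pool.Agent.CVol.IsSA.pos _).compl.inter (ih fun i => q i.succ)

theorem QS.rbox {ι : Type} [Fintype ι] (l u : ι → ℚ) : QS (rbox l u) := by
  have h1 : Pool.Agent.QVol.rbox l u = ⋂ i : ι,
      {z : ι → ℝ | 0 ≤ (aeval z (X i - C (l i) : MvPolynomial ι ℚ) : ℝ)} ∩
        {z : ι → ℝ | 0 ≤ (aeval z (C (u i) - X i : MvPolynomial ι ℚ) : ℝ)} := by
    ext z
    simp only [Pool.Agent.QVol.rbox, Set.mem_Icc, Pi.le_def, Set.mem_iInter, Set.mem_inter_iff,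
      Set.mem_ofPred_eq, map_sub, aeval_X, aeval_C, sub_nonneg, forall_and]
    exact Iff.rfl
  rw [h1]
  refine QS.iInter _ fun i => QS.inter (QS.of_qi (IsQI.of_aff ?_)) (QS.of_qi (IsQI.of_aff ?_))
  · refine (totalDegree_sub _ _).trans (max_le ?_ ?_)
    · rw [totalDegree_X]
    · rw [totalDegree_C]
      exact Nat.zero_le 1
  · refine (totalDegree_sub _ _).trans (max_le ?_ ?_)
    · rw [totalDegree_C]
      exact Nat.zero_le 1
    · rw [totalDegree_X]

end Pool.Agent.QVol
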