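import Pool.Agent.W_2cf66e_h46.Defs

/-!
# Quadratic volumes, part A: polynomials on the cube (helper46)
-/

set_option autoImplicit false

noncomputable section

open MeasureTheory MvPolynomial

namespace Pool.Agent.QVol

theorem cont_aeval {ι : Type} (p : MvPolynomial ι ℚ) :
    Continuous fun z : ι → ℝ => (aeval z p : ℝ) := by
  have h := MvPolynomial.continuous_eval (Pool.Agent.CVol.re p)
  simpa only [Pool.Agent.CVol.eval_re] using h

theorem cpt_box (ι : Type) : IsCompact (box ι) := by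
  unfold box Pool.Agent.CVol.box
  exact isCompact_Icc

theorem mem_box_abs {ι : Type} {y : ι → ℝ} (hy : y ∈ box ι) (i : ι) : |y i| ≤ 1 := by
  rw [abs_le]
  exact ⟨hy.1 i, hy.2 i⟩

/-- A polynomial is bounded on the cube. -/
theorem bdd_box {ι : Type} (p : MvPolynomial ι ℚ) :
    ∃ B : ℝ, 0 ≤ B ∧ ∀ y ∈ box ι, |(aeval y p : ℝ)| ≤ B := by
  obtain ⟨B, hB⟩ := (cpt_box ι).exists_bound_of_continuousOn (cont_aeval p).continuousOn
  refine ⟨|B|, abs_nonneg B, fun y hy => ?_⟩
  have h := hB y hy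
  rw [Real.norm_eq_abs] at h
  exact h.trans (le_abs_self B)

/-- A positive polynomial on the cube has a positive rational lower bound. -/
theorem pos_box {ι : Type} (p : MvPolynomial ι ℚ) (hp : ∀ y ∈ box ι, 0 < (aeval y p : ℝ)) :
    ∃ δ : ℚ, 0 < δ ∧ ∀ y ∈ box ι, (δ : ℝ) ≤ aeval y p := by
  have hne : (box ι).Nonempty := ⟨fun _ => 0, fun _ => by norm_num, fun _ => by norm_num⟩
  obtain ⟨y0, hy0, hmin⟩ := (cpt_box ι).exists_isMinOn hne (cont_aeval p).continuousOn
  obtain ⟨δ, h1, h2⟩ := exists_rat_btwn (hp y0 hy0)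
  refine ⟨δ, by exact_mod_cast h1, fun y hy => ?_⟩
  exact h2.le.trans (hmin hy)

end Pool.Agent.QVol
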