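import Pool.Agent.W_2cf66e_h46.Defs

/-!
# Quadratic volumes, part B: Fubini for sums of index types (helper46)

Tools: `MeasureTheory.volume_measurePreserving_sumPiEquivProdPi_symm` (see
`Pool/Agent/W_2cf66e_h65/CBox.lean`, `int_box_sum`, for the pattern),
`MeasureTheory.volume_preserving_funUnique`.
-/

set_option autoImplicit false

noncomputable section

open MeasureTheory MvPolynomial

namespace Pool.Agent.QVol

theorem QB_val {ι κ : Type} [Fintype ι] [Fintype κ] (p : (ι → ℝ) × (κ → ℝ)) :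
    (MeasurableEquiv.sumPiEquivProdPi (fun _ : ι ⊕ κ => ℝ)).symm p = Sum.elim p.1 p.2 := by
  funext i
  cases i <;> rfl

theorem lint_sum {ι κ : Type} [Fintype ι] [Fintype κ] (f : (ι ⊕ κ → ℝ) → ENNReal)
    (hf : Measurable f) : ∫⁻ z, f z = ∫⁻ y : ι → ℝ, ∫⁻ b : κ → ℝ, f (Sum.elim y b) := by
  have hm := volume_measurePreserving_sumPiEquivProdPi_symm (fun _ : ι ⊕ κ => ℝ)
  rw [← hm.lintegral_comp hf, Measure.volume_eq_prod, lintegral_prod]
  · simp only [QB_val]
  · exact (hf.comp hm.measurable).aemeasurable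

theorem int_sum {ι κ : Type} [Fintype ι] [Fintype κ] (f : (ι ⊕ κ → ℝ) → ℝ)
    (hf : Integrable f) : ∫ z, f z = ∫ y : ι → ℝ, ∫ b : κ → ℝ, f (Sum.elim y b) := by
  have hm := volume_measurePreserving_sumPiEquivProdPi_symm (fun _ : ι ⊕ κ => ℝ)
  rw [← hm.integral_comp' f, Measure.volume_eq_prod, integral_prod]
  · simp only [QB_val]
  · exact hm.integrable_comp_of_integrable hf

theorem lint_unit (f : (Unit → ℝ) → ENNReal) (hf : Measurable f) :
    ∫⁻ s, f s = ∫⁻ s : ℝ, f (fun _ => s) := by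
  have hm := (volume_preserving_funUnique Unit ℝ).symm
  rw [← hm.lintegral_comp hf]
  rfl

theorem int_unit (f : (Unit → ℝ) → ℝ) : ∫ s, f s = ∫ s : ℝ, f (fun _ => s) := by
  have hm := (volume_preserving_funUnique Unit ℝ).symm
  rw [← hm.integral_comp' f]
  rfl

theorem meas_elim {ι κ : Type} [Fintype ι] [Fintype κ] (y : ι → ℝ) :
    Measurable fun b : κ → ℝ => (Sum.elim y b : ι ⊕ κ → ℝ) := by
  refine measurable_pi_iff.2 fun i => ?_
  cases i with
  | inl i => exact measurable_const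
  | inr i => exact measurable_pi_apply i

theorem meas_fib {ι κ : Type} [Fintype ι] [Fintype κ] {Z : Set (ι ⊕ κ → ℝ)}
    (hZ : MeasurableSet Z) (y : ι → ℝ) : MeasurableSet (fib Z y) := meas_elim y hZ

/-- Fubini for a set: `∫⁻_Z f = ∫⁻_y ∫⁻_{Z_y} f(y, b)`. -/
theorem lint_fib {ι κ : Type} [Fintype ι] [Fintype κ] {Z : Set (ι ⊕ κ → ℝ)}
    (hZ : MeasurableSet Z) (f : (ι ⊕ κ → ℝ) → ENNReal) (hf : Measurable f) :
    ∫⁻ z in Z, f z = ∫⁻ y : ι → ℝ, ∫⁻ b in fib Z y, f (Sum.elim y b) := by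
  rw [← lintegral_indicator hZ, lint_sum _ (hf.indicator hZ)]
  refine lintegral_congr fun y => ?_
  rw [← lintegral_indicator (meas_fib hZ y)]
  rfl

theorem vol_fib {ι κ : Type} [Fintype ι] [Fintype κ] {Z : Set (ι ⊕ κ → ℝ)}
    (hZ : MeasurableSet Z) : volume Z = ∫⁻ y : ι → ℝ, volume (fib Z y) := by
  have h := lint_fib hZ (fun _ => 1) measurable_const
  rw [setLIntegral_one] at h
  rw [h]
  exact lintegral_congr fun y => setLIntegral_one _

theorem int_fib {ι κ : Type} [Fintype ι] [Fintype κ] {Z : Set (ι ⊕ κ → ℝ)}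
    (hZ : MeasurableSet Z) (f : (ι ⊕ κ → ℝ) → ℝ) (hf : IntegrableOn f Z) :
    ∫ z in Z, f z = ∫ y : ι → ℝ, ∫ b in fib Z y, f (Sum.elim y b) := by
  rw [← integral_indicator hZ, int_sum _ ((integrable_indicator_iff hZ).2 hf)]
  refine integral_congr_ae (Filter.Eventually.of_forall fun y => ?_)
  show ∫ b : κ → ℝ, Z.indicator f (Sum.elim y b) = ∫ b in fib Z y, f (Sum.elim y b)
  rw [← integral_indicator (meas_fib hZ y)]
  rfl

/-- Continuous functions are integrable on bounded measurable sets. -/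
theorem intOn_bdd {ι : Type} [Fintype ι] {Z : Set (ι → ℝ)} (hZ : MeasurableSet Z) (A : ℝ)
    (hA : ∀ z ∈ Z, ∀ i, |z i| ≤ A) (f : (ι → ℝ) → ℝ) (hf : Continuous f) :
    IntegrableOn f Z := by
  have h1 : IntegrableOn f (Set.Icc (fun _ : ι => -A) (fun _ => A)) :=
    hf.continuousOn.integrableOn_compact isCompact_Icc
  refine h1.mono_set ?_
  intro z hz
  rw [Set.mem_Icc]
  exact ⟨fun i => (abs_le.1 (hA z hz i)).1, fun i => (abs_le.1 (hA z hz i)).2⟩

end Pool.Agent.QVol
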