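import Pool.Agent.W_2cf66e_h46.QA
import Pool.Agent.W_2cf66e_h46.QB

/-!
# Quadratic volumes, part C: noise gadgets (helper46)
-/

set_option autoImplicit false

noncomputable section

open MeasureTheory MvPolynomial

namespace Pool.Agent.QVol

/-- Constants: one new coordinate `b` (index type `Unit`), `|b - a| ≤ ε`, `v = 2 ε`. -/
theorem num_C {ι : Type} [Fintype ι] (a : ℚ) : NumG (C a : MvPolynomial ι ℚ) := by
  intro ε hε
  have hεr : (0 : ℝ) < (ε : ℝ) := by exact_mod_cast hε
  have hal : ∀ y : ι → ℝ, (aeval y (C a : MvPolynomial ι ℚ) : ℝ) = (a : ℝ) := by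
    intro y
    rw [aeval_C]
    rfl
  let T : Set (ι ⊕ Unit → ℝ) := {z | (a : ℝ) - ε ≤ z (Sum.inr ()) ∧ z (Sum.inr ()) ≤ (a : ℝ) + ε}
  have hfib : ∀ y : ι → ℝ, fib T y =
      Set.Icc (fun _ : Unit => (a : ℝ) - ε) (fun _ : Unit => (a : ℝ) + ε) := by
    intro y
    ext b
    simp only [fib, T, Set.mem_setOf_eq, Sum.elim_inr, Set.mem_Icc, Pi.le_def]
    constructor
    · rintro ⟨h1, h2⟩
      exact ⟨fun _ => h1, fun _ => h2⟩
    · rintro ⟨h1, h2⟩
      exact ⟨h1 (), h2 ()⟩
  refine ⟨Unit, inferInstance, T, (), 2 * ε, ?_, by positivity, ?_, ?_⟩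
  · refine ⟨2, ![X (Sum.inr ()) - C (a - ε), C (a + ε) - X (Sum.inr ())], ?_, ?_⟩
    · intro i
      refine Or.inl ?_
      fin_cases i
      · refine (totalDegree_sub _ _).trans ?_
        rw [totalDegree_C]
        exact max_le (totalDegree_X _).le (Nat.zero_le _)
      · refine (totalDegree_sub _ _).trans ?_
        rw [totalDegree_C]
        exact max_le (Nat.zero_le _) (totalDegree_X _).le
    · ext z
      have e0 : (aeval z (X (Sum.inr ()) - C (a - ε) : MvPolynomial (ι ⊕ Unit) ℚ) : ℝ) =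
          z (Sum.inr ()) - ((a : ℝ) - ε) := by
        rw [map_sub, aeval_X, aeval_C]
        simp
      have e1 : (aeval z (C (a + ε) - X (Sum.inr ()) : MvPolynomial (ι ⊕ Unit) ℚ) : ℝ) =
          ((a : ℝ) + ε) - z (Sum.inr ()) := by
        rw [map_sub, aeval_X, aeval_C]
        simp
      simp only [T, Set.mem_setOf_eq, Fin.forall_fin_two]
      show _ ↔ (0 : ℝ) ≤ aeval z (X (Sum.inr ()) - C (a - ε) : MvPolynomial (ι ⊕ Unit) ℚ) ∧
        (0 : ℝ) ≤ aeval z (C (a + ε) - X (Sum.inr ()) : MvPolynomial (ι ⊕ Unit) ℚ)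
      rw [e0, e1]
      constructor
      · rintro ⟨h1, h2⟩
        exact ⟨by linarith, by linarith⟩
      · rintro ⟨h1, h2⟩
        exact ⟨by linarith, by linarith⟩
  · refine ⟨|(a : ℝ)| + ε, fun y _ b hb i => ?_⟩
    rw [hfib] at hb
    have h1 := hb.1 i
    have h2 := hb.2 i
    simp only at h1 h2
    have h3 := le_abs_self (a : ℝ)
    have h4 := neg_abs_le (a : ℝ)
    rw [abs_le]
    constructor <;> linarith
  · intro y _
    rw [hfib, hal]
    refine ⟨?_, ?_, ?_⟩
    · rw [Real.volume_Icc_pi]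
      simp only [Finset.univ_unique, Finset.prod_singleton]
      congr 1
      push_cast
      ring
    · have h1 : ∫ b in Set.Icc (fun _ : Unit => (a : ℝ) - ε) (fun _ : Unit => (a : ℝ) + ε), b () =
          ∫ b : Unit → ℝ, (Set.Icc ((a : ℝ) - ε) ((a : ℝ) + ε)).indicator (fun s => s) (b ()) := by
        rw [← integral_indicator measurableSet_Icc]
        congr 1
        ext b
        by_cases hb : b () ∈ Set.Icc ((a : ℝ) - ε) ((a : ℝ) + ε)
        · rw [Set.indicator_of_mem hb, Set.indicator_of_mem]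
          exact ⟨fun _ => hb.1, fun _ => hb.2⟩
        · rw [Set.indicator_of_notMem hb, Set.indicator_of_notMem]
          intro h
          exact hb ⟨h.1 (), h.2 ()⟩
      rw [h1, int_unit]
      rw [integral_indicator measurableSet_Icc, integral_Icc_eq_integral_Ioc,
        ← intervalIntegral.integral_of_le (by linarith), integral_id]
      push_cast
      ring
    · intro b hb
      have h1 := hb.1 ()
      have h2 := hb.2 ()
      simp only at h1 h2
      rw [abs_le]
      constructor <;> linarith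

end Pool.Agent.QVol
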