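import Pool.Agent.W_2cf66e_h46.QA
import Pool.Agent.W_2cf66e_h46.QB

/-!
# Quadratic volumes, part C: noise gadgets, sums (helper46)
-/

set_option autoImplicit false

noncomputable section

open MeasureTheory MvPolynomial

namespace Pool.Agent.QVol

theorem QCa_unit_vol (a e : ℝ) :
    volume {s : Unit → ℝ | |s () - a| ≤ e} = ENNReal.ofReal (2 * e) := by
  have h : {s : Unit → ℝ | |s () - a| ≤ e} =
      (MeasurableEquiv.funUnique Unit ℝ) ⁻¹' (Set.Icc (a - e) (a + e)) := by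
    ext s
    rw [Set.mem_preimage, Set.mem_Icc, Set.mem_ofPred_eq, abs_le]
    show _ ↔ a - e ≤ s () ∧ s () ≤ a + e
    constructor
    · rintro ⟨h1, h2⟩
      exact ⟨by linarith, by linarith⟩
    · rintro ⟨h1, h2⟩
      exact ⟨by linarith, by linarith⟩
  rw [h, (volume_preserving_funUnique Unit ℝ).measure_preimage
    measurableSet_Icc.nullMeasurableSet, Real.volume_Icc]
  congr 1
  ring

theorem QCa_unit_int (a e : ℝ) (he : 0 ≤ e) :
    ∫ s in {s : Unit → ℝ | |s () - a| ≤ e}, s () = 2 * e * a := by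
  have h : {s : Unit → ℝ | |s () - a| ≤ e} =
      (MeasurableEquiv.funUnique Unit ℝ) ⁻¹' (Set.Icc (a - e) (a + e)) := by
    ext s
    rw [Set.mem_preimage, Set.mem_Icc, Set.mem_ofPred_eq, abs_le]
    show _ ↔ a - e ≤ s () ∧ s () ≤ a + e
    constructor
    · rintro ⟨h1, h2⟩
      exact ⟨by linarith, by linarith⟩
    · rintro ⟨h1, h2⟩
      exact ⟨by linarith, by linarith⟩
  rw [h]
  have h1 := (volume_preserving_funUnique Unit ℝ).setIntegral_preimage_emb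
    (MeasurableEquiv.funUnique Unit ℝ).measurableEmbedding (fun x : ℝ => x)
    (Set.Icc (a - e) (a + e))
  have h2 : ∫ s in (MeasurableEquiv.funUnique Unit ℝ) ⁻¹' (Set.Icc (a - e) (a + e)), s () =
      ∫ x in Set.Icc (a - e) (a + e), x := h1
  rw [h2, integral_Icc_eq_integral_Ioc, ← intervalIntegral.integral_of_le (by linarith),
    integral_id]
  ring

/-- The product of two sets. -/
def QCa_pr {κ₁ κ₂ : Type} (F₁ : Set (κ₁ → ℝ)) (F₂ : Set (κ₂ → ℝ)) : Set (κ₁ ⊕ κ₂ → ℝ) :=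
  {c | (fun i => c (Sum.inl i)) ∈ F₁ ∧ (fun i => c (Sum.inr i)) ∈ F₂}

section
variable {κ₁ κ₂ : Type} [Fintype κ₁] [Fintype κ₂] {F₁ : Set (κ₁ → ℝ)} {F₂ : Set (κ₂ → ℝ)}

omit [Fintype κ₁] [Fintype κ₂] in
theorem QCa_meas (h1 : MeasurableSet F₁) (h2 : MeasurableSet F₂) :
    MeasurableSet (QCa_pr F₁ F₂) := by
  have g1 : Measurable fun c : κ₁ ⊕ κ₂ → ℝ => fun i => c (Sum.inl i) :=
    measurable_pi_lambda _ fun i => measurable_pi_apply _
  have g2 : Measurable fun c : κ₁ ⊕ κ₂ → ℝ => fun i => c (Sum.inr i) :=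
    measurable_pi_lambda _ fun i => measurable_pi_apply _
  exact (g1 h1).inter (g2 h2)

omit [Fintype κ₁] [Fintype κ₂] in
theorem QCa_fib (y : κ₁ → ℝ) : (y ∈ F₁ → fib (QCa_pr F₁ F₂) y = F₂) ∧
    (y ∉ F₁ → fib (QCa_pr F₁ F₂) y = ∅) := by
  constructor
  · intro hy
    ext b
    show y ∈ F₁ ∧ b ∈ F₂ ↔ b ∈ F₂
    exact ⟨fun h => h.2, fun h => ⟨hy, h⟩⟩
  · intro hy
    ext b
    show y ∈ F₁ ∧ b ∈ F₂ ↔ b ∈ (∅ : Set (κ₂ → ℝ))
    exact ⟨fun h => (hy h.1).elim, fun h => h.elim⟩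

theorem QCa_vol (h1 : MeasurableSet F₁) (h2 : MeasurableSet F₂) :
    volume (QCa_pr F₁ F₂) = volume F₁ * volume F₂ := by
  rw [vol_fib (QCa_meas h1 h2)]
  have h : ∀ y : κ₁ → ℝ, volume (fib (QCa_pr F₁ F₂) y) =
      F₁.indicator (fun _ => volume F₂) y := by
    intro y
    by_cases hy : y ∈ F₁
    · rw [Set.indicator_of_mem hy, (QCa_fib y).1 hy]
    · rw [Set.indicator_of_notMem hy, (QCa_fib y).2 hy, measure_empty]
  simp_rw [h]
  rw [lintegral_indicator h1, setLIntegral_const, mul_comm]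

theorem QCa_int (h1 : MeasurableSet F₁) (h2 : MeasurableSet F₂) (A : ℝ)
    (hA1 : ∀ b ∈ F₁, ∀ i, |b i| ≤ A) (hA2 : ∀ b ∈ F₂, ∀ i, |b i| ≤ A)
    (hv1 : volume F₁ ≠ ⊤) (hv2 : volume F₂ ≠ ⊤) (k₁ : κ₁) (k₂ : κ₂) :
    ∫ c in QCa_pr F₁ F₂, (c (Sum.inl k₁) + c (Sum.inr k₂)) =
      volume.real F₂ * (∫ b in F₁, b k₁) + volume.real F₁ * ∫ b in F₂, b k₂ := by
  have i1 : IntegrableOn (fun b : κ₁ → ℝ => b k₁) F₁ :=
    intOn_bdd h1 A hA1 _ (continuous_apply k₁)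
  have i2 : IntegrableOn (fun b : κ₂ → ℝ => b k₂) F₂ :=
    intOn_bdd h2 A hA2 _ (continuous_apply k₂)
  rw [int_fib (QCa_meas h1 h2) (fun c => c (Sum.inl k₁) + c (Sum.inr k₂))
    (intOn_bdd (QCa_meas h1 h2) A (by
      rintro c ⟨hc1, hc2⟩ i
      rcases i with i | i
      · exact hA1 _ hc1 i
      · exact hA2 _ hc2 i) _ (by fun_prop))]
  have h : ∀ y : κ₁ → ℝ, ∫ b in fib (QCa_pr F₁ F₂) y,
      ((Sum.elim y b : κ₁ ⊕ κ₂ → ℝ) (Sum.inl k₁) + (Sum.elim y b : κ₁ ⊕ κ₂ → ℝ) (Sum.inr k₂)) =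
      F₁.indicator (fun y => volume.real F₂ * y k₁ + ∫ b in F₂, b k₂) y := by
    intro y
    by_cases hy : y ∈ F₁
    · rw [Set.indicator_of_mem hy, (QCa_fib y).1 hy]
      show ∫ b in F₂, (y k₁ + b k₂) = _
      have ic : IntegrableOn (fun _ : κ₂ → ℝ => y k₁) F₂ := integrableOn_const hv2
      rw [integral_add ic i2, setIntegral_const, smul_eq_mul]
    · rw [Set.indicator_of_notMem hy, (QCa_fib y).2 hy, Measure.restrict_empty,
        integral_zero_measure]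
  simp_rw [h]
  have ic : IntegrableOn (fun _ : κ₁ → ℝ => ∫ b in F₂, b k₂) F₁ := integrableOn_const hv1
  rw [integral_indicator h1, integral_add (i1.const_mul _) ic,
    integral_const_mul, setIntegral_const, smul_eq_mul]

end

/-- Sums. Gadgets `T₁` (index type `κ₁`, coordinate `k₁`) for `p` and `T₂` for `q`, both with
deviation `ε/3`; new index type `(κ₁ ⊕ κ₂) ⊕ Unit`, set: the restrictions to `ι ⊕ κ₁` and to
`ι ⊕ κ₂` are in `T₁`, `T₂` (`QS.ren` with injective maps), and `|w - b_{k₁} - b_{k₂}| ≤ ε/3` (two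
affine inequalities), `w` the new coordinate. Fibre volume `v₁ v₂ (2 ε/3)`. The fibre is
`{((b₁,b₂),w)}`; Fubini (`vol_fib`, `int_fib` for the type `(κ₁ ⊕ κ₂) ⊕ Unit`, `lint_unit`,
`int_unit`): `∫ w = ∫∫ (2ε/3)(b_{k₁} + b_{k₂}) = (2ε/3)(v₂ v₁ p + v₁ v₂ q)`. -/
theorem num_add {ι : Type} [Fintype ι] {p q : MvPolynomial ι ℚ} (hp : NumG p) (hq : NumG q) :
    NumG (p + q) := by
  intro ε hε
  obtain ⟨κ₁, _, T₁, k₁, v₁, hT1, hv1, ⟨A₁, hA1⟩, h1⟩ := hp (ε / 3) (by positivity)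
  obtain ⟨κ₂, _, T₂, k₂, v₂, hT2, hv2, ⟨A₂, hA2⟩, h2⟩ := hq (ε / 3) (by positivity)
  set e : ℝ := ((ε / 3 : ℚ) : ℝ) with he
  have hεR : (0 : ℝ) < (ε : ℝ) := by exact_mod_cast hε
  have he' : e = (ε : ℝ) / 3 := by rw [he]; push_cast; ring
  have he0 : 0 ≤ e := by rw [he']; positivity
  have hv1R : (0 : ℝ) < v₁ := by exact_mod_cast hv1
  have hv2R : (0 : ℝ) < v₂ := by exact_mod_cast hv2
  let r1 : ι ⊕ κ₁ → ι ⊕ ((κ₁ ⊕ κ₂) ⊕ Unit) := Sum.map id (Sum.inl ∘ Sum.inl)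
  let r2 : ι ⊕ κ₂ → ι ⊕ ((κ₁ ⊕ κ₂) ⊕ Unit) := Sum.map id (Sum.inl ∘ Sum.inr)
  have hr1 : Function.Injective r1 :=
    Function.injective_id.sumMap (Sum.inl_injective.comp Sum.inl_injective)
  have hr2 : Function.Injective r2 :=
    Function.injective_id.sumMap (Sum.inl_injective.comp Sum.inr_injective)
  let P1 : MvPolynomial (ι ⊕ ((κ₁ ⊕ κ₂) ⊕ Unit)) ℚ := C (ε / 3) -
    (X (Sum.inr (Sum.inr ())) - X (Sum.inr (Sum.inl (Sum.inl k₁))) -
      X (Sum.inr (Sum.inl (Sum.inr k₂))))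
  let P2 : MvPolynomial (ι ⊕ ((κ₁ ⊕ κ₂) ⊕ Unit)) ℚ := C (ε / 3) +
    (X (Sum.inr (Sum.inr ())) - X (Sum.inr (Sum.inl (Sum.inl k₁))) -
      X (Sum.inr (Sum.inl (Sum.inr k₂))))
  have hX : ∀ i : ι ⊕ ((κ₁ ⊕ κ₂) ⊕ Unit),
      (X i : MvPolynomial (ι ⊕ ((κ₁ ⊕ κ₂) ⊕ Unit)) ℚ).totalDegree ≤ 1 := fun i =>
    (totalDegree_X i).le
  have hL : (X (Sum.inr (Sum.inr ())) - X (Sum.inr (Sum.inl (Sum.inl k₁))) -
      X (Sum.inr (Sum.inl (Sum.inr k₂))) :
        MvPolynomial (ι ⊕ ((κ₁ ⊕ κ₂) ⊕ Unit)) ℚ).totalDegree ≤ 1 :=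
    (totalDegree_sub _ _).trans (max_le ((totalDegree_sub _ _).trans (max_le (hX _) (hX _)))
      (hX _))
  have hP1 : P1.totalDegree ≤ 1 :=
    (totalDegree_sub _ _).trans (max_le (by rw [totalDegree_C]; exact Nat.zero_le 1) hL)
  have hP2 : P2.totalDegree ≤ 1 :=
    (totalDegree_add _ _).trans (max_le (by rw [totalDegree_C]; exact Nat.zero_le 1) hL)
  let T : Set (ι ⊕ ((κ₁ ⊕ κ₂) ⊕ Unit) → ℝ) :=
    (({z | (fun i => z (r1 i)) ∈ T₁} ∩ {z | (fun i => z (r2 i)) ∈ T₂}) ∩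
      {z | 0 ≤ (aeval z P1 : ℝ)}) ∩ {z | 0 ≤ (aeval z P2 : ℝ)}
  have hT : QS T := (((hT1.ren hr1).inter (hT2.ren hr2)).inter
    (QS.of_qi (IsQI.of_aff hP1))).inter (QS.of_qi (IsQI.of_aff hP2))
  -- the fibre
  have hfib : ∀ (y : ι → ℝ) (b : (κ₁ ⊕ κ₂) ⊕ Unit → ℝ), b ∈ fib T y ↔
      (fun i => b (Sum.inl i)) ∈ QCa_pr (fib T₁ y) (fib T₂ y) ∧
        |b (Sum.inr ()) - (b (Sum.inl (Sum.inl k₁)) + b (Sum.inl (Sum.inr k₂)))| ≤ e := by
    intro y b
    have e1 : (fun i => (Sum.elim y b : ι ⊕ ((κ₁ ⊕ κ₂) ⊕ Unit) → ℝ) (r1 i)) =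
        Sum.elim y (fun i => b (Sum.inl (Sum.inl i))) := by
      funext i
      rcases i with i | i <;> rfl
    have e2 : (fun i => (Sum.elim y b : ι ⊕ ((κ₁ ⊕ κ₂) ⊕ Unit) → ℝ) (r2 i)) =
        Sum.elim y (fun i => b (Sum.inl (Sum.inr i))) := by
      funext i
      rcases i with i | i <;> rfl
    have e3 : (aeval (Sum.elim y b : ι ⊕ ((κ₁ ⊕ κ₂) ⊕ Unit) → ℝ) P1 : ℝ) =
        e - (b (Sum.inr ()) - b (Sum.inl (Sum.inl k₁)) - b (Sum.inl (Sum.inr k₂))) := by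
      simp only [P1, map_sub, aeval_X, aeval_C, Sum.elim_inr]
      rfl
    have e4 : (aeval (Sum.elim y b : ι ⊕ ((κ₁ ⊕ κ₂) ⊕ Unit) → ℝ) P2 : ℝ) =
        e + (b (Sum.inr ()) - b (Sum.inl (Sum.inl k₁)) - b (Sum.inl (Sum.inr k₂))) := by
      simp only [P2, map_sub, map_add, aeval_X, aeval_C, Sum.elim_inr]
      rfl
    have e5 : b ∈ fib T y ↔ (((fun i => (Sum.elim y b : ι ⊕ ((κ₁ ⊕ κ₂) ⊕ Unit) → ℝ) (r1 i)) ∈ T₁ ∧
        (fun i => (Sum.elim y b : ι ⊕ ((κ₁ ⊕ κ₂) ⊕ Unit) → ℝ) (r2 i)) ∈ T₂) ∧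
        0 ≤ (aeval (Sum.elim y b : ι ⊕ ((κ₁ ⊕ κ₂) ⊕ Unit) → ℝ) P1 : ℝ)) ∧
        0 ≤ (aeval (Sum.elim y b : ι ⊕ ((κ₁ ⊕ κ₂) ⊕ Unit) → ℝ) P2 : ℝ) := Iff.rfl
    rw [e5, e1, e2, e3, e4, abs_le]
    constructor
    · rintro ⟨⟨⟨g1, g2⟩, g3⟩, g4⟩
      exact ⟨⟨g1, g2⟩, by linarith, by linarith⟩
    · rintro ⟨⟨g1, g2⟩, g3, g4⟩
      exact ⟨⟨⟨g1, g2⟩, by linarith⟩, by linarith⟩
  refine ⟨(κ₁ ⊕ κ₂) ⊕ Unit, inferInstance, T, Sum.inr (), v₁ * v₂ * (2 * (ε / 3)), hT,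
    by positivity, ⟨|A₁| + |A₂| + e, ?_⟩, ?_⟩
  · intro y hy b hb i
    obtain ⟨⟨g1, g2⟩, g3⟩ := (hfib y b).1 hb
    have a1 := fun j => hA1 y hy _ g1 j
    have a2 := fun j => hA2 y hy _ g2 j
    have b1 := le_abs_self A₁
    have b2 := le_abs_self A₂
    have b3 := abs_nonneg A₁
    have b4 := abs_nonneg A₂
    rcases i with (i | i) | i
    · have := a1 i
      simp only at this
      linarith
    · have := a2 i
      simp only at this
      linarith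
    · have c1 := a1 k₁
      have c2 := a2 k₂
      simp only at c1 c2
      show |b (Sum.inr ())| ≤ _
      rw [abs_le] at c1 c2 g3 ⊢
      constructor <;> linarith [c1.1, c1.2, c2.1, c2.2, g3.1, g3.2]
  · intro y hy
    obtain ⟨u1, u2, u3⟩ := h1 y hy
    obtain ⟨w1, w2, w3⟩ := h2 y hy
    have m1 : MeasurableSet (fib T₁ y) := meas_fib hT1.meas y
    have m2 : MeasurableSet (fib T₂ y) := meas_fib hT2.meas y
    have mT : MeasurableSet (fib T y) := meas_fib hT.meas y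
    have mZ := QCa_meas m1 m2
    have f1 : volume (fib T₁ y) ≠ ⊤ := by rw [u1]; exact ENNReal.ofReal_ne_top
    have f2 : volume (fib T₂ y) ≠ ⊤ := by rw [w1]; exact ENNReal.ofReal_ne_top
    have x1 : volume.real (fib T₁ y) = v₁ := by
      rw [Measure.real, u1, ENNReal.toReal_ofReal hv1R.le]
    have x2 : volume.real (fib T₂ y) = v₂ := by
      rw [Measure.real, w1, ENNReal.toReal_ofReal hv2R.le]
    have ff : ∀ c : κ₁ ⊕ κ₂ → ℝ, (c ∈ QCa_pr (fib T₁ y) (fib T₂ y) → fib (fib T y) c =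
          {s : Unit → ℝ | |s () - (c (Sum.inl k₁) + c (Sum.inr k₂))| ≤ e}) ∧
        (c ∉ QCa_pr (fib T₁ y) (fib T₂ y) → fib (fib T y) c = ∅) := by
      intro c
      constructor
      · intro hc
        ext s
        have := hfib y (Sum.elim c s)
        show Sum.elim c s ∈ fib T y ↔ |s () - (c (Sum.inl k₁) + c (Sum.inr k₂))| ≤ e
        rw [this]
        exact ⟨fun h => h.2, fun h => ⟨hc, h⟩⟩
      · intro hc
        ext s
        have := hfib y (Sum.elim c s)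
        show Sum.elim c s ∈ fib T y ↔ s ∈ (∅ : Set (Unit → ℝ))
        rw [this]
        exact ⟨fun h => (hc h.1).elim, fun h => h.elim⟩
    refine ⟨?_, ?_, ?_⟩
    · rw [vol_fib mT]
      have h : ∀ c : κ₁ ⊕ κ₂ → ℝ, volume (fib (fib T y) c) =
          (QCa_pr (fib T₁ y) (fib T₂ y)).indicator (fun _ => ENNReal.ofReal (2 * e)) c := by
        intro c
        by_cases hc : c ∈ QCa_pr (fib T₁ y) (fib T₂ y)
        · rw [Set.indicator_of_mem hc, (ff c).1 hc, QCa_unit_vol]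
        · rw [Set.indicator_of_notMem hc, (ff c).2 hc, measure_empty]
      simp_rw [h]
      rw [lintegral_indicator mZ, setLIntegral_const, QCa_vol m1 m2, u1, w1,
        ← ENNReal.ofReal_mul hv1R.le, ← ENNReal.ofReal_mul (by positivity)]
      congr 1
      rw [he']
      push_cast
      ring
    · have hbd : ∀ z ∈ fib T y, ∀ i, |z i| ≤ |A₁| + |A₂| + e := by
        intro b hb i
        obtain ⟨⟨g1, g2⟩, g3⟩ := (hfib y b).1 hb
        have a1 := fun j => hA1 y hy _ g1 j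
        have a2 := fun j => hA2 y hy _ g2 j
        have b1 := le_abs_self A₁
        have b2 := le_abs_self A₂
        have b3 := abs_nonneg A₁
        have b4 := abs_nonneg A₂
        rcases i with (i | i) | i
        · have := a1 i
          simp only at this
          linarith
        · have := a2 i
          simp only at this
          linarith
        · have c1 := a1 k₁
          have c2 := a2 k₂
          simp only at c1 c2
          show |b (Sum.inr ())| ≤ _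
          rw [abs_le] at c1 c2 g3 ⊢
          constructor <;> linarith [c1.1, c1.2, c2.1, c2.2, g3.1, g3.2]
      rw [int_fib mT (fun b => b (Sum.inr ()))
        (intOn_bdd mT _ hbd _ (continuous_apply _))]
      have h : ∀ c : κ₁ ⊕ κ₂ → ℝ, ∫ s in fib (fib T y) c,
          (Sum.elim c s : (κ₁ ⊕ κ₂) ⊕ Unit → ℝ) (Sum.inr ()) =
          (QCa_pr (fib T₁ y) (fib T₂ y)).indicator
            (fun c => 2 * e * (c (Sum.inl k₁) + c (Sum.inr k₂))) c := by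
        intro c
        by_cases hc : c ∈ QCa_pr (fib T₁ y) (fib T₂ y)
        · rw [Set.indicator_of_mem hc, (ff c).1 hc]
          exact QCa_unit_int _ e he0
        · rw [Set.indicator_of_notMem hc, (ff c).2 hc, Measure.restrict_empty,
            integral_zero_measure]
      simp_rw [h]
      rw [integral_indicator mZ, integral_const_mul, QCa_int m1 m2 (max A₁ A₂)
        (fun b hb i => (hA1 y hy b hb i).trans (le_max_left _ _))
        (fun b hb i => (hA2 y hy b hb i).trans (le_max_right _ _)) f1 f2, u2, w2, x1, x2,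
        map_add, he']
      push_cast
      ring
    · intro b hb
      obtain ⟨⟨g1, g2⟩, g3⟩ := (hfib y b).1 hb
      have c1 := u3 _ g1
      have c2 := w3 _ g2
      simp only at c1 c2
      rw [map_add]
      rw [abs_le] at c1 c2
      rw [abs_le] at g3 ⊢
      have he3 : (ε : ℝ) = e + e + e := by rw [he']; ring
      rw [he3]
      constructor <;> linarith [c1.1, c1.2, c2.1, c2.2, g3.1, g3.2]

end Pool.Agent.QVol
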