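import Pool.Agent.W_2cf66e_h46.QA
import Pool.Agent.W_2cf66e_h46.QB

/-!
# Quadratic volumes, part C: noise gadgets, products with a coordinate (helper46)
-/

set_option autoImplicit false

noncomputable section

open MeasureTheory MvPolynomial

namespace Pool.Agent.QVol

/-- The interval `|s - c| ≤ h` in `ℝ^Unit`. -/
def QCb_I (c h : ℝ) : Set (Unit → ℝ) := {s | |s () - c| ≤ h}

theorem QCb_I_eq (c h : ℝ) :
    QCb_I c h = (MeasurableEquiv.funUnique Unit ℝ) ⁻¹' Set.Icc (c - h) (c + h) := by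
  ext s
  have h1 : (MeasurableEquiv.funUnique Unit ℝ) s = s () := rfl
  rw [Set.mem_preimage, h1, Set.mem_Icc]
  change |s () - c| ≤ h ↔ _
  rw [abs_le]
  constructor
  · rintro ⟨h2, h3⟩
    constructor <;> linarith
  · rintro ⟨h2, h3⟩
    constructor <;> linarith

theorem QCb_vol (c h : ℝ) : volume (QCb_I c h) = ENNReal.ofReal (2 * h) := by
  rw [QCb_I_eq, (volume_preserving_funUnique Unit ℝ).measure_preimage
    measurableSet_Icc.nullMeasurableSet, Real.volume_Icc]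
  congr 1
  ring

theorem QCb_int (c h : ℝ) (hh : 0 ≤ h) : ∫ s in QCb_I c h, s () = 2 * h * c := by
  rw [QCb_I_eq]
  have h1 := (volume_preserving_funUnique Unit ℝ).setIntegral_preimage_emb
    (MeasurableEquiv.measurableEmbedding _) (fun x => x) (Set.Icc (c - h) (c + h))
  have h2 : ∫ s in (MeasurableEquiv.funUnique Unit ℝ) ⁻¹' Set.Icc (c - h) (c + h), s () =
      ∫ s in (MeasurableEquiv.funUnique Unit ℝ) ⁻¹' Set.Icc (c - h) (c + h),
        (MeasurableEquiv.funUnique Unit ℝ) s := rfl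
  rw [h2, h1, integral_Icc_eq_integral_Ioc, ← intervalIntegral.integral_of_le (by linarith),
    integral_id]
  ring

/-- The injection of `ι ⊕ κ` into `ι ⊕ (κ ⊕ Unit)`. -/
def QCb_f (ι κ : Type) : ι ⊕ κ → ι ⊕ (κ ⊕ Unit) := Sum.map id Sum.inl

theorem QCb_f_inj (ι κ : Type) : Function.Injective (QCb_f ι κ) :=
  Sum.map_injective.2 ⟨Function.injective_id, Sum.inl_injective⟩

/-- The difference `s - y_j b_k`. -/
noncomputable def QCb_q {ι κ : Type} (j : ι) (k : κ) : MvPolynomial (ι ⊕ (κ ⊕ Unit)) ℚ :=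
  X (Sum.inr (Sum.inr ())) + C (-1) * (X (Sum.inl j) * X (Sum.inr (Sum.inl k)))

theorem QCb_q_aeval {ι κ : Type} (j : ι) (k : κ) (z : ι ⊕ (κ ⊕ Unit) → ℝ) :
    aeval z (QCb_q j k) = z (Sum.inr (Sum.inr ())) - z (Sum.inl j) * z (Sum.inr (Sum.inl k)) := by
  unfold QCb_q
  simp only [map_add, map_mul, aeval_X, aeval_C, map_neg, map_one]
  ring

theorem QCb_deg {ι κ : Type} (a : ℚ) (b : ℚ) :
    (C a + C b * X (Sum.inr (Sum.inr ())) : MvPolynomial (ι ⊕ (κ ⊕ Unit)) ℚ).totalDegree ≤ 1 := by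
  refine (totalDegree_add _ _).trans (max_le ?_ ?_)
  · rw [totalDegree_C]
    exact Nat.zero_le _
  · refine (totalDegree_mul _ _).trans ?_
    rw [totalDegree_C, totalDegree_X]

theorem QCb_qi1 {ι κ : Type} (h : ℚ) (j : ι) (k : κ) : IsQI (C h - QCb_q j k) := by
  refine Or.inr ⟨C h + C (-1) * X (Sum.inr (Sum.inr ())), 1, Sum.inl j, Sum.inr (Sum.inl k),
    QCb_deg _ _, Sum.inl_ne_inr, ?_⟩
  unfold QCb_q
  rw [C_neg, C_1]
  ring

theorem QCb_qi2 {ι κ : Type} (h : ℚ) (j : ι) (k : κ) : IsQI (C h + QCb_q j k) := by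
  refine Or.inr ⟨C h + C 1 * X (Sum.inr (Sum.inr ())), -1, Sum.inl j, Sum.inr (Sum.inl k),
    QCb_deg _ _, Sum.inl_ne_inr, ?_⟩
  unfold QCb_q
  rw [C_1]
  ring

/-- The set. -/
def QCb_T {ι κ : Type} (T : Set (ι ⊕ κ → ℝ)) (h : ℚ) (j : ι) (k : κ) :
    Set (ι ⊕ (κ ⊕ Unit) → ℝ) :=
  {z | (fun i => z (QCb_f ι κ i)) ∈ T} ∩ ({z | 0 ≤ (aeval z (C h - QCb_q j k) : ℝ)} ∩
    {z | 0 ≤ (aeval z (C h + QCb_q j k) : ℝ)})

theorem QCb_T_qs {ι κ : Type} {T : Set (ι ⊕ κ → ℝ)} (hT : QS T) (h : ℚ) (j : ι) (k : κ) :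
    QS (QCb_T T h j k) :=
  (hT.ren (QCb_f_inj ι κ)).inter ((QS.of_qi (QCb_qi1 h j k)).inter (QS.of_qi (QCb_qi2 h j k)))

theorem QCb_mem {ι κ : Type} (T : Set (ι ⊕ κ → ℝ)) (h : ℚ) (j : ι) (k : κ) (y : ι → ℝ)
    (b : κ ⊕ Unit → ℝ) : b ∈ fib (QCb_T T h j k) y ↔
      (fun i => b (Sum.inl i)) ∈ fib T y ∧ |b (Sum.inr ()) - y j * b (Sum.inl k)| ≤ h := by
  have h1 : (fun i => (Sum.elim y b : ι ⊕ (κ ⊕ Unit) → ℝ) (QCb_f ι κ i)) =
      Sum.elim y (fun i => b (Sum.inl i)) := by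
    funext i
    cases i <;> rfl
  change (_ ∈ T ∧ (0 ≤ (aeval _ (C h - QCb_q j k) : ℝ) ∧ 0 ≤ (aeval _ (C h + QCb_q j k) : ℝ))) ↔ _
  rw [h1, map_sub, map_add, aeval_C, QCb_q_aeval, abs_le]
  simp only [Sum.elim_inl, Sum.elim_inr, eq_ratCast]
  refine and_congr Iff.rfl ⟨fun h2 => ⟨by linarith [h2.2], by linarith [h2.1]⟩,
    fun h2 => ⟨by linarith [h2.2], by linarith [h2.1]⟩⟩

theorem QCb_fib {ι κ : Type} (T : Set (ι ⊕ κ → ℝ)) (h : ℚ) (j : ι) (k : κ) (y : ι → ℝ)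
    (b : κ → ℝ) : fib (fib (QCb_T T h j k) y) b =
      {s | b ∈ fib T y ∧ s ∈ QCb_I (y j * b k) h} := by
  ext s
  exact QCb_mem T h j k y (Sum.elim b s)

/-- Product with a coordinate. Gadget `T` (index type `κ`, coordinate `k`) for `p` with deviation
`ε/2`; new index type `κ ⊕ Unit`, the restriction is in `T`, and `|s - y_j b_k| ≤ ε/2` for the new
coordinate `s` (two inequalities, affine plus the product `X (inl j) * X (inr (inl k))`).
Fibre volume `v ε`, `∫ s = ∫ ε y_j b_k = ε v y_j p(y)`; deviation `ε/2 + |y_j| ε/2 ≤ ε`. -/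
theorem num_mul_X {ι : Type} [Fintype ι] {p : MvPolynomial ι ℚ} (hp : NumG p) (j : ι) :
    NumG (p * X j) := by
  intro ε hε
  obtain ⟨κ, hκ, T, k, v, hT, hv, ⟨A, hA⟩, hy⟩ := hp (ε / 2) (by positivity)
  have hεR : (0 : ℝ) < ε := by exact_mod_cast hε
  have hvR : (0 : ℝ) < v := by exact_mod_cast hv
  have hcast : ((ε / 2 : ℚ) : ℝ) = (ε : ℝ) / 2 := by push_cast; ring
  have hbd : ∀ y ∈ box ι, ∀ b ∈ fib (QCb_T T (ε / 2) j k) y, ∀ i, |b i| ≤ |A| + ε := by
    intro y hyb b hb i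
    obtain ⟨h1, h2⟩ := (QCb_mem T (ε / 2) j k y b).1 hb
    have h3 : ∀ i : κ, |b (Sum.inl i)| ≤ |A| := fun i => (hA y hyb _ h1 i).trans (le_abs_self A)
    rcases i with i | i
    · exact (h3 i).trans (by linarith)
    · have h4 : |y j * b (Sum.inl k)| ≤ |A| := by
        rw [abs_mul]
        exact (mul_le_of_le_one_left (abs_nonneg _) (mem_box_abs hyb j)).trans (h3 k)
      have h5 := abs_add_le (b (Sum.inr ()) - y j * b (Sum.inl k)) (y j * b (Sum.inl k))
      rw [sub_add_cancel] at h5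
      rw [hcast] at h2
      change |b (Sum.inr ())| ≤ _
      linarith
  refine ⟨κ ⊕ Unit, inferInstance, QCb_T T (ε / 2) j k, Sum.inr (), v * ε, QCb_T_qs hT _ j k,
    mul_pos hv hε, ⟨|A| + ε, hbd⟩, fun y hyb => ?_⟩
  obtain ⟨hvol, hint, hdev⟩ := hy y hyb
  have hS : MeasurableSet (fib (QCb_T T (ε / 2) j k) y) := meas_fib (QCb_T_qs hT _ j k).meas y
  have hTm : MeasurableSet (fib T y) := meas_fib hT.meas y
  refine ⟨?_, ?_, ?_⟩
  · rw [vol_fib hS]
    have h1 : ∀ b : κ → ℝ, volume (fib (fib (QCb_T T (ε / 2) j k) y) b) =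
        (fib T y).indicator (fun _ => ENNReal.ofReal (ε : ℝ)) b := by
      intro b
      rw [QCb_fib]
      by_cases hb : b ∈ fib T y
      · rw [Set.indicator_of_mem hb]
        have h2 : {s | b ∈ fib T y ∧ s ∈ QCb_I (y j * b k) ((ε / 2 : ℚ) : ℝ)} =
            QCb_I (y j * b k) ((ε / 2 : ℚ) : ℝ) := by
          ext s
          exact ⟨fun h => h.2, fun h => ⟨hb, h⟩⟩
        rw [h2, QCb_vol, hcast]
        congr 1
        ring
      · rw [Set.indicator_of_notMem hb]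
        have h2 : {s | b ∈ fib T y ∧ s ∈ QCb_I (y j * b k) ((ε / 2 : ℚ) : ℝ)} = ∅ := by
          ext s
          exact ⟨fun h => hb h.1, fun h => h.elim⟩
        rw [h2, measure_empty]
    simp only [h1]
    rw [lintegral_indicator hTm, setLIntegral_const, hvol, ← ENNReal.ofReal_mul hεR.le]
    congr 1
    push_cast
    ring
  · rw [int_fib hS (fun b => b (Sum.inr ()))
      (intOn_bdd hS (|A| + ε) (hbd y hyb) _ (continuous_apply _))]
    have h1 : ∀ b : κ → ℝ, ∫ s in fib (fib (QCb_T T (ε / 2) j k) y) b,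
        (Sum.elim b s : κ ⊕ Unit → ℝ) (Sum.inr ()) =
        (fib T y).indicator (fun b => (ε * y j) * b k) b := by
      intro b
      rw [QCb_fib]
      by_cases hb : b ∈ fib T y
      · rw [Set.indicator_of_mem hb]
        have h2 : {s | b ∈ fib T y ∧ s ∈ QCb_I (y j * b k) ((ε / 2 : ℚ) : ℝ)} =
            QCb_I (y j * b k) ((ε / 2 : ℚ) : ℝ) := by
          ext s
          exact ⟨fun h => h.2, fun h => ⟨hb, h⟩⟩
        rw [h2]
        have h3 := QCb_int (y j * b k) ((ε / 2 : ℚ) : ℝ) (by rw [hcast]; linarith)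
        simp only [Sum.elim_inr]
        rw [h3, hcast]
        ring
      · rw [Set.indicator_of_notMem hb]
        have h2 : {s | b ∈ fib T y ∧ s ∈ QCb_I (y j * b k) ((ε / 2 : ℚ) : ℝ)} = ∅ := by
          ext s
          exact ⟨fun h => hb h.1, fun h => h.elim⟩
        rw [h2, Measure.restrict_empty, integral_zero_measure]
    simp only [h1]
    rw [integral_indicator hTm, integral_const_mul, hint, map_mul, aeval_X]
    push_cast
    ring
  · intro b hb
    obtain ⟨h1, h2⟩ := (QCb_mem T (ε / 2) j k y b).1 hb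
    have h3 := hdev _ h1
    rw [hcast] at h2 h3
    rw [map_mul, aeval_X]
    have h4 : b (Sum.inr ()) - aeval y p * y j = (b (Sum.inr ()) - y j * b (Sum.inl k)) +
        y j * (b (Sum.inl k) - aeval y p) := by ring
    rw [h4]
    refine (abs_add_le _ _).trans ?_
    have h5 : |y j * (b (Sum.inl k) - aeval y p)| ≤ ε / 2 := by
      rw [abs_mul]
      exact (mul_le_of_le_one_left (abs_nonneg _) (mem_box_abs hyb j)).trans h3
    linarith

end Pool.Agent.QVol
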