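import Pool.Agent.W_2cf66e_h46.QC
import Pool.Agent.W_2cf66e_h46.QCa
import Pool.Agent.W_2cf66e_h46.QCb

/-!
# Quadratic volumes, part D: weight gadgets (helper46)
-/

set_option autoImplicit false

noncomputable section

open MeasureTheory MvPolynomial

namespace Pool.Agent.QVol

theorem num_all {ι : Type} [Fintype ι] (H : MvPolynomial ι ℚ) : NumG H :=
  MvPolynomial.induction_on H num_C (fun _ _ hp hq => num_add hp hq)
    (fun _ j hp => num_mul_X hp j)

/-- A polynomial which is positive on the cube is a fibre volume up to a rational factor.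
`H ≥ δ > 0` on the compact cube (`δ` rational); `NumG H` with `ε = δ/2` gives `T, k, v`; new
index type `κ ⊕ Unit`, `0 ≤ s ≤ b_k` for the new coordinate `s` (affine inequalities). On `T_y`:
`b_k ≥ δ/2 > 0`, so the fibre volume is `∫_{T_y} b_k = v H(y)` (`vol_fib`, `lint_unit`,
`ofReal_integral_eq_lintegral_ofReal`). -/
theorem wt_of_pos {ι : Type} [Fintype ι] (H : MvPolynomial ι ℚ)
    (hH : ∀ y ∈ box ι, 0 < (aeval y H : ℝ)) : WtG H := by
  classical
  obtain ⟨δ, hδ, hδH⟩ := pos_box H hH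
  obtain ⟨κ, _, T, k, v, hT, hv, ⟨A, hA⟩, hmain⟩ := num_all H (δ / 2) (by positivity)
  set T' : Set (ι ⊕ (κ ⊕ Unit) → ℝ) :=
    {z : ι ⊕ (κ ⊕ Unit) → ℝ | (fun i => z (Sum.map id Sum.inl i)) ∈ T} ∩
    ({z : ι ⊕ (κ ⊕ Unit) → ℝ | 0 ≤ (aeval z (X (Sum.inr (Sum.inr ())) :
        MvPolynomial (ι ⊕ (κ ⊕ Unit)) ℚ) : ℝ)} ∩
     {z : ι ⊕ (κ ⊕ Unit) → ℝ | 0 ≤ (aeval z (X (Sum.inr (Sum.inl k)) - X (Sum.inr (Sum.inr ())) :
        MvPolynomial (ι ⊕ (κ ⊕ Unit)) ℚ) : ℝ)}) with hT'
  have hfib : ∀ (y : ι → ℝ) (b : κ ⊕ Unit → ℝ), b ∈ fib T' y ↔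
      ((fun i => b (Sum.inl i)) ∈ fib T y ∧ 0 ≤ b (Sum.inr ()) ∧
        b (Sum.inr ()) ≤ b (Sum.inl k)) := by
    intro y b
    have h1 : (fun i => (Sum.elim y b : ι ⊕ (κ ⊕ Unit) → ℝ) (Sum.map id Sum.inl i)) =
        (Sum.elim y (fun i => b (Sum.inl i)) : ι ⊕ κ → ℝ) := by
      funext i
      rcases i with i | i <;> rfl
    change ((fun i => (Sum.elim y b : ι ⊕ (κ ⊕ Unit) → ℝ) (Sum.map id Sum.inl i)) ∈ T ∧
      (0 ≤ (aeval (Sum.elim y b : ι ⊕ (κ ⊕ Unit) → ℝ) (X (Sum.inr (Sum.inr ())) :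
        MvPolynomial (ι ⊕ (κ ⊕ Unit)) ℚ) : ℝ) ∧
       0 ≤ (aeval (Sum.elim y b : ι ⊕ (κ ⊕ Unit) → ℝ) (X (Sum.inr (Sum.inl k)) -
        X (Sum.inr (Sum.inr ())) : MvPolynomial (ι ⊕ (κ ⊕ Unit)) ℚ) : ℝ))) ↔ _
    rw [h1, map_sub, aeval_X, aeval_X, Sum.elim_inr, Sum.elim_inr, sub_nonneg]
    rfl
  have hinj : Function.Injective (Sum.map id Sum.inl : ι ⊕ κ → ι ⊕ (κ ⊕ Unit)) :=
    Function.Injective.sumMap Function.injective_id Sum.inl_injective
  have hQS : QS T' := by
    refine (hT.ren hinj).inter ((QS.of_qi (IsQI.of_aff ?_)).inter (QS.of_qi (IsQI.of_aff ?_)))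
    · exact (totalDegree_X _).le
    · exact (totalDegree_sub _ _).trans (max_le (totalDegree_X _).le (totalDegree_X _).le)
  refine ⟨κ ⊕ Unit, inferInstance, T', v, hQS, hv, ⟨A, ?_⟩, ?_⟩
  · intro y hy b hb i
    obtain ⟨h1, h2, h3⟩ := (hfib y b).1 hb
    rcases i with i | i
    · exact hA y hy _ h1 i
    · have h4 := hA y hy _ h1 k
      rw [abs_of_nonneg h2]
      exact h3.trans ((le_abs_self _).trans h4)
  · intro y hy
    obtain ⟨_, h2, h3⟩ := hmain y hy
    have hTm : MeasurableSet (fib T y) := meas_fib hT.meas y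
    have hZm : MeasurableSet (fib T' y) := meas_fib hQS.meas y
    have hpos : ∀ b ∈ fib T y, 0 ≤ b k := by
      intro b hb
      have h4 := (abs_le.1 (h3 b hb)).1
      have h5 := hδH y hy
      have h6 : (0 : ℝ) < δ := by exact_mod_cast hδ
      push_cast at h4
      linarith
    rw [vol_fib hZm]
    have h4 : ∀ b : κ → ℝ, volume (fib (fib T' y) b) =
        (fib T y).indicator (fun b => ENNReal.ofReal (b k)) b := by
      intro b
      by_cases hb : b ∈ fib T y
      · rw [Set.indicator_of_mem hb]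
        have h5 : fib (fib T' y) b = Set.Icc (fun _ : Unit => (0 : ℝ)) (fun _ => b k) := by
          ext s
          have h6 := hfib y (Sum.elim b s)
          constructor
          · intro h7
            obtain ⟨_, h8, h9⟩ := h6.1 h7
            exact ⟨fun _ => h8, fun _ => h9⟩
          · intro h7
            exact h6.2 ⟨hb, h7.1 (), h7.2 ()⟩
        rw [h5, Real.volume_Icc_pi]
        simp
      · rw [Set.indicator_of_notMem hb]
        have h5 : fib (fib T' y) b = ∅ := by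
          rw [Set.eq_empty_iff_forall_notMem]
          intro s h7
          exact hb ((hfib y (Sum.elim b s)).1 h7).1
        rw [h5, measure_empty]
    simp only [h4]
    rw [lintegral_indicator hTm, ← h2, ofReal_integral_eq_lintegral_ofReal]
    · exact intOn_bdd hTm A (hA y hy) (fun b => b k) (continuous_apply k)
    · exact (ae_restrict_iff' hTm).2 (Filter.Eventually.of_forall hpos)

end Pool.Agent.QVol
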