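import Pool.Agent.W_2cf66e_h46.QA
import Pool.Agent.W_2cf66e_h46.QB

/-!
# Quadratic volumes, part E: cone gadgets, basic cases (helper46)
-/

set_option autoImplicit false

noncomputable section

open MeasureTheory MvPolynomial

namespace Pool.Agent.QVol

theorem pp_nonneg (k : ℕ) (x : ℝ) : 0 ≤ pp k x := by
  unfold pp
  split_ifs with h
  · exact pow_nonneg h k
  · exact le_refl 0

theorem pp_meas (k : ℕ) : Measurable (pp k) := by
  unfold pp
  exact Measurable.ite measurableSet_Ici (measurable_id.pow_const k) measurable_const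

/-- `pp k (a x) = a^k pp k x` for `a > 0`. -/
theorem pp_mul (k : ℕ) (a x : ℝ) (ha : 0 < a) : pp k (a * x) = a ^ k * pp k x := by
  unfold pp
  by_cases h : 0 ≤ x
  · rw [if_pos h, if_pos (mul_nonneg ha.le h), mul_pow]
  · rw [if_neg h, if_neg (fun h' => h (nonneg_of_mul_nonneg_right h' ha)), mul_zero]

theorem pp_eq_max (k : ℕ) (x : ℝ) : pp (k + 1) x = (max x 0) ^ (k + 1) := by
  unfold pp
  by_cases h : 0 ≤ x
  · rw [if_pos h, max_eq_left h]
  · rw [if_neg h, max_eq_right (not_le.mp h).le, zero_pow (Nat.succ_ne_zero k)]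

/-- One variable integral (for `B < c` both sides are `0`; else `∫_c^B (s-c)^k ds`). -/
theorem pp_int (k : ℕ) (c B : ℝ) :
    ∫⁻ s in Set.Iic B, ENNReal.ofReal (pp k (s - c)) =
      ENNReal.ofReal (pp (k + 1) (B - c) / (k + 1)) := by
  have e1 : (fun s : ℝ => ENNReal.ofReal (pp k (s - c))) =
      (Set.Ici c).indicator (fun s : ℝ => ENNReal.ofReal ((s - c) ^ k)) := by
    funext s
    unfold pp
    by_cases h : c ≤ s
    · rw [if_pos (sub_nonneg.mpr h), Set.indicator_of_mem (Set.mem_Ici.mpr h)]
    · rw [if_neg (fun h' => h (sub_nonneg.mp h')), Set.indicator_of_notMem (show s ∉ Set.Ici c from h),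
        ENNReal.ofReal_zero]
  rw [e1, setLIntegral_indicator measurableSet_Ici, Set.Ici_inter_Iic]
  by_cases hB : c ≤ B
  · have e2 : ∫⁻ s in Set.Icc c B, ENNReal.ofReal ((s - c) ^ k) =
        ENNReal.ofReal (∫ s in Set.Icc c B, (s - c) ^ k) := by
      refine (ofReal_integral_eq_lintegral_ofReal ?_ ?_).symm
      · exact (by fun_prop : Continuous fun s : ℝ => (s - c) ^ k).continuousOn.integrableOn_compact
          isCompact_Icc
      · refine (ae_restrict_iff' measurableSet_Icc).mpr (Filter.Eventually.of_forall ?_)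
        intro s hs
        exact pow_nonneg (sub_nonneg.mpr hs.1) k
    rw [e2, integral_Icc_eq_integral_Ioc, ← intervalIntegral.integral_of_le hB,
      intervalIntegral.integral_comp_sub_right (fun s : ℝ => s ^ k) c, integral_pow, sub_self,
      zero_pow (Nat.succ_ne_zero k), sub_zero]
    unfold pp
    rw [if_pos (sub_nonneg.mpr hB)]
  · rw [Set.Icc_eq_empty hB]
    unfold pp
    rw [if_neg (fun h' => hB (sub_nonneg.mp h'))]
    simp

end Pool.Agent.QVol
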