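import Pool.Agent.W_2cf66e_h46.QE

/-!
# Quadratic volumes, part E: cone gadgets, sums (helper46)
-/

set_option autoImplicit false

noncomputable section

open MeasureTheory MvPolynomial

namespace Pool.Agent.QVol

theorem QEa_ofReal_div (k : ℕ) (x : ℝ) (hx : 0 ≤ x) :
    ENNReal.ofReal (x / (k + 1)) = ENNReal.ofReal (1 / (k + 1 : ℝ)) * ENNReal.ofReal x := by
  rw [← ENNReal.ofReal_mul (by positivity)]
  congr 1
  ring

/-- The volume computation for the sum gadget. -/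
theorem QEa_int {κ₁ κ₂ : Type} [Fintype κ₁] [Fintype κ₂] {S₁ : Set (κ₁ → ℝ)} {S₂ : Set (κ₂ → ℝ)}
    (hS₁ : MeasurableSet S₁) (hS₂ : MeasurableSet S₂) (k₁ : κ₁) (k₂ : κ₂) (P Q g₁ g₂ : ℝ)
    (hg₁ : 0 < g₁) (hg₂ : 0 < g₂) (m₁ m₂ : ℕ)
    (h₁ : ∀ (k : ℕ) (c : ℝ), ∫⁻ b in S₁, ENNReal.ofReal (pp k (b k₁ - c)) =
      ENNReal.ofReal ((k.factorial : ℝ) / (k + m₁).factorial * pp (k + m₁) (P - c) / g₁))
    (h₂ : ∀ (k : ℕ) (c : ℝ), ∫⁻ b in S₂, ENNReal.ofReal (pp k (b k₂ - c)) =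
      ENNReal.ofReal ((k.factorial : ℝ) / (k + m₂).factorial * pp (k + m₂) (Q - c) / g₂))
    (S : Set ((κ₁ ⊕ κ₂) ⊕ Unit → ℝ)) (hS : MeasurableSet S)
    (hmem : ∀ b : (κ₁ ⊕ κ₂) ⊕ Unit → ℝ, b ∈ S ↔
      (fun i => b (Sum.inl (Sum.inl i))) ∈ S₁ ∧ (fun i => b (Sum.inl (Sum.inr i))) ∈ S₂ ∧
        b (Sum.inr ()) ≤ b (Sum.inl (Sum.inl k₁)) + b (Sum.inl (Sum.inr k₂)))
    (k : ℕ) (c : ℝ) :
    ∫⁻ b in S, ENNReal.ofReal (pp k (b (Sum.inr ()) - c)) =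
      ENNReal.ofReal ((k.factorial : ℝ) / (k + (m₁ + m₂ + 1)).factorial *
        pp (k + (m₁ + m₂ + 1)) (P + Q - c) / (g₁ * g₂)) := by
  classical
  -- the integrand
  have e0 : Measurable fun b : (κ₁ ⊕ κ₂) ⊕ Unit → ℝ => b (Sum.inr ()) := measurable_pi_apply _
  have hF : Measurable (S.indicator fun b : (κ₁ ⊕ κ₂) ⊕ Unit → ℝ =>
      ENNReal.ofReal (pp k (b (Sum.inr ()) - c))) :=
    (ENNReal.measurable_ofReal.comp
      ((pp_meas k).comp (e0.sub_const c))).indicator hS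
  let A : Set (κ₁ ⊕ κ₂ → ℝ) := {b | (fun i => b (Sum.inl i)) ∈ S₁ ∧ (fun i => b (Sum.inr i)) ∈ S₂}
  have hA : MeasurableSet A := by
    have e1 : Measurable fun b : κ₁ ⊕ κ₂ → ℝ => fun i => b (Sum.inl i) :=
      measurable_pi_lambda _ fun i => measurable_pi_apply _
    have e2 : Measurable fun b : κ₁ ⊕ κ₂ → ℝ => fun i => b (Sum.inr i) :=
      measurable_pi_lambda _ fun i => measurable_pi_apply _
    exact (e1 hS₁).inter (e2 hS₂)
  let f2 : (κ₁ ⊕ κ₂ → ℝ) → ENNReal := fun b =>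
    ENNReal.ofReal (pp (k + 1) (b (Sum.inl k₁) + b (Sum.inr k₂) - c) / (k + 1))
  have hf2 : Measurable f2 := by
    refine ENNReal.measurable_ofReal.comp (Measurable.div_const ?_ _)
    have e1 : Measurable fun b : κ₁ ⊕ κ₂ → ℝ => b (Sum.inl k₁) := measurable_pi_apply _
    have e2 : Measurable fun b : κ₁ ⊕ κ₂ → ℝ => b (Sum.inr k₂) := measurable_pi_apply _
    exact (pp_meas (k + 1)).comp ((e1.add e2).sub_const c)
  have step1 : ∀ b' : κ₁ ⊕ κ₂ → ℝ, (∫⁻ w : Unit → ℝ, (S.indicator fun b : (κ₁ ⊕ κ₂) ⊕ Unit → ℝ =>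
      ENNReal.ofReal (pp k (b (Sum.inr ()) - c))) (Sum.elim b' w)) = A.indicator f2 b' := by
    intro b'
    rw [lint_unit (fun w : Unit → ℝ => (S.indicator fun b : (κ₁ ⊕ κ₂) ⊕ Unit → ℝ =>
      ENNReal.ofReal (pp k (b (Sum.inr ()) - c))) (Sum.elim b' w)) (hF.comp (meas_elim b'))]
    by_cases hb : b' ∈ A
    · rw [Set.indicator_of_mem hb]
      change _ = ENNReal.ofReal (pp (k + 1) (b' (Sum.inl k₁) + b' (Sum.inr k₂) - c) / (k + 1))
      rw [← pp_int, ← lintegral_indicator measurableSet_Iic]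
      refine lintegral_congr fun w => ?_
      by_cases hw : w ≤ b' (Sum.inl k₁) + b' (Sum.inr k₂)
      · rw [Set.indicator_of_mem (show w ∈ Set.Iic _ from hw), Set.indicator_of_mem]
        · rfl
        · exact (hmem _).2 ⟨hb.1, hb.2, hw⟩
      · rw [Set.indicator_of_notMem (show w ∉ Set.Iic _ from hw), Set.indicator_of_notMem]
        intro h
        exact hw ((hmem _).1 h).2.2
    · rw [Set.indicator_of_notMem hb]
      rw [lintegral_eq_zero_of_ae_eq_zero]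
      refine Filter.Eventually.of_forall fun w => ?_
      change (S.indicator fun b : (κ₁ ⊕ κ₂) ⊕ Unit → ℝ =>
        ENNReal.ofReal (pp k (b (Sum.inr ()) - c))) (Sum.elim b' fun _ => w) = 0
      rw [Set.indicator_of_notMem]
      intro h
      exact hb ⟨((hmem _).1 h).1, ((hmem _).1 h).2.1⟩
  have step2 : ∀ b₁ : κ₁ → ℝ, (∫⁻ b₂ : κ₂ → ℝ, A.indicator f2 (Sum.elim b₁ b₂)) =
      S₁.indicator (fun b₁ => ENNReal.ofReal (1 / (k + 1 : ℝ)) *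
        ENNReal.ofReal (((k + 1).factorial : ℝ) / (k + 1 + m₂).factorial *
          pp (k + 1 + m₂) (b₁ k₁ - (c - Q)) / g₂)) b₁ := by
    intro b₁
    by_cases hb : b₁ ∈ S₁
    · rw [Set.indicator_of_mem hb]
      have e1 : ∀ b₂ : κ₂ → ℝ, A.indicator f2 (Sum.elim b₁ b₂) =
          S₂.indicator (fun b₂ => ENNReal.ofReal (1 / (k + 1 : ℝ)) *
            ENNReal.ofReal (pp (k + 1) (b₂ k₂ - (c - b₁ k₁)))) b₂ := by
        intro b₂
        by_cases hb2 : b₂ ∈ S₂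
        · rw [Set.indicator_of_mem hb2, Set.indicator_of_mem (show Sum.elim b₁ b₂ ∈ A from ⟨hb, hb2⟩)]
          change ENNReal.ofReal (pp (k + 1) (b₁ k₁ + b₂ k₂ - c) / (k + 1)) = _
          rw [QEa_ofReal_div k _ (pp_nonneg _ _)]
          congr 3
          ring
        · rw [Set.indicator_of_notMem hb2, Set.indicator_of_notMem]
          intro h
          exact hb2 h.2
      simp_rw [e1]
      rw [lintegral_indicator hS₂, lintegral_const_mul' _ _ ENNReal.ofReal_ne_top, h₂]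
      congr 4
      congr 1
      ring
    · rw [Set.indicator_of_notMem hb]
      rw [lintegral_eq_zero_of_ae_eq_zero]
      refine Filter.Eventually.of_forall fun b₂ => ?_
      change A.indicator f2 (Sum.elim b₁ b₂) = 0
      rw [Set.indicator_of_notMem]
      intro h
      exact hb h.1
  rw [← lintegral_indicator hS, lint_sum _ hF]
  simp_rw [step1]
  rw [lint_sum _ (hf2.indicator hA)]
  simp_rw [step2]
  rw [lintegral_indicator hS₁]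
  have e3 : ∀ b₁ : κ₁ → ℝ, ENNReal.ofReal (1 / (k + 1 : ℝ)) *
        ENNReal.ofReal (((k + 1).factorial : ℝ) / (k + 1 + m₂).factorial *
          pp (k + 1 + m₂) (b₁ k₁ - (c - Q)) / g₂) =
      ENNReal.ofReal (1 / (k + 1 : ℝ) * (((k + 1).factorial : ℝ) / (k + 1 + m₂).factorial) / g₂) *
        ENNReal.ofReal (pp (k + 1 + m₂) (b₁ k₁ - (c - Q))) := by
    intro b₁
    rw [← ENNReal.ofReal_mul (by positivity), ← ENNReal.ofReal_mul (by positivity)]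
    congr 1
    ring
  simp_rw [e3]
  rw [lintegral_const_mul' _ _ ENNReal.ofReal_ne_top, h₁, ← ENNReal.ofReal_mul (by positivity)]
  have e4 : k + 1 + m₂ + m₁ = k + (m₁ + m₂ + 1) := by ring
  have e5 : P - (c - Q) = P + Q - c := by ring
  rw [e4, e5]
  congr 1
  have e6 : ((k + 1).factorial : ℝ) = (k + 1) * k.factorial := by
    rw [Nat.factorial_succ]; push_cast; ring
  rw [e6]
  have h7 : ((k + 1 + m₂).factorial : ℝ) ≠ 0 := by positivity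
  have h8 : ((k + (m₁ + m₂ + 1)).factorial : ℝ) ≠ 0 := by positivity
  have h9 : (k + 1 : ℝ) ≠ 0 := by positivity
  field_simp

/-- Sums. Index type `(κ₁ ⊕ κ₂) ⊕ Unit`, the two restrictions are in `L₁`, `L₂`, and
`w ≤ b_{k₁} + b_{k₂}` for the new coordinate `w`; `G = G₁ G₂`. Formula: integrate over `w`
(`pp_int`, `w - c`, upper limit `b_{k₁} + b_{k₂}`), then over `b₁` with
`c' = c - b_{k₂}`, then over `b₂` with `c'' = c - p(y)`:
`(1/(k+1)) ((k+1)!/(k+1+m₁)!) ((k+1+m₁)!/(k+1+m₁+m₂)!) = k!/(k+(m₁+m₂+1))!`.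
Upper bound: `w ≤ b_{k₁}+b_{k₂} ≤ p + q`. Boundedness: if `-R ≤ w` then
`b_{k₁} ≥ -R - q(y) ≥ -R - sup |q|`, and symmetrically; `|w| ≤ max R (sup|p| + sup|q|)`. -/
theorem cone_add {ι : Type} [Fintype ι] {p q : MvPolynomial ι ℚ} {m₁ m₂ : ℕ}
    (hp : ConeG p m₁) (hq : ConeG q m₂) : ConeG (p + q) (m₁ + m₂ + 1) := by
  obtain ⟨κ₁, _, L₁, k₁, G₁, hQ₁, hG₁, hup₁, hbd₁, hint₁⟩ := hp
  obtain ⟨κ₂, _, L₂, k₂, G₂, hQ₂, hG₂, hup₂, hbd₂, hint₂⟩ := hq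
  let f₁ : ι ⊕ κ₁ → ι ⊕ ((κ₁ ⊕ κ₂) ⊕ Unit) := Sum.map id (Sum.inl ∘ Sum.inl)
  let f₂ : ι ⊕ κ₂ → ι ⊕ ((κ₁ ⊕ κ₂) ⊕ Unit) := Sum.map id (Sum.inl ∘ Sum.inr)
  have hf₁ : Function.Injective f₁ :=
    Function.injective_id.sumMap (Sum.inl_injective.comp Sum.inl_injective)
  have hf₂ : Function.Injective f₂ :=
    Function.injective_id.sumMap (Sum.inl_injective.comp Sum.inr_injective)
  let l : MvPolynomial (ι ⊕ ((κ₁ ⊕ κ₂) ⊕ Unit)) ℚ :=
    X (Sum.inr (Sum.inl (Sum.inl k₁))) + X (Sum.inr (Sum.inl (Sum.inr k₂))) -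
      X (Sum.inr (Sum.inr ()))
  have hl : IsQI l := by
    refine IsQI.of_aff ((totalDegree_sub _ _).trans (max_le ((totalDegree_add _ _).trans
      (max_le ?_ ?_)) ?_))
    · rw [totalDegree_X]
    · rw [totalDegree_X]
    · rw [totalDegree_X]
  let L : Set (ι ⊕ ((κ₁ ⊕ κ₂) ⊕ Unit) → ℝ) :=
    {z | (fun i => z (f₁ i)) ∈ L₁} ∩ {z | (fun i => z (f₂ i)) ∈ L₂} ∩ {z | 0 ≤ (aeval z l : ℝ)}
  have hL : QS L := ((hQ₁.ren hf₁).inter (hQ₂.ren hf₂)).inter (QS.of_qi hl)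
  have hmem : ∀ (y : ι → ℝ) (b : (κ₁ ⊕ κ₂) ⊕ Unit → ℝ), b ∈ fib L y ↔
      (fun i => b (Sum.inl (Sum.inl i))) ∈ fib L₁ y ∧
        (fun i => b (Sum.inl (Sum.inr i))) ∈ fib L₂ y ∧
        b (Sum.inr ()) ≤ b (Sum.inl (Sum.inl k₁)) + b (Sum.inl (Sum.inr k₂)) := by
    intro y b
    have e1 : (fun i => (Sum.elim y b : ι ⊕ ((κ₁ ⊕ κ₂) ⊕ Unit) → ℝ) (f₁ i)) =
        Sum.elim y (fun i => b (Sum.inl (Sum.inl i))) := by
      funext i
      rcases i with i | i <;> rfl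
    have e2 : (fun i => (Sum.elim y b : ι ⊕ ((κ₁ ⊕ κ₂) ⊕ Unit) → ℝ) (f₂ i)) =
        Sum.elim y (fun i => b (Sum.inl (Sum.inr i))) := by
      funext i
      rcases i with i | i <;> rfl
    have e3 : (aeval (Sum.elim y b : ι ⊕ ((κ₁ ⊕ κ₂) ⊕ Unit) → ℝ) l : ℝ) =
        b (Sum.inl (Sum.inl k₁)) + b (Sum.inl (Sum.inr k₂)) - b (Sum.inr ()) := by
      simp only [l, map_sub, map_add, aeval_X, Sum.elim_inr]
    change (((fun i => (Sum.elim y b : ι ⊕ ((κ₁ ⊕ κ₂) ⊕ Unit) → ℝ) (f₁ i)) ∈ L₁ ∧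
      (fun i => (Sum.elim y b : ι ⊕ ((κ₁ ⊕ κ₂) ⊕ Unit) → ℝ) (f₂ i)) ∈ L₂) ∧
      0 ≤ (aeval (Sum.elim y b : ι ⊕ ((κ₁ ⊕ κ₂) ⊕ Unit) → ℝ) l : ℝ)) ↔ _
    rw [e1, e2, e3, and_assoc, sub_nonneg]
    exact Iff.rfl
  obtain ⟨Bp, hBp0, hBp⟩ := bdd_box p
  obtain ⟨Bq, hBq0, hBq⟩ := bdd_box q
  refine ⟨(κ₁ ⊕ κ₂) ⊕ Unit, inferInstance, L, Sum.inr (), G₁ * G₂, hL, ?_, ?_, ?_, ?_⟩
  · intro y hy
    rw [map_mul]
    exact mul_pos (hG₁ y hy) (hG₂ y hy)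
  · intro y hy b hb
    rw [hmem] at hb
    have h1 := hup₁ y hy _ hb.1
    have h2 := hup₂ y hy _ hb.2.1
    rw [map_add]
    have h3 := hb.2.2
    linarith
  · intro R
    obtain ⟨A₁, hA₁⟩ := hbd₁ (R + Bq)
    obtain ⟨A₂, hA₂⟩ := hbd₂ (R + Bp)
    refine ⟨max (max A₁ A₂) (|R| + Bp + Bq), ?_⟩
    intro y hy b hb hR i
    rw [hmem] at hb
    have h1 := hup₁ y hy _ hb.1
    have h2 := hup₂ y hy _ hb.2.1
    have h3 := hb.2.2
    have h4 := (abs_le.1 (hBp y hy)).2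
    have h5 := (abs_le.1 (hBq y hy)).2
    rcases i with (i | i) | i
    · have h6 := hA₁ y hy _ hb.1 (by linarith) i
      exact h6.trans ((le_max_left _ _).trans (le_max_left _ _))
    · have h6 := hA₂ y hy _ hb.2.1 (by linarith) i
      exact h6.trans ((le_max_right _ _).trans (le_max_left _ _))
    · have hi : i = () := rfl
      subst hi
      refine le_trans ?_ (le_max_right _ _)
      have h7 := le_abs_self R
      have h8 := neg_abs_le R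
      rw [abs_le]
      constructor <;> linarith
  · intro y hy k c
    have hL₁m := meas_fib hQ₁.meas y
    have hL₂m := meas_fib hQ₂.meas y
    rw [map_mul, map_add]
    exact QEa_int hL₁m hL₂m k₁ k₂ _ _ _ _ (hG₁ y hy) (hG₂ y hy) m₁ m₂ (hint₁ y hy) (hint₂ y hy)
      (fib L y) (meas_fib hL.meas y) (hmem y) k c

end Pool.Agent.QVol
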