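import Pool.Agent.W_2cf66e_h46.QE

/-!
# Quadratic volumes, part E: cone gadgets, products (helper46)
-/

set_option autoImplicit false

noncomputable section

open MeasureTheory MvPolynomial

namespace Pool.Agent.QVol

/-- The set over which the product gadget lives. -/
def QEb_set {ι κ : Type} (L : Set (ι ⊕ κ → ℝ)) (k₀ : κ) (j : ι) :
    Set (ι ⊕ (κ ⊕ Unit) → ℝ) :=
  {z | (fun i => z (Sum.map id Sum.inl i)) ∈ L} ∩
    {z | 0 ≤ (aeval z (C 3 * X (Sum.inr (Sum.inl k₀)) - X (Sum.inr (Sum.inr ())) +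
      C 1 * (X (Sum.inl j) * X (Sum.inr (Sum.inl k₀))) :
        MvPolynomial (ι ⊕ (κ ⊕ Unit)) ℚ) : ℝ)}

theorem QEb_fib {ι κ : Type} (L : Set (ι ⊕ κ → ℝ)) (k₀ : κ) (j : ι) (y : ι → ℝ)
    (b : κ ⊕ Unit → ℝ) : b ∈ fib (QEb_set L k₀ j) y ↔
      (fun i => b (Sum.inl i)) ∈ fib L y ∧ b (Sum.inr ()) ≤ (y j + 3) * b (Sum.inl k₀) := by
  unfold fib QEb_set
  rw [Set.mem_ofPred_eq, Set.mem_inter_iff, Set.mem_ofPred_eq, Set.mem_ofPred_eq,
    Set.mem_ofPred_eq]
  have e1 : (fun i => (Sum.elim y b : ι ⊕ (κ ⊕ Unit) → ℝ) (Sum.map id Sum.inl i)) =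
      Sum.elim y (fun i => b (Sum.inl i)) := by
    funext i
    rcases i with i | i <;> rfl
  rw [e1]
  simp only [map_add, map_sub, map_mul, aeval_X, Sum.elim_inl, Sum.elim_inr, map_one,
    map_ofNat, one_mul]
  constructor
  · rintro ⟨h1, h2⟩
    exact ⟨h1, by linarith⟩
  · rintro ⟨h1, h2⟩
    exact ⟨h1, by linarith⟩

theorem QEb_qs {ι κ : Type} {L : Set (ι ⊕ κ → ℝ)} (hL : QS L) (k₀ : κ) (j : ι) :
    QS (QEb_set L k₀ j) := by
  classical
  have hinj : Function.Injective (Sum.map id Sum.inl : ι ⊕ κ → ι ⊕ (κ ⊕ Unit)) :=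
    Sum.map_injective.2 ⟨Function.injective_id, Sum.inl_injective⟩
  refine (hL.ren hinj).inter (QS.of_qi (Or.inr ⟨C 3 * X (Sum.inr (Sum.inl k₀)) -
    X (Sum.inr (Sum.inr ())), 1, Sum.inl j, Sum.inr (Sum.inl k₀), ?_, by simp, rfl⟩))
  refine (totalDegree_sub _ _).trans (max_le ?_ (totalDegree_X _).le)
  refine (totalDegree_mul _ _).trans ?_
  rw [totalDegree_C, totalDegree_X]

/-- Product with `z = y_j + 3 ∈ [2,4]`. Index type `κ ⊕ Unit`, new coordinate
`w ≤ z b_k = y_j b_k + 3 b_k` (affine plus one product), `G' = G (X_j + 3)^m`. Formula: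
`∫_{w ≤ z b_k} pp_k(w-c) = pp_(k+1)(z b_k - c)/(k+1) = z^(k+1) pp_(k+1)(b_k - c/z)/(k+1)`
(`pp_int`, `pp_mul`), then the formula for `k+1` and `c/z`:
`z^(k+1)/(k+1) (k+1)!/(k+1+m)! pp_(k+1+m)(p - c/z)/G`, and
`pp_(k+1+m)(p - c/z) = z^(-(k+1+m)) pp_(k+1+m)(z p - c)`.
Boundedness: `-R ≤ w ≤ z b_k` gives `b_k ≥ -R/z ≥ -|R|/2`. -/
theorem cone_mul {ι : Type} [Fintype ι] {p : MvPolynomial ι ℚ} {m : ℕ} (h : ConeG p m) (j : ι) :
    ConeG (p * (X j + 3)) (m + 1) := by
  classical
  obtain ⟨κ, hκ, L, k₀, G, hL, hG, hle, hbd, hint⟩ := h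
  have hev : ∀ y : ι → ℝ, (aeval y (p * (X j + 3)) : ℝ) = aeval y p * (y j + 3) := by
    intro y
    simp only [map_mul, map_add, aeval_X, map_ofNat]
  have hevG : ∀ y : ι → ℝ, (aeval y (G * (X j + 3) ^ m) : ℝ) = aeval y G * (y j + 3) ^ m := by
    intro y
    simp only [map_mul, map_pow, map_add, aeval_X, map_ofNat]
  have hz : ∀ y ∈ box ι, 2 ≤ y j + 3 ∧ y j + 3 ≤ 4 := by
    intro y hy
    have h1 := abs_le.1 (show |y j| ≤ 1 from by
      rw [abs_le]; exact ⟨hy.1 j, hy.2 j⟩)
    exact ⟨by linarith [h1.1], by linarith [h1.2]⟩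
  refine ⟨κ ⊕ Unit, inferInstance, QEb_set L k₀ j, Sum.inr (), G * (X j + 3) ^ m,
    QEb_qs hL k₀ j, ?_, ?_, ?_, ?_⟩
  · intro y hy
    rw [hevG]
    have h1 := (hz y hy).1
    exact mul_pos (hG y hy) (pow_pos (by linarith) m)
  · intro y hy b hb
    rw [hev]
    obtain ⟨h1, h2⟩ := (QEb_fib L k₀ j y b).1 hb
    have h3 := hle y hy _ h1
    have h4 := (hz y hy).1
    have h5 : (y j + 3) * b (Sum.inl k₀) ≤ (y j + 3) * aeval y p :=
      mul_le_mul_of_nonneg_left h3 (by linarith)
    linarith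
  · intro R
    obtain ⟨A, hA⟩ := hbd (|R| / 2)
    refine ⟨|A| + 4 * |A| + |R|, fun y hy b hb hR i => ?_⟩
    obtain ⟨h1, h2⟩ := (QEb_fib L k₀ j y b).1 hb
    have h3 := (hz y hy).1
    have h4 := (hz y hy).2
    have hRa := neg_abs_le R
    have hRb := le_abs_self R
    have h5 : -(|R| / 2) ≤ b (Sum.inl k₀) := by
      by_contra hcon
      push Not at hcon
      have h6 : (y j + 3) * b (Sum.inl k₀) < (y j + 3) * (-(|R| / 2)) :=
        mul_lt_mul_of_pos_left hcon (by linarith)
      have h7 : (y j + 3) * (-(|R| / 2)) ≤ 2 * (-(|R| / 2)) := by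
        have := abs_nonneg R
        nlinarith
      linarith
    have h6 : ∀ i, |b (Sum.inl i)| ≤ A := hA y hy _ h1 h5
    have hA0 : 0 ≤ |A| := abs_nonneg A
    have hAA : A ≤ |A| := le_abs_self A
    have hR0 := abs_nonneg R
    rcases i with i | i
    · have := h6 i
      linarith
    · have h7 := h6 k₀
      have h8 : (y j + 3) * b (Sum.inl k₀) ≤ 4 * |A| := by
        have h9 : b (Sum.inl k₀) ≤ |A| := ((le_abs_self _).trans h7).trans hAA
        have h10 : (y j + 3) * b (Sum.inl k₀) ≤ (y j + 3) * |A| :=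
          mul_le_mul_of_nonneg_left h9 (by linarith)
        have h11 : (y j + 3) * |A| ≤ 4 * |A| := mul_le_mul_of_nonneg_right h4 hA0
        linarith
      have hi : b (Sum.inr i) = b (Sum.inr ()) := rfl
      rw [hi, abs_le]
      constructor <;> linarith
  · intro y hy k c
    have hz2 := (hz y hy).1
    set z : ℝ := y j + 3 with hzdef
    have hz0 : 0 < z := by linarith
    have hmeasL : MeasurableSet (fib L y) := meas_fib hL.meas y
    have hmeas' : MeasurableSet (fib (QEb_set L k₀ j) y) := meas_fib (QEb_qs hL k₀ j).meas y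
    have hf00 : Measurable fun b : κ ⊕ Unit → ℝ => b (Sum.inr ()) :=
      measurable_pi_apply (Sum.inr ())
    have hf0 : Measurable fun b : κ ⊕ Unit → ℝ => b (Sum.inr ()) - c :=
      hf00.sub_const c
    have hf : Measurable fun b : κ ⊕ Unit → ℝ => ENNReal.ofReal (pp k (b (Sum.inr ()) - c)) :=
      ENNReal.measurable_ofReal.comp ((pp_meas k).comp hf0)
    rw [lint_fib hmeas' _ hf]
    have hinner : ∀ b : κ → ℝ, (∫⁻ s in fib (fib (QEb_set L k₀ j) y) b,
        ENNReal.ofReal (pp k ((Sum.elim b s : κ ⊕ Unit → ℝ) (Sum.inr ()) - c))) =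
        (fib L y).indicator (fun b => ENNReal.ofReal (z ^ (k + 1) / (k + 1)) *
          ENNReal.ofReal (pp (k + 1) (b k₀ - c / z))) b := by
      intro b
      by_cases hb : b ∈ fib L y
      · rw [Set.indicator_of_mem hb]
        have hset : fib (fib (QEb_set L k₀ j) y) b =
            {s : Unit → ℝ | s () ∈ Set.Iic (z * b k₀)} := by
          ext s
          show (Sum.elim b s : κ ⊕ Unit → ℝ) ∈ fib (QEb_set L k₀ j) y ↔ _
          rw [QEb_fib]
          constructor
          · rintro ⟨_, h2⟩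
            exact h2
          · intro h2
            exact ⟨hb, h2⟩
        have hms : MeasurableSet {s : Unit → ℝ | s () ∈ Set.Iic (z * b k₀)} :=
          (measurable_pi_apply ()) measurableSet_Iic
        rw [hset, ← lintegral_indicator hms]
        have hg : ({s : Unit → ℝ | s () ∈ Set.Iic (z * b k₀)}.indicator
            fun s => ENNReal.ofReal (pp k ((Sum.elim b s : κ ⊕ Unit → ℝ) (Sum.inr ()) - c))) =
            fun s : Unit → ℝ => (Set.Iic (z * b k₀)).indicator
              (fun r => ENNReal.ofReal (pp k (r - c))) (s ()) := by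
          funext s
          by_cases hs : s () ∈ Set.Iic (z * b k₀)
          · rw [Set.indicator_of_mem hs, Set.indicator_of_mem (show s ∈
              {s : Unit → ℝ | s () ∈ Set.Iic (z * b k₀)} from hs)]
            rfl
          · rw [Set.indicator_of_notMem hs, Set.indicator_of_notMem (show s ∉
              {s : Unit → ℝ | s () ∈ Set.Iic (z * b k₀)} from hs)]
        have hm1 : Measurable fun r : ℝ => ENNReal.ofReal (pp k (r - c)) :=
          ENNReal.measurable_ofReal.comp ((pp_meas k).comp (measurable_id.sub_const c))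
        have hm3 : Measurable fun s : Unit → ℝ => (Set.Iic (z * b k₀)).indicator
              (fun r => ENNReal.ofReal (pp k (r - c))) (s ()) :=
          (hm1.indicator measurableSet_Iic).comp (measurable_pi_apply ())
        rw [hg, lint_unit _ hm3]
        rw [lintegral_indicator measurableSet_Iic, pp_int]
        have h1 : z * b k₀ - c = z * (b k₀ - c / z) := by
          field_simp
        rw [h1, pp_mul _ _ _ hz0, ← ENNReal.ofReal_mul (by positivity)]
        congr 1
        ring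
      · rw [Set.indicator_of_notMem hb]
        have hset : fib (fib (QEb_set L k₀ j) y) b = ∅ := by
          ext s
          simp only [Set.mem_empty_iff_false, iff_false]
          intro hs
          have hs' : (Sum.elim b s : κ ⊕ Unit → ℝ) ∈ fib (QEb_set L k₀ j) y := hs
          exact hb ((QEb_fib L k₀ j y _).1 hs').1
        rw [hset]
        simp
    simp_rw [hinner]
    rw [lintegral_indicator hmeasL]
    have hm200 : Measurable fun b : κ → ℝ => b k₀ := measurable_pi_apply k₀
    have hm20 : Measurable fun b : κ → ℝ => b k₀ - c / z := hm200.sub_const (c / z)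
    have hm2 : Measurable fun b : κ → ℝ => ENNReal.ofReal (pp (k + 1) (b k₀ - c / z)) :=
      ENNReal.measurable_ofReal.comp ((pp_meas (k + 1)).comp hm20)
    rw [lintegral_const_mul _ hm2, hint y hy (k + 1) (c / z),
      ← ENNReal.ofReal_mul (by positivity)]
    congr 1
    rw [hev, hevG, ← hzdef]
    have h1 : aeval y p * z - c = z * (aeval y p - c / z) := by
      field_simp
    have h2 : k + (m + 1) = k + 1 + m := by ring
    rw [h1, pp_mul _ _ _ hz0, h2]
    have hG0 : (aeval y G : ℝ) ≠ 0 := (hG y hy).ne'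
    have hk : ((k + 1).factorial : ℝ) = (k + 1) * k.factorial := by
      rw [Nat.factorial_succ]
      push_cast
      ring
    have hf0 : ((k + 1 + m).factorial : ℝ) ≠ 0 := by
      exact_mod_cast (Nat.factorial_pos _).ne'
    have hk0 : ((k : ℝ) + 1) ≠ 0 := by positivity
    rw [hk, pow_add z (k + 1) m]
    field_simp

end Pool.Agent.QVol
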