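import Pool.Agent.W_2cf66e_h46.QE

/-!
# Quadratic volumes, part E: cone gadgets, constants and padding (helper46)
-/

set_option autoImplicit false

noncomputable section

open MeasureTheory MvPolynomial

namespace Pool.Agent.QVol

theorem QEd_deg_sub {σ : Type} {p q : MvPolynomial σ ℚ} (hp : p.totalDegree ≤ 1)
    (hq : q.totalDegree ≤ 1) : (p - q).totalDegree ≤ 1 :=
  (totalDegree_sub p q).trans (max_le hp hq)

theorem QEd_int_unit (k : ℕ) (c B : ℝ) :
    ∫⁻ s in {s : Unit → ℝ | s () ≤ B}, ENNReal.ofReal (pp k (s () - c)) =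
      ENNReal.ofReal (pp (k + 1) (B - c) / (k + 1)) := by
  have hm : MeasurableSet {s : Unit → ℝ | s () ≤ B} :=
    measurableSet_le (measurable_pi_apply ()) measurable_const
  have hf : Measurable fun s : Unit → ℝ => ENNReal.ofReal (pp k (s () - c)) :=
    ((pp_meas k).comp ((measurable_pi_apply ()).sub measurable_const)).ennreal_ofReal
  rw [← lintegral_indicator hm, lint_unit _ (hf.indicator hm), ← pp_int k c B,
    ← lintegral_indicator measurableSet_Iic]
  refine lintegral_congr (fun s => ?_)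
  by_cases hs : s ≤ B
  · rw [Set.indicator_of_mem (show (fun _ : Unit => s) ∈ {s : Unit → ℝ | s () ≤ B} from hs),
      Set.indicator_of_mem (show s ∈ Set.Iic B from hs)]
  · rw [Set.indicator_of_notMem (show (fun _ : Unit => s) ∉ {s : Unit → ℝ | s () ≤ B} from hs),
      Set.indicator_of_notMem (show s ∉ Set.Iic B from hs)]

/-- Constants: one coordinate `b` (type `Unit`), `b ≤ a`, `G = 1`. -/
theorem cone_C {ι : Type} [Fintype ι] (a : ℚ) : ConeG (C a : MvPolynomial ι ℚ) 1 := by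
  refine ⟨Unit, inferInstance,
    {z : ι ⊕ Unit → ℝ | 0 ≤ (aeval z (C a - X (Sum.inr ()) : MvPolynomial (ι ⊕ Unit) ℚ) : ℝ)}, (), 1,
    QS.of_qi (IsQI.of_aff (QEd_deg_sub (by simp) (by simp [totalDegree_X]))), ?_, ?_, ?_, ?_⟩
  · intro y _
    simp
  · intro y _ b hb
    have hb' : 0 ≤ (aeval (Sum.elim y b) (C a - X (Sum.inr ()) : MvPolynomial (ι ⊕ Unit) ℚ) : ℝ) := hb
    simp only [map_sub, aeval_X, aeval_C, Sum.elim_inr] at hb'
    simp only [aeval_C]
    linarith
  · intro R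
    refine ⟨|R| + |(a : ℝ)|, ?_⟩
    intro y _ b hb hR i
    have hb' : 0 ≤ (aeval (Sum.elim y b) (C a - X (Sum.inr ()) : MvPolynomial (ι ⊕ Unit) ℚ) : ℝ) := hb
    simp only [map_sub, aeval_X, aeval_C, Sum.elim_inr, eq_ratCast] at hb'
    have hi : b i = b () := by cases i; rfl
    rw [hi, abs_le]
    have h1 := le_abs_self R
    have h2 := le_abs_self (a : ℝ)
    have h3 := abs_nonneg R
    have h4 := abs_nonneg (a : ℝ)
    constructor <;> linarith
  · intro y _ k c
    have hfib : fib {z : ι ⊕ Unit → ℝ |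
        0 ≤ (aeval z (C a - X (Sum.inr ()) : MvPolynomial (ι ⊕ Unit) ℚ) : ℝ)} y =
        {s : Unit → ℝ | s () ≤ (a : ℝ)} := by
      ext b
      unfold fib
      simp only [Set.mem_ofPred_eq, map_sub, aeval_X, aeval_C, Sum.elim_inr, eq_ratCast, sub_nonneg]
    rw [hfib, QEd_int_unit]
    congr 1
    simp only [aeval_C, eq_ratCast, map_one, div_one]
    have h1 : (k.factorial : ℝ) ≠ 0 := by exact_mod_cast k.factorial_ne_zero
    have h2 : ((k : ℝ) + 1) ≠ 0 := by positivity
    rw [Nat.factorial_succ]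
    push_cast
    field_simp

/-- Padding: new coordinate `w ≤ b_k` (index type `κ ⊕ Unit`), same `G`.
`∫_{w ≤ b_k} pp_k(w - c) = pp_(k+1)(b_k - c)/(k+1)` (`pp_int`), then the formula for `k+1`;
`(1/(k+1)) (k+1)!/(k+1+m)! = k!/(k+(m+1))!`. -/
theorem cone_pad {ι : Type} [Fintype ι] {p : MvPolynomial ι ℚ} {m : ℕ} (h : ConeG p m) :
    ConeG p (m + 1) := by
  obtain ⟨κ, hκ, L, k₀, G, hL, hG, hle, hbd, hint⟩ := h
  set q : MvPolynomial (ι ⊕ (κ ⊕ Unit)) ℚ := X (Sum.inr (Sum.inl k₀)) - X (Sum.inr (Sum.inr ())) with hq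
  set f : ι ⊕ κ → ι ⊕ (κ ⊕ Unit) := Sum.map id Sum.inl with hf
  have hfi : Function.Injective f := Function.injective_id.sumMap Sum.inl_injective
  set L' : Set (ι ⊕ (κ ⊕ Unit) → ℝ) := {z | (fun i => z (f i)) ∈ L} ∩ {z | 0 ≤ (aeval z q : ℝ)} with hL'
  have hqv : ∀ z : ι ⊕ (κ ⊕ Unit) → ℝ, (aeval z q : ℝ) =
      z (Sum.inr (Sum.inl k₀)) - z (Sum.inr (Sum.inr ())) := by
    intro z
    simp [hq]
  have hrestr : ∀ (y : ι → ℝ) (b : κ ⊕ Unit → ℝ), (fun i => (Sum.elim y b : ι ⊕ (κ ⊕ Unit) → ℝ) (f i)) =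
      Sum.elim y (fun i => b (Sum.inl i)) := by
    intro y b
    funext i
    cases i <;> simp [hf]
  have hmem : ∀ (y : ι → ℝ) (b : κ ⊕ Unit → ℝ), b ∈ fib L' y ↔
      (fun i => b (Sum.inl i)) ∈ fib L y ∧ b (Sum.inr ()) ≤ b (Sum.inl k₀) := by
    intro y b
    have : b ∈ fib L' y ↔ (fun i => (Sum.elim y b : ι ⊕ (κ ⊕ Unit) → ℝ) (f i)) ∈ L ∧
      0 ≤ (aeval (Sum.elim y b : ι ⊕ (κ ⊕ Unit) → ℝ) q : ℝ) := Iff.rfl
    rw [this, hrestr, hqv, Sum.elim_inr, Sum.elim_inr, sub_nonneg]
    rfl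
  have hL'S : QS L' := (QS.ren hL hfi).inter (QS.of_qi (IsQI.of_aff (QEd_deg_sub
    (by simp [totalDegree_X]) (by simp [totalDegree_X]))))
  refine ⟨κ ⊕ Unit, inferInstance, L', Sum.inr (), G, hL'S, hG, ?_, ?_, ?_⟩
  · intro y hy b hb
    obtain ⟨h1, h2⟩ := (hmem y b).mp hb
    exact h2.trans (hle y hy _ h1)
  · intro R
    obtain ⟨A, hA⟩ := hbd R
    refine ⟨|R| + |A|, ?_⟩
    intro y hy b hb hR
    obtain ⟨h1, h2⟩ := (hmem y b).mp hb
    have h3 := hA y hy _ h1 (hR.trans h2)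
    have hR1 := le_abs_self R
    have hA1 := le_abs_self A
    have hR2 := abs_nonneg R
    have hA2 := abs_nonneg A
    rintro (i | ⟨⟩)
    · exact (h3 i).trans (by linarith)
    · have h4 := (abs_le.mp (h3 k₀)).2
      rw [abs_le]
      constructor
      · linarith
      · exact h2.trans (h4.trans (by linarith))
  · intro y hy k c
    have hLm : MeasurableSet (fib L y) := meas_fib hL.meas y
    have hL'm : MeasurableSet (fib L' y) := meas_fib hL'S.meas y
    have hfm : Measurable fun b : κ ⊕ Unit → ℝ => ENNReal.ofReal (pp k (b (Sum.inr ()) - c)) :=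
      ((pp_meas k).comp ((measurable_pi_apply (Sum.inr ())).sub measurable_const)).ennreal_ofReal
    rw [lint_fib hL'm _ hfm]
    have hinner : ∀ b : κ → ℝ, ∫⁻ s in fib (fib L' y) b,
        ENNReal.ofReal (pp k ((Sum.elim b s : κ ⊕ Unit → ℝ) (Sum.inr ()) - c)) =
        (fib L y).indicator (fun b => ENNReal.ofReal (1 / ((k : ℝ) + 1)) *
          ENNReal.ofReal (pp (k + 1) (b k₀ - c))) b := by
      intro b
      by_cases hb : b ∈ fib L y
      · rw [Set.indicator_of_mem hb]
        have hfib : fib (fib L' y) b = {s : Unit → ℝ | s () ≤ b k₀} := by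
          ext s
          have : s ∈ fib (fib L' y) b ↔ (Sum.elim b s : κ ⊕ Unit → ℝ) ∈ fib L' y := Iff.rfl
          rw [this, hmem]
          simp only [Sum.elim_inl, Sum.elim_inr]
          exact ⟨fun h => h.2, fun h => ⟨hb, h⟩⟩
        rw [hfib]
        simp only [Sum.elim_inr]
        rw [QEd_int_unit, ← ENNReal.ofReal_mul (by positivity)]
        congr 1
        ring
      · rw [Set.indicator_of_notMem hb]
        have hfib : fib (fib L' y) b = ∅ := by
          ext s
          have : s ∈ fib (fib L' y) b ↔ (Sum.elim b s : κ ⊕ Unit → ℝ) ∈ fib L' y := Iff.rfl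
          rw [this, hmem]
          simp only [Sum.elim_inl, Set.mem_empty_iff_false, iff_false, not_and]
          intro h
          exact absurd h hb
        rw [hfib]
        simp
    simp_rw [hinner]
    rw [lintegral_indicator hLm, lintegral_const_mul _ (by
      exact ((pp_meas (k + 1)).comp ((measurable_pi_apply k₀).sub measurable_const)).ennreal_ofReal),
      hint y hy (k + 1) c, ← ENNReal.ofReal_mul (by positivity)]
    congr 1
    have hGy := (hG y hy).ne'
    have h1 : (k.factorial : ℝ) ≠ 0 := by exact_mod_cast k.factorial_ne_zero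
    have h2 : ((k : ℝ) + 1) ≠ 0 := by positivity
    have h3 : ((k + 1 + m).factorial : ℝ) ≠ 0 := by exact_mod_cast (k + 1 + m).factorial_ne_zero
    rw [show k + (m + 1) = k + 1 + m by ring, Nat.factorial_succ k]
    push_cast
    field_simp

end Pool.Agent.QVol
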