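import Pool.Agent.W_2cf66e_h46.QEa
import Pool.Agent.W_2cf66e_h46.QEd
import Pool.Agent.W_2cf66e_h46.QEb

/-!
# Quadratic volumes, part E: cone gadgets for all polynomials (helper46)
-/

set_option autoImplicit false

noncomputable section

open MeasureTheory MvPolynomial

namespace Pool.Agent.QVol

/-- Every polynomial has cone gadgets for all large `m`. Proof: with `τ p = aeval (X_j + 3) p` and
its inverse (`aeval (X_j - 3)`), show `∃ m₀ ≥ 1, ConeG (τ p) m₀` by `MvPolynomial.induction_on`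
(`cone_C`, `cone_add`, `cone_mul`), and use `cone_pad` (`Nat.le_induction`). -/
theorem cone_all {ι : Type} [Fintype ι] (p : MvPolynomial ι ℚ) :
    ∃ m₀ : ℕ, ∀ m : ℕ, m₀ ≤ m → ConeG p m := by
  have key : ∀ q : MvPolynomial ι ℚ, ∃ m₀ : ℕ,
      ConeG (aeval (fun j : ι => (X j + 3 : MvPolynomial ι ℚ)) q) m₀ := by
    intro q
    induction q using MvPolynomial.induction_on with
    | C a => exact ⟨1, by rw [aeval_C]; exact cone_C a⟩
    | add p q hp hq =>
      obtain ⟨m₁, h₁⟩ := hp
      obtain ⟨m₂, h₂⟩ := hq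
      exact ⟨m₁ + m₂ + 1, by rw [map_add]; exact cone_add h₁ h₂⟩
    | mul_X p j hp =>
      obtain ⟨m₁, h₁⟩ := hp
      exact ⟨m₁ + 1, by rw [map_mul, aeval_X]; exact cone_mul h₁ j⟩
  obtain ⟨m₀, h₀⟩ := key (aeval (fun j : ι => (X j - 3 : MvPolynomial ι ℚ)) p)
  have e : aeval (fun j : ι => (X j + 3 : MvPolynomial ι ℚ))
      (aeval (fun j : ι => (X j - 3 : MvPolynomial ι ℚ)) p) = p := by
    have h1 : ((aeval (fun j : ι => (X j + 3 : MvPolynomial ι ℚ))).comp
        (aeval (fun j : ι => (X j - 3 : MvPolynomial ι ℚ)))) = AlgHom.id ℚ _ := by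
      apply MvPolynomial.algHom_ext
      intro j
      rw [AlgHom.comp_apply, aeval_X, map_sub, aeval_X, AlgHom.id_apply]
      have h3 : aeval (fun j : ι => (X j + 3 : MvPolynomial ι ℚ)) (3 : MvPolynomial ι ℚ) = 3 :=
        map_ofNat _ 3
      rw [h3]
      ring
    have h2 := DFunLike.congr_fun h1 p
    rw [AlgHom.comp_apply, AlgHom.id_apply] at h2
    exact h2
  rw [e] at h₀
  refine ⟨m₀, fun m hm => ?_⟩
  induction m, hm using Nat.le_induction with
  | base => exact h₀
  | succ m hm ih => exact cone_pad ih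

end Pool.Agent.QVol
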