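import Pool.Agent.W_2cf66e_h46.QA
import Pool.Agent.W_2cf66e_h46.QB

/-!
# Quadratic volumes, part F: reindexing (helper46)
-/

set_option autoImplicit false

noncomputable section

open MeasureTheory MvPolynomial

namespace Pool.Agent.QVol

/-- Reindexing by `Fin N`. (`Fintype.equivFin`, `volume_measurePreserving_piCongrLeft`, see
`int_box_equiv` in `W_2cf66e_h65/CBox.lean`; the coordinate change is a homeomorphism.) -/
theorem reindex {κ : Type} [Fintype κ] (S : Set (κ → ℝ)) (hS : QS S) (hc : IsCompact S) :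
    ∃ (N m : ℕ) (q : Fin m → MvPolynomial (Fin N) ℚ), (∀ i, IsQI (q i)) ∧
      IsCompact {z : Fin N → ℝ | ∀ i, 0 ≤ (aeval z (q i) : ℝ)} ∧
      volume {z : Fin N → ℝ | ∀ i, 0 ≤ (aeval z (q i) : ℝ)} = volume S := by
  obtain ⟨m, q, hq, hS'⟩ := hS
  obtain ⟨e⟩ : Nonempty (κ ≃ Fin (Fintype.card κ)) := ⟨Fintype.equivFin κ⟩
  have hset : {z : Fin (Fintype.card κ) → ℝ | ∀ i, 0 ≤ (aeval z (rename e (q i)) : ℝ)} =
      {z : Fin (Fintype.card κ) → ℝ | (fun i => z (e i)) ∈ S} := by
    ext z
    rw [hS']
    refine forall_congr' fun i => ?_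
    rw [aeval_rename]
    rfl
  refine ⟨Fintype.card κ, m, fun i => rename e (q i), fun i => (hq i).ren e.injective, ?_, ?_⟩
  · rw [hset]
    have himg : {z : Fin (Fintype.card κ) → ℝ | (fun i => z (e i)) ∈ S} =
        (fun (b : κ → ℝ) (j : Fin (Fintype.card κ)) => b (e.symm j)) '' S := by
      ext z
      constructor
      · intro hz
        refine ⟨fun i => z (e i), hz, ?_⟩
        funext j
        simp
      · rintro ⟨b, hb, rfl⟩
        change (fun i => b (e.symm (e i))) ∈ S
        simpa using hb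
    rw [himg]
    exact hc.image (continuous_pi fun j => continuous_apply _)
  · rw [hset]
    have hm : MeasurableSet {z : Fin (Fintype.card κ) → ℝ | (fun i => z (e i)) ∈ S} := by
      have h1 : Measurable fun (z : Fin (Fintype.card κ) → ℝ) (i : κ) => z (e i) :=
        measurable_pi_lambda _ fun i => measurable_pi_apply _
      exact h1 hc.isClosed.measurableSet
    rw [← (volume_measurePreserving_piCongrLeft (fun _ : Fin (Fintype.card κ) => ℝ)
      e).measure_preimage hm.nullMeasurableSet]
    congr 1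
    ext b
    change (fun i => (MeasurableEquiv.piCongrLeft (fun _ : Fin (Fintype.card κ) => ℝ) e) b (e i)) ∈
      S ↔ b ∈ S
    have h2 : (fun i => (MeasurableEquiv.piCongrLeft (fun _ : Fin (Fintype.card κ) => ℝ) e) b
        (e i)) = b := by
      funext i
      rw [MeasurableEquiv.coe_piCongrLeft]
      exact Equiv.piCongrLeft_apply_apply (fun _ : Fin (Fintype.card κ) => ℝ) e b i
    rw [h2]

end Pool.Agent.QVol
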