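import Pool.Agent.W_2cf66e_h46.QA

/-!
# Quadratic volumes, part G: integrals of rational polynomials over rational boxes (helper46)
-/

set_option autoImplicit false

noncomputable section

open MeasureTheory MvPolynomial

namespace Pool.Agent.QVol

theorem QG_one (k : ℕ) (l u : ℚ) :
    ∃ q : ℚ, ∫ s in Set.Icc (l : ℝ) (u : ℝ), s ^ k = q := by
  rcases le_or_gt (l : ℝ) (u : ℝ) with h | h
  · refine ⟨(u ^ (k + 1) - l ^ (k + 1)) / (k + 1), ?_⟩
    rw [integral_Icc_eq_integral_Ioc, ← intervalIntegral.integral_of_le h, integral_pow]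
    push_cast
    ring
  · refine ⟨0, ?_⟩
    rw [Set.Icc_eq_empty (not_le.2 h), Measure.restrict_empty, integral_zero_measure,
      Rat.cast_zero]

theorem QG_mem {ι : Type} (l u : ι → ℚ) (y : ι → ℝ) :
    y ∈ rbox l u ↔ ∀ i, y i ∈ Set.Icc (l i : ℝ) (u i : ℝ) := by
  rw [rbox, Set.mem_Icc, Pi.le_def, Pi.le_def]
  exact ⟨fun h i => ⟨h.1 i, h.2 i⟩, fun h => ⟨fun i => (h i).1, fun i => (h i).2⟩⟩

theorem QG_meas {ι : Type} [Fintype ι] (l u : ι → ℚ) : MeasurableSet (rbox l u) :=
  measurableSet_Icc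

theorem QG_prod {ι : Type} [Fintype ι] (d : ι → ℕ) (l u : ι → ℚ) :
    ∃ q : ℚ, ∫ y in rbox l u, ∏ i, y i ^ d i = q := by
  classical
  choose q hq using fun i => QG_one (d i) (l i) (u i)
  refine ⟨∏ i, q i, ?_⟩
  rw [← integral_indicator (QG_meas l u)]
  have h : ∀ y : ι → ℝ, (rbox l u).indicator (fun y => ∏ i, y i ^ d i) y =
      ∏ i, (Set.Icc (l i : ℝ) (u i : ℝ)).indicator (fun s => s ^ d i) (y i) := by
    intro y
    by_cases hy : y ∈ rbox l u
    · rw [Set.indicator_of_mem hy]
      refine Finset.prod_congr rfl fun i _ => ?_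
      rw [Set.indicator_of_mem ((QG_mem l u y).1 hy i)]
    · rw [Set.indicator_of_notMem hy]
      rw [QG_mem] at hy
      push Not at hy
      obtain ⟨i, hi⟩ := hy
      refine (Finset.prod_eq_zero (Finset.mem_univ i) ?_).symm
      rw [Set.indicator_of_notMem hi]
  simp_rw [h]
  rw [integral_fintype_prod_volume_eq_prod
    (fun i => (Set.Icc (l i : ℝ) (u i : ℝ)).indicator (fun s => s ^ d i))]
  push_cast
  refine Finset.prod_congr rfl fun i _ => ?_
  rw [integral_indicator measurableSet_Icc, hq i]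

/-- The integral of a polynomial with rational coefficients over a rational box is rational.
(Sum of monomials; `∏` of one variable integrals `∫_l^u s^k = (u^(k+1) - l^(k+1))/(k+1)`; if
`l i > u i` for some `i` the box is empty. Compare `W_2cf66e_h65/GAvg.lean`.) -/
theorem rat_int {ι : Type} [Fintype ι] (f : MvPolynomial ι ℚ) (l u : ι → ℚ) :
    ∃ q : ℚ, ∫ y in rbox l u, (aeval y f : ℝ) = q := by
  induction f using MvPolynomial.induction_on' with
  | monomial d c =>
    obtain ⟨q, hq⟩ := QG_prod (fun i => d i) l u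
    refine ⟨c * q, ?_⟩
    have h : ∀ y : ι → ℝ, (aeval y (monomial d c) : ℝ) = (c : ℝ) * ∏ i, y i ^ d i := by
      intro y
      rw [aeval_monomial, Finsupp.prod_fintype _ _ (fun i => pow_zero _)]
      rfl
    simp_rw [h]
    rw [integral_const_mul, hq]
    push_cast
    rfl
  | add p q hp hq =>
    obtain ⟨a, ha⟩ := hp
    obtain ⟨b, hb⟩ := hq
    refine ⟨a + b, ?_⟩
    have hi : ∀ p : MvPolynomial ι ℚ, IntegrableOn (fun y : ι → ℝ => (aeval y p : ℝ))
        (rbox l u) := fun p => (cont_aeval p).continuousOn.integrableOn_compact isCompact_Icc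
    simp only [map_add]
    rw [integral_add (hi p) (hi q), ha, hb]
    push_cast
    rfl

/-- The cube is a rational box. -/
theorem box_eq_rbox (ι : Type) [Fintype ι] : box ι = rbox (fun _ => -1) (fun _ => 1) := by
  ext y
  rw [QG_mem]
  show y ∈ Pool.Agent.CVol.box ι ↔ _
  unfold Pool.Agent.CVol.box
  rw [Set.mem_Icc, Pi.le_def, Pi.le_def]
  constructor
  · intro h i
    refine ⟨?_, ?_⟩
    · have := h.1 i
      simpa using this
    · have := h.2 i
      simpa using this
  · intro h
    refine ⟨fun i => ?_, fun i => ?_⟩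
    · have := (h i).1
      simpa using this
    · have := (h i).2
      simpa using this

/-- `∫_C H (p+1)^m` and `∫_C H p^m` are rational. -/
theorem rat_int' {ι : Type} [Fintype ι] (H p : MvPolynomial ι ℚ) (m : ℕ) (l u : ι → ℚ) :
    ∃ q : ℚ, ∫ y in rbox l u, (aeval y H : ℝ) * (aeval y p) ^ m = q := by
  obtain ⟨q, hq⟩ := rat_int (H * p ^ m) l u
  exact ⟨q, by simpa using hq⟩

end Pool.Agent.QVol
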