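import Pool.Agent.W_2cf66e_h46.QE

/-!
# Quadratic volumes, part H: fibres of truncated cones (helper46)
-/

set_option autoImplicit false

noncomputable section

open MeasureTheory MvPolynomial

namespace Pool.Agent.QVol

/-- The volume of the truncated fibre: the formula with `k = 0`, `c = -1` (`pp 0 (b + 1)` is the
indicator of `-1 ≤ b`; `0! / (0+m)! pp_m(p + 1) / G`, and `pp_m(p+1) = (p+1)^m` as `0 ≤ p + 1`). -/
theorem cone_vol {ι κ : Type} [Fintype ι] [Fintype κ] {L : Set (ι ⊕ κ → ℝ)} (hL : QS L)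
    {k₀ : κ} {y : ι → ℝ} {p g : ℝ} {m : ℕ}
    (hform : ∀ (k : ℕ) (c : ℝ), ∫⁻ b in fib L y, ENNReal.ofReal (pp k (b k₀ - c)) =
        ENNReal.ofReal ((k.factorial : ℝ) / (k + m).factorial * pp (k + m) (p - c) / g))
    (hp : 0 ≤ p + 1) :
    volume (fib L y ∩ {b | -1 ≤ b k₀}) =
      ENNReal.ofReal ((p + 1) ^ m / m.factorial / g) := by
  have hB : MeasurableSet {b : κ → ℝ | -1 ≤ b k₀} :=
    measurableSet_le measurable_const (measurable_pi_apply k₀)
  have h := hform 0 (-1)
  have h1 : (fun b : κ → ℝ => ENNReal.ofReal (pp 0 (b k₀ - -1))) =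
      {b : κ → ℝ | -1 ≤ b k₀}.indicator 1 := by
    funext b
    by_cases hb : -1 ≤ b k₀
    · rw [Set.indicator_of_mem (show b ∈ {b : κ → ℝ | -1 ≤ b k₀} from hb), pp,
        if_pos (by linarith), pow_zero, ENNReal.ofReal_one]
      rfl
    · rw [Set.indicator_of_notMem (show b ∉ {b : κ → ℝ | -1 ≤ b k₀} from hb), pp,
        if_neg (fun h2 => hb (by linarith)), ENNReal.ofReal_zero]
  rw [h1, lintegral_indicator_one hB, Measure.restrict_apply hB, Set.inter_comm] at h
  rw [h, zero_add, pp, if_pos (by linarith), sub_neg_eq_add, Nat.factorial_zero, Nat.cast_one]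
  congr 2
  ring

/-- The mean of the positive part: the formula with `k = 1`, `c = 0`; the points with
`b_{k₀} < 0` do not contribute (so neither do those with `b_{k₀} < -1`). -/
theorem cone_mean {ι κ : Type} [Fintype ι] [Fintype κ] {L : Set (ι ⊕ κ → ℝ)} (hL : QS L)
    {k₀ : κ} {y : ι → ℝ} {p g : ℝ} {m : ℕ}
    (hform : ∀ (k : ℕ) (c : ℝ), ∫⁻ b in fib L y, ENNReal.ofReal (pp k (b k₀ - c)) =
        ENNReal.ofReal ((k.factorial : ℝ) / (k + m).factorial * pp (k + m) (p - c) / g)) :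
    ∫⁻ b in fib L y ∩ {b | -1 ≤ b k₀}, ENNReal.ofReal (max (b k₀) 0) =
      ENNReal.ofReal ((max p 0) ^ (m + 1) / (m + 1).factorial / g) := by
  have hB : MeasurableSet {b : κ → ℝ | -1 ≤ b k₀} :=
    measurableSet_le measurable_const (measurable_pi_apply k₀)
  have h := hform 1 0
  have h1 : (fun b : κ → ℝ => ENNReal.ofReal (pp 1 (b k₀ - 0))) =
      {b : κ → ℝ | -1 ≤ b k₀}.indicator (fun b => ENNReal.ofReal (max (b k₀) 0)) := by
    funext b
    by_cases hb0 : 0 ≤ b k₀
    · rw [Set.indicator_of_mem (show b ∈ {b : κ → ℝ | -1 ≤ b k₀} from by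
        change -1 ≤ b k₀; linarith), sub_zero, pp, if_pos hb0, pow_one, max_eq_left hb0]
    · rw [sub_zero, pp, if_neg hb0]
      by_cases hb : -1 ≤ b k₀
      · rw [Set.indicator_of_mem (show b ∈ {b : κ → ℝ | -1 ≤ b k₀} from hb),
          max_eq_right (not_le.mp hb0).le]
      · rw [Set.indicator_of_notMem (show b ∉ {b : κ → ℝ | -1 ≤ b k₀} from hb),
          ENNReal.ofReal_zero]
  rw [h1, lintegral_indicator hB, Measure.restrict_restrict hB, Set.inter_comm] at h
  rw [h]
  have h2 : pp (1 + m) (p - 0) = (max p 0) ^ (m + 1) := by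
    rw [sub_zero, pp]
    split_ifs with hp
    · rw [max_eq_left hp, add_comm]
    · rw [max_eq_right (not_le.mp hp).le, zero_pow (by omega)]
  rw [h2, add_comm 1 m, Nat.factorial_one, Nat.cast_one]
  congr 2
  ring

end Pool.Agent.QVol
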