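import Pool.Agent.W_2cf66e_h46.QD
import Pool.Agent.W_2cf66e_h46.QHa
import Pool.Agent.W_2cf66e_h46.QG

/-!
# Quadratic volumes, part H: the block of a small box (helper46)
-/

set_option autoImplicit false

noncomputable section

open MeasureTheory MvPolynomial

namespace Pool.Agent.QVol

theorem QH_bool (f : Bool → ℝ) : ⨆ a, f a = max (f false) (f true) := by
  apply le_antisymm
  · refine ciSup_le fun a => ?_
    cases a
    · exact le_max_left _ _
    · exact le_max_right _ _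
  · exact max_le (le_ciSup (Set.finite_range f).bddAbove false)
      (le_ciSup (Set.finite_range f).bddAbove true)

theorem QH_prod {κ₁ κ₂ : Type} [Fintype κ₁] [Fintype κ₂] {A : Set (κ₁ → ℝ)} {B : Set (κ₂ → ℝ)}
    (hA : MeasurableSet A) (hB : MeasurableSet B) (g : (κ₂ → ℝ) → ENNReal) (hg : Measurable g) :
    ∫⁻ c in {c : κ₁ ⊕ κ₂ → ℝ | (fun i => c (Sum.inl i)) ∈ A ∧ (fun i => c (Sum.inr i)) ∈ B},
      g (fun i => c (Sum.inr i)) = volume A * ∫⁻ b in B, g b := by
  classical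
  have m1 : Measurable fun c : κ₁ ⊕ κ₂ → ℝ => fun i => c (Sum.inl i) :=
    measurable_pi_lambda _ fun i => measurable_pi_apply _
  have m2 : Measurable fun c : κ₁ ⊕ κ₂ → ℝ => fun i => c (Sum.inr i) :=
    measurable_pi_lambda _ fun i => measurable_pi_apply _
  have hS : MeasurableSet {c : κ₁ ⊕ κ₂ → ℝ | (fun i => c (Sum.inl i)) ∈ A ∧
      (fun i => c (Sum.inr i)) ∈ B} := (m1 hA).inter (m2 hB)
  rw [lint_fib hS (fun c => g (fun i => c (Sum.inr i))) (hg.comp m2)]
  have h : ∀ a : κ₁ → ℝ, ∫⁻ b in fib {c : κ₁ ⊕ κ₂ → ℝ |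
      (fun i => c (Sum.inl i)) ∈ A ∧ (fun i => c (Sum.inr i)) ∈ B} a,
      g (fun i => (Sum.elim a b : κ₁ ⊕ κ₂ → ℝ) (Sum.inr i)) =
      A.indicator (fun _ => ∫⁻ b in B, g b) a := by
    intro a
    by_cases ha : a ∈ A
    · rw [Set.indicator_of_mem ha]
      have : fib {c : κ₁ ⊕ κ₂ → ℝ |
          (fun i => c (Sum.inl i)) ∈ A ∧ (fun i => c (Sum.inr i)) ∈ B} a = B := by
        ext b
        simp [fib, ha]
      rw [this]
      simp
    · rw [Set.indicator_of_notMem ha]
      have : fib {c : κ₁ ⊕ κ₂ → ℝ |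
          (fun i => c (Sum.inl i)) ∈ A ∧ (fun i => c (Sum.inr i)) ∈ B} a = ∅ := by
        ext b
        simp [fib, ha]
      rw [this]
      simp
  rw [show (∫⁻ (y : κ₁ → ℝ), ∫⁻ (b : κ₂ → ℝ) in fib {c : κ₁ ⊕ κ₂ → ℝ |
      (fun i => c (Sum.inl i)) ∈ A ∧ (fun i => c (Sum.inr i)) ∈ B} y,
      g (fun i => (Sum.elim y b : κ₁ ⊕ κ₂ → ℝ) (Sum.inr i))) =
      ∫⁻ y : κ₁ → ℝ, A.indicator (fun _ => ∫⁻ b in B, g b) y from lintegral_congr h]
  rw [lintegral_indicator_const hA, mul_comm]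

theorem QH_vol {ι : Type} [Fintype ι] (l u : ι → ℚ) (h : ∀ i, l i < u i) :
    0 < volume.real (rbox l u) := by
  unfold rbox Measure.real
  rw [Real.volume_Icc_pi_toReal]
  · exact Finset.prod_pos fun i _ => sub_pos.2 (by exact_mod_cast h i)
  · exact fun i => Rat.cast_le.2 (h i).le

theorem QH_int {ι κ₁ κ₂ : Type} [Fintype ι] [Fintype κ₁] [Fintype κ₂]
    {T : Set (ι ⊕ κ₁ → ℝ)} {L : Set (ι ⊕ κ₂ → ℝ)} (hT : QS T) (hL : QS L) (k₀ : κ₂)
    (l u : ι → ℚ) (Z : Set (ι ⊕ (κ₁ ⊕ κ₂) → ℝ))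
    (hZ : Z = {z | (fun i => z (Sum.inl i)) ∈ rbox l u ∧
      (fun i => z (Sum.map id Sum.inl i)) ∈ T ∧ (fun i => z (Sum.map id Sum.inr i)) ∈ L ∧
      -1 ≤ z (Sum.inr (Sum.inr k₀))}) (g : ℝ → ENNReal) (hg : Measurable g) :
    ∫⁻ z in Z, g (z (Sum.inr (Sum.inr k₀))) =
      ∫⁻ y in rbox l u, volume (fib T y) * ∫⁻ b in fib L y ∩ {b | -1 ≤ b k₀}, g (b k₀) := by
  have m0 : Measurable fun z : ι ⊕ (κ₁ ⊕ κ₂) → ℝ => fun i => z (Sum.inl i) :=
    measurable_pi_lambda _ fun i => measurable_pi_apply _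
  have m1 : Measurable fun z : ι ⊕ (κ₁ ⊕ κ₂) → ℝ => fun i : ι ⊕ κ₁ => z (Sum.map id Sum.inl i) :=
    measurable_pi_lambda _ fun i => measurable_pi_apply _
  have m2 : Measurable fun z : ι ⊕ (κ₁ ⊕ κ₂) → ℝ => fun i : ι ⊕ κ₂ => z (Sum.map id Sum.inr i) :=
    measurable_pi_lambda _ fun i => measurable_pi_apply _
  have hZm : MeasurableSet Z := by
    rw [hZ]
    exact (m0 measurableSet_Icc).inter ((m1 hT.meas).inter ((m2 hL.meas).inter
      (measurableSet_le measurable_const (measurable_pi_apply _))))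
  have hmr : MeasurableSet (rbox l u) := measurableSet_Icc
  rw [lint_fib hZm (fun z => g (z (Sum.inr (Sum.inr k₀)))) (hg.comp (measurable_pi_apply _)),
    ← lintegral_indicator hmr]
  refine lintegral_congr fun y => ?_
  by_cases hy : y ∈ rbox l u
  · rw [Set.indicator_of_mem hy]
    have e1 : fib Z y = {c : κ₁ ⊕ κ₂ → ℝ | (fun i => c (Sum.inl i)) ∈ fib T y ∧
        (fun i => c (Sum.inr i)) ∈ fib L y ∩ {b | -1 ≤ b k₀}} := by
      have a1 : ∀ c : κ₁ ⊕ κ₂ → ℝ, (fun i : ι ⊕ κ₁ =>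
          (Sum.elim y c : ι ⊕ (κ₁ ⊕ κ₂) → ℝ) (Sum.map id Sum.inl i)) =
          Sum.elim y (fun i => c (Sum.inl i)) := by
        intro c
        funext i
        rcases i with i | i <;> rfl
      have a2 : ∀ c : κ₁ ⊕ κ₂ → ℝ, (fun i : ι ⊕ κ₂ =>
          (Sum.elim y c : ι ⊕ (κ₁ ⊕ κ₂) → ℝ) (Sum.map id Sum.inr i)) =
          Sum.elim y (fun i => c (Sum.inr i)) := by
        intro c
        funext i
        rcases i with i | i <;> rfl
      ext c
      rw [hZ]
      simp only [fib, Set.mem_setOf_eq, Set.mem_inter_iff, Sum.elim_inl, Sum.elim_inr, a1, a2]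
      tauto
    rw [e1]
    simp only [Sum.elim_inr]
    exact QH_prod (meas_fib hT.meas y) ((meas_fib hL.meas y).inter
      (measurableSet_le measurable_const (measurable_pi_apply _))) (fun b => g (b k₀))
      (hg.comp (measurable_pi_apply _))
  · rw [Set.indicator_of_notMem hy]
    have e1 : fib Z y = ∅ := by
      ext c
      rw [hZ]
      simp only [fib, Set.mem_setOf_eq, Set.mem_empty_iff_false, iff_false, Sum.elim_inl]
      exact fun h => hy h.1
    rw [e1]
    simp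

/-- Local block. `ConeG p m` gives `κ₂, L, k₀, G`; `wt_of_pos (H * G)` gives `κ₁, T, v₀`.
Index type `ι ⊕ (κ₁ ⊕ κ₂)`, `Z = {(y,(a,b)) : y ∈ rbox l u, (y,a) ∈ T, (y,b) ∈ L, -1 ≤ b_{k₀}}`
(`QS.rbox`, `QS.ren`, `QS.inter`), compact: closed and bounded (for `b` use (iii) with `R = 1`).
Fibre over `y` (a product; use `cone_vol`, `cone_mean` of `QHa`): volume `v₀ H G (1/m!) pp_m(p + 1)/G = v₀/m! H (p+1)^m` (formula with
`k = 0`, `c = -1`; `0 < p + 1`, as `|p| ≤ η ≤ 1/2`); the integral of `(b_{k₀})_+` over the fibre is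
`v₀ H G (1/(m+1)!) pp_(m+1)(p)/G` (formula with `k = 1`, `c = 0`; the points with `b_{k₀} < 0` do
not contribute). Let `q = ∫_{rbox} H (p+1)^m`, rational (`rat_int`) and positive. Block with
`v = v₀ q/m!`, functions `0` and `λ X_{k₀}` (index type `Bool`), `λ = (m+1) q`:
`∫_Z max(0, λ b) = λ v₀/(m+1)! x = v x`, and `λ b_{k₀} ≤ λ p ≤ λ η ≤ (m+1) 2^m sup H vol η`. -/
theorem piece {ι : Type} [Fintype ι] (H p : MvPolynomial ι ℚ) (m : ℕ)
    (hH : ∀ y ∈ box ι, 0 < (aeval y H : ℝ)) (hp : ConeG p m) :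
    ∃ Λ : ℝ, 0 ≤ Λ ∧ ∀ (l u : ι → ℚ) (η : ℝ), (∀ i, l i < u i) → rbox l u ⊆ box ι →
      0 < η → η ≤ 1 / 2 → (∀ y ∈ rbox l u, |(aeval y p : ℝ)| ≤ η) →
      Block (∫ y in rbox l u, (aeval y H : ℝ) * (max (aeval y p) 0) ^ (m + 1))
        (Λ * η * volume.real (rbox l u)) := by
  obtain ⟨κ₂, i2, L, k₀, G, hL, hG, hup, hLb, hform⟩ := hp
  obtain ⟨κ₁, i1, T, v₀, hT, hv₀, ⟨AT, hAT⟩, hTv⟩ := wt_of_pos (H * G) (fun y hy => by
    rw [map_mul]
    exact mul_pos (hH y hy) (hG y hy))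
  obtain ⟨AL, hAL⟩ := hLb 1
  obtain ⟨B, hB0, hB⟩ := bdd_box H
  obtain ⟨δ, hδ0, hδ⟩ := pos_box H hH
  refine ⟨((m : ℝ) + 1) * 2 ^ m * B, by positivity, fun l u η hlu hsub hη0 hη hpη => ?_⟩
  set x : ℝ := ∫ y in rbox l u, (aeval y H : ℝ) * (max (aeval y p) 0) ^ (m + 1) with hx
  set V : ℝ := volume.real (rbox l u) with hV
  have hV0 : 0 < V := QH_vol l u hlu
  have hcr : IsCompact (rbox l u) := by
    unfold rbox
    exact isCompact_Icc
  have hmr : MeasurableSet (rbox l u) := measurableSet_Icc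
  have hfin : volume (rbox l u) ≠ ⊤ := hcr.measure_lt_top.ne
  obtain ⟨q, hq⟩ := rat_int' H (p + 1) m l u
  have hqe : ∫ y in rbox l u, (aeval y H : ℝ) * (aeval y p + 1) ^ m = (q : ℝ) := by
    rw [← hq]
    simp
  have cH := cont_aeval H
  have cp := cont_aeval p
  have hint : IntegrableOn (fun y : ι → ℝ => (aeval y H : ℝ) * (aeval y p + 1) ^ m) (rbox l u) :=
    (cH.mul ((cp.add continuous_const).pow m)).continuousOn.integrableOn_compact hcr
  have hintx : IntegrableOn (fun y : ι → ℝ => (aeval y H : ℝ) * (max (aeval y p) 0) ^ (m + 1))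
      (rbox l u) :=
    (cH.mul ((cp.max continuous_const).pow (m + 1))).continuousOn.integrableOn_compact hcr
  have hpl : ∀ y ∈ rbox l u, 1 / 2 ≤ (aeval y p : ℝ) + 1 ∧ (aeval y p : ℝ) + 1 ≤ 2 ∧
      (aeval y p : ℝ) ≤ η := by
    intro y hy
    have h1 := abs_le.1 (hpη y hy)
    exact ⟨by linarith [h1.1], by linarith [h1.2], h1.2⟩
  have hq0 : (0 : ℝ) < q := by
    have h1 : ∫ y in rbox l u, (δ : ℝ) * (1 / 2) ^ m ≤
        ∫ y in rbox l u, (aeval y H : ℝ) * (aeval y p + 1) ^ m := by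
      refine setIntegral_mono_on (integrableOn_const hfin) hint hmr fun y hy => ?_
      have h2 := hδ y (hsub hy)
      have h3 := (hpl y hy).1
      have h4 : (0 : ℝ) < δ := by exact_mod_cast hδ0
      exact mul_le_mul h2 (pow_le_pow_left₀ (by norm_num) h3 m) (by positivity) (h4.le.trans h2)
    rw [setIntegral_const, hqe, smul_eq_mul] at h1
    have h4 : (0 : ℝ) < δ := by exact_mod_cast hδ0
    have h5 : 0 < V * ((δ : ℝ) * (1 / 2) ^ m) := by positivity
    exact h5.trans_le h1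
  have hqB : (q : ℝ) ≤ B * 2 ^ m * V := by
    rw [← hqe]
    have h1 := norm_setIntegral_le_of_norm_le_const (μ := volume) (s := rbox l u)
      (f := fun y : ι → ℝ => (aeval y H : ℝ) * (aeval y p + 1) ^ m) (C := B * 2 ^ m)
      hcr.measure_lt_top (fun y hy => by
        have h2 := hB y (hsub hy)
        have h3 := hpl y hy
        rw [norm_mul, norm_pow, Real.norm_eq_abs, Real.norm_eq_abs,
          abs_of_nonneg (by linarith [h3.1] : (0 : ℝ) ≤ aeval y p + 1)]
        have h4 : (0 : ℝ) ≤ aeval y p + 1 := by linarith [h3.1]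
        have h5 := h3.2.1
        exact mul_le_mul h2 (pow_le_pow_left₀ h4 h5 m) (pow_nonneg h4 m) hB0)
    exact (le_abs_self _).trans h1
  -- the set
  set Z : Set (ι ⊕ (κ₁ ⊕ κ₂) → ℝ) := {z | (fun i => z (Sum.inl i)) ∈ rbox l u ∧
      (fun i => z (Sum.map id Sum.inl i)) ∈ T ∧ (fun i => z (Sum.map id Sum.inr i)) ∈ L ∧
      -1 ≤ z (Sum.inr (Sum.inr k₀))} with hZ
  have hZQ : QS Z := by
    have q1 := (QS.rbox l u).ren (f := (Sum.inl : ι → ι ⊕ (κ₁ ⊕ κ₂))) Sum.inl_injective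
    have q2 := hT.ren (f := (Sum.map id Sum.inl : ι ⊕ κ₁ → ι ⊕ (κ₁ ⊕ κ₂)))
      (Function.Injective.sumMap Function.injective_id Sum.inl_injective)
    have q3 := hL.ren (f := (Sum.map id Sum.inr : ι ⊕ κ₂ → ι ⊕ (κ₁ ⊕ κ₂)))
      (Function.Injective.sumMap Function.injective_id Sum.inr_injective)
    have q4 : QS {z : ι ⊕ (κ₁ ⊕ κ₂) → ℝ | 0 ≤ (aeval z (X (Sum.inr (Sum.inr k₀)) + C 1 :
        MvPolynomial (ι ⊕ (κ₁ ⊕ κ₂)) ℚ) : ℝ)} := by
      refine QS.of_qi (IsQI.of_aff ?_)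
      refine (totalDegree_add _ _).trans ?_
      rw [totalDegree_X, totalDegree_C]
      simp
    have q5 := q1.inter (q2.inter (q3.inter q4))
    convert q5 using 1
    ext z
    simp only [hZ, Set.mem_setOf_eq, Set.mem_inter_iff, map_add, aeval_X, map_one]
    constructor
    · rintro ⟨h1, h2, h3, h4⟩
      exact ⟨h1, h2, h3, by linarith⟩
    · rintro ⟨h1, h2, h3, h4⟩
      exact ⟨h1, h2, h3, by linarith⟩
  have hb : ∀ z ∈ Z, (fun i => z (Sum.inl i)) ∈ rbox l u ∧
      (fun i => z (Sum.inr (Sum.inl i))) ∈ fib T (fun i => z (Sum.inl i)) ∧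
      (fun i => z (Sum.inr (Sum.inr i))) ∈ fib L (fun i => z (Sum.inl i)) ∧
      -1 ≤ z (Sum.inr (Sum.inr k₀)) := by
    rintro z ⟨h1, h2, h3, h4⟩
    refine ⟨h1, ?_, ?_, h4⟩
    · have : (Sum.elim (fun i => z (Sum.inl i)) (fun i => z (Sum.inr (Sum.inl i))) :
          ι ⊕ κ₁ → ℝ) = fun i => z (Sum.map id Sum.inl i) := by
        funext i
        rcases i with i | i <;> rfl
      show _ ∈ T
      rw [this]
      exact h2
    · have : (Sum.elim (fun i => z (Sum.inl i)) (fun i => z (Sum.inr (Sum.inr i))) :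
          ι ⊕ κ₂ → ℝ) = fun i => z (Sum.map id Sum.inr i) := by
        funext i
        rcases i with i | i <;> rfl
      show _ ∈ L
      rw [this]
      exact h3
  have hZc : IsCompact Z := by
    have h1 : Z ⊆ Set.Icc (fun _ => -(max 1 (max AT AL))) (fun _ => max 1 (max AT AL)) := by
      intro z hz
      obtain ⟨h1, h2, h3, h4⟩ := hb z hz
      have key : ∀ i, |z i| ≤ max 1 (max AT AL) := by
        rintro (i | i | i)
        · exact (mem_box_abs (hsub h1) i).trans (le_max_left _ _)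
        · exact ((hAT _ (hsub h1) _ h2 i).trans (le_max_left _ _)).trans (le_max_right _ _)
        · exact ((hAL _ (hsub h1) _ h3 h4 i).trans (le_max_right _ _)).trans (le_max_right _ _)
      exact ⟨fun i => (abs_le.1 (key i)).1, fun i => (abs_le.1 (key i)).2⟩
    exact isCompact_Icc.of_isClosed_subset hZQ.closed h1
  -- integrals
  have hI := fun g hg => QH_int hT hL k₀ l u Z hZ g hg
  have hmf : (0 : ℝ) < m.factorial := by exact_mod_cast m.factorial_pos
  have hmf1 : (0 : ℝ) < (m + 1).factorial := by exact_mod_cast (m + 1).factorial_pos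
  have hv₀' : (0 : ℝ) < v₀ := by exact_mod_cast hv₀
  have hvol : volume Z = ENNReal.ofReal ((v₀ : ℝ) / m.factorial * q) := by
    have h1 := hI (fun _ => 1) measurable_const
    rw [setLIntegral_one] at h1
    rw [h1, ← hqe, ← integral_const_mul, ofReal_integral_eq_lintegral_ofReal]
    · refine setLIntegral_congr_fun hmr fun y hy => ?_
      have hy' := hsub hy
      have hGy := hG y hy'
      have hpy := (hpl y hy).1
      rw [hTv y hy', setLIntegral_one, cone_vol hL (hform y hy') (by linarith),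
        ← ENNReal.ofReal_mul (by rw [map_mul]; have := hH y hy'; positivity), map_mul]
      congr 1
      field_simp
    · exact hint.const_mul _
    · refine (ae_restrict_mem hmr).mono fun y hy => ?_
      have hy' := hsub hy
      have hHy := hH y hy'
      have hpy := (hpl y hy).1
      have : (0 : ℝ) ≤ aeval y p + 1 := by linarith
      positivity
  have hmean : ∫⁻ z in Z, ENNReal.ofReal (max (z (Sum.inr (Sum.inr k₀))) 0) =
      ENNReal.ofReal ((v₀ : ℝ) / (m + 1).factorial * x) := by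
    have h1 := hI (fun t => ENNReal.ofReal (max t 0))
      (ENNReal.measurable_ofReal.comp (measurable_id.max measurable_const))
    rw [h1, hx, ← integral_const_mul, ofReal_integral_eq_lintegral_ofReal]
    · refine setLIntegral_congr_fun hmr fun y hy => ?_
      have hy' := hsub hy
      have hGy := hG y hy'
      rw [hTv y hy', cone_mean hL (hform y hy'),
        ← ENNReal.ofReal_mul (by rw [map_mul]; have := hH y hy'; positivity), map_mul]
      congr 1
      field_simp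
    · exact hintx.const_mul _
    · refine (ae_restrict_mem hmr).mono fun y hy => ?_
      have hHy := hH y (hsub hy)
      positivity
  have hx0 : 0 ≤ x := setIntegral_nonneg hmr fun y hy =>
    mul_nonneg (hH y (hsub hy)).le (pow_nonneg (le_max_right _ _) _)
  have hmean' : ∫ z in Z, max (z (Sum.inr (Sum.inr k₀))) 0 = (v₀ : ℝ) / (m + 1).factorial * x := by
    rw [integral_eq_lintegral_of_nonneg_ae]
    · rw [hmean, ENNReal.toReal_ofReal (by positivity)]
    · exact Filter.Eventually.of_forall fun z => le_max_right _ _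
    · exact ((measurable_pi_apply _).max measurable_const).aestronglyMeasurable
  refine ⟨ι ⊕ (κ₁ ⊕ κ₂), inferInstance, Z, Bool, inferInstance, inferInstance,
    fun b => if b then C (((m : ℚ) + 1) * q) * X (Sum.inr (Sum.inr k₀)) else 0,
    v₀ / m.factorial * q, hZQ, hZc, ?_, ?_, ?_, ?_, ?_⟩
  · intro a
    cases a
    · simp
    · simp only [if_true]
      refine (totalDegree_mul _ _).trans ?_
      rw [totalDegree_C, totalDegree_X]
  · have : (0 : ℚ) < q := by exact_mod_cast hq0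
    positivity
  · rw [hvol]
    push_cast
    rfl
  · have e1 : ∀ z : ι ⊕ (κ₁ ⊕ κ₂) → ℝ, (⨆ a : Bool, (aeval z (if a then
        C (((m : ℚ) + 1) * q) * X (Sum.inr (Sum.inr k₀)) else 0 :
        MvPolynomial (ι ⊕ (κ₁ ⊕ κ₂)) ℚ) : ℝ)) =
        (((m : ℝ) + 1) * q) * max (z (Sum.inr (Sum.inr k₀))) 0 := by
      intro z
      rw [QH_bool]
      simp only [if_true, Bool.false_eq_true, if_false, map_zero, map_mul, aeval_C, aeval_X,
        eq_ratCast]
      push_cast
      rw [max_comm, mul_max_of_nonneg _ _ (by positivity : (0 : ℝ) ≤ ((m : ℝ) + 1) * q),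
        mul_zero]
    rw [integral_congr_ae (Filter.Eventually.of_forall e1), integral_const_mul, hmean']
    push_cast [Nat.factorial_succ]
    field_simp
  · intro z hz a
    obtain ⟨h1, h2, h3, h4⟩ := hb z hz
    have h5 := hup _ (hsub h1) _ h3
    have h6 := (hpl _ h1).2.2
    cases a
    · simp only [Bool.false_eq_true, if_false, map_zero]
      positivity
    · simp only [if_true, map_mul, aeval_C, aeval_X, eq_ratCast]
      push_cast
      calc ((m : ℝ) + 1) * q * z (Sum.inr (Sum.inr k₀)) ≤ ((m : ℝ) + 1) * q * η := by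
            have : z (Sum.inr (Sum.inr k₀)) ≤ η := h5.trans h6
            gcongr
        _ ≤ ((m : ℝ) + 1) * (B * 2 ^ m * V) * η := by gcongr
        _ = ((m : ℝ) + 1) * 2 ^ m * B * η * V := by ring

end Pool.Agent.QVol
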