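import Pool.Agent.W_2cf66e_h46.QG

/-!
# Quadratic volumes, part I: subdivision of the cube (helper46)
-/

set_option autoImplicit false

noncomputable section

open MeasureTheory MvPolynomial

namespace Pool.Agent.QVol

/-- The conclusion of the subdivision for a half open box. -/
def QI_good {ι : Type} [Fintype ι] (H p : MvPolynomial ι ℚ) (K : ℕ) (η : ℝ)
    (J : BoxIntegral.Box ι) : Prop :=
  ∃ (σ : Type) (_ : Fintype σ) (l u : σ → ι → ℚ) (c : ℚ), (∀ i j, l i j < u i j) ∧
    (∀ i, rbox (l i) (u i) ⊆ BoxIntegral.Box.Icc J) ∧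
    (∀ i, ∀ y ∈ rbox (l i) (u i), |(aeval y p : ℝ)| ≤ η) ∧
    ∑ i, volume.real (rbox (l i) (u i)) ≤ volume.real (J : Set (ι → ℝ)) ∧
    ∫ y in (J : Set (ι → ℝ)), (aeval y H : ℝ) * (max (aeval y p) 0) ^ K =
      c + ∑ i, ∫ y in rbox (l i) (u i), (aeval y H : ℝ) * (max (aeval y p) 0) ^ K

theorem QI_cont {ι : Type} (p : MvPolynomial ι ℚ) : Continuous fun y : ι → ℝ => (aeval y p : ℝ) := by
  have h : (fun y : ι → ℝ => (aeval y p : ℝ))
      = fun y => MvPolynomial.eval y (MvPolynomial.map (algebraMap ℚ ℝ) p) := by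
    funext y
    rw [MvPolynomial.eval_map, MvPolynomial.aeval_def]
  rw [h]
  exact MvPolynomial.continuous_eval _

theorem QI_contF {ι : Type} (H p : MvPolynomial ι ℚ) (K : ℕ) :
    Continuous fun y : ι → ℝ => (aeval y H : ℝ) * (max (aeval y p) 0) ^ K :=
  (QI_cont H).mul (((QI_cont p).max continuous_const).pow K)

theorem QI_int {ι : Type} [Fintype ι] (H p : MvPolynomial ι ℚ) (K : ℕ) (J : BoxIntegral.Box ι) :
    IntegrableOn (fun y : ι → ℝ => (aeval y H : ℝ) * (max (aeval y p) 0) ^ K)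
      (J : Set (ι → ℝ)) := by
  have h : IntegrableOn (fun y : ι → ℝ => (aeval y H : ℝ) * (max (aeval y p) 0) ^ K)
      (BoxIntegral.Box.Icc J) :=
    (QI_contF H p K).continuousOn.integrableOn_compact (BoxIntegral.Box.isCompact_Icc J)
  exact h.mono_set BoxIntegral.Box.coe_subset_Icc

theorem QI_fin {ι : Type} [Fintype ι] (J : BoxIntegral.Box ι) :
    volume (J : Set (ι → ℝ)) ≠ ⊤ := by
  have h1 : volume (J : Set (ι → ℝ)) ≤ volume (BoxIntegral.Box.Icc J) :=
    measure_mono BoxIntegral.Box.coe_subset_Icc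
  have h2 : volume (BoxIntegral.Box.Icc J) < ⊤ := (BoxIntegral.Box.isCompact_Icc J).measure_lt_top
  exact (lt_of_le_of_lt h1 h2).ne

/-- The additivity. -/
theorem QI_add {ι : Type} [Fintype ι] (H p : MvPolynomial ι ℚ) (K : ℕ) (η : ℝ)
    (J : BoxIntegral.Box ι) (h : ∀ s, QI_good H p K η (J.splitCenterBox s)) :
    QI_good H p K η J := by
  classical
  choose σ hσ l u c h1 h2 h3 h4 h5 using h
  have hdis : Pairwise (Function.onFun Disjoint
      fun s => ((J.splitCenterBox s : BoxIntegral.Box ι) : Set (ι → ℝ))) :=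
    fun s t hst => BoxIntegral.Box.disjoint_splitCenterBox J hst
  have hmeas : ∀ s, MeasurableSet ((J.splitCenterBox s : BoxIntegral.Box ι) : Set (ι → ℝ)) :=
    fun s => BoxIntegral.Box.measurableSet_coe _
  refine ⟨Σ s : Set ι, σ s, inferInstance, fun a => l a.1 a.2, fun a => u a.1 a.2,
    ∑ s, c s, fun a j => h1 a.1 a.2 j, fun a => ?_, fun a => h3 a.1 a.2, ?_, ?_⟩
  · exact (h2 a.1 a.2).trans
      (BoxIntegral.Box.Icc.monotone (BoxIntegral.Box.splitCenterBox_le J a.1))
  · rw [Fintype.sum_sigma, ← BoxIntegral.Box.iUnion_coe_splitCenterBox J,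
      measureReal_iUnion_fintype hdis hmeas (fun s => QI_fin _)]
    exact Finset.sum_le_sum fun s _ => h4 s
  · rw [Fintype.sum_sigma, ← BoxIntegral.Box.iUnion_coe_splitCenterBox J,
      integral_iUnion_fintype hmeas hdis (fun s => QI_int H p K _), Rat.cast_sum,
      ← Finset.sum_add_distrib]
    exact Finset.sum_congr rfl fun s _ => h5 s

/-- The small boxes. -/
theorem QI_small {ι : Type} [Fintype ι] (H p : MvPolynomial ι ℚ) (K : ℕ) (hK : 1 ≤ K) (η : ℝ)
    (J : BoxIntegral.Box ι) (l u : ι → ℚ) (hl : J.lower = fun i => (l i : ℝ))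
    (hu : J.upper = fun i => (u i : ℝ)) (r : ℝ)
    (hr : ∀ y ∈ BoxIntegral.Box.Icc J, |(aeval y p : ℝ) - r| < η / 2) :
    QI_good H p K η J := by
  have hbox : rbox l u = BoxIntegral.Box.Icc J := by
    unfold rbox
    rw [← hl, ← hu]
    rfl
  have hcoe : ∫ y in (J : Set (ι → ℝ)), (aeval y H : ℝ) * (max (aeval y p) 0) ^ K
      = ∫ y in rbox l u, (aeval y H : ℝ) * (max (aeval y p) 0) ^ K := by
    rw [hbox]
    exact setIntegral_congr_set (BoxIntegral.Box.coe_ae_eq_Icc J)
  have hlu : ∀ j, l j < u j := by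
    intro j
    have h := J.lower_lt_upper j
    rw [hl, hu] at h
    beta_reduce at h
    exact_mod_cast h
  by_cases hpos : ∀ y ∈ BoxIntegral.Box.Icc J, 0 < (aeval y p : ℝ)
  · obtain ⟨q, hq⟩ := rat_int' H p K l u
    refine ⟨Empty, inferInstance, fun a => a.elim, fun a => a.elim, q, fun a => a.elim,
      fun a => a.elim, fun a => a.elim, ?_, ?_⟩
    · simp
    · rw [hcoe, Finset.univ_eq_empty, Finset.sum_empty, add_zero, ← hq]
      refine setIntegral_congr_fun measurableSet_Icc fun y hy => ?_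
      have hy' : y ∈ BoxIntegral.Box.Icc J := hbox ▸ hy
      rw [max_eq_left (hpos y hy').le]
  by_cases hneg : ∀ y ∈ BoxIntegral.Box.Icc J, (aeval y p : ℝ) ≤ 0
  · refine ⟨Empty, inferInstance, fun a => a.elim, fun a => a.elim, 0, fun a => a.elim,
      fun a => a.elim, fun a => a.elim, ?_, ?_⟩
    · simp
    · rw [hcoe, Finset.univ_eq_empty, Finset.sum_empty, Rat.cast_zero, add_zero]
      have h0 : ∀ y ∈ rbox l u, (aeval y H : ℝ) * (max (aeval y p) 0) ^ K = 0 := by
        intro y hy
        have hy' : y ∈ BoxIntegral.Box.Icc J := hbox ▸ hy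
        rw [max_eq_right (hneg y hy'), zero_pow (by omega), mul_zero]
      exact setIntegral_eq_zero_of_forall_eq_zero h0
  · push Not at hpos hneg
    obtain ⟨y0, hy0, hp0⟩ := hpos
    obtain ⟨y1, hy1, hp1⟩ := hneg
    refine ⟨Unit, inferInstance, fun _ => l, fun _ => u, 0, fun _ => hlu,
      fun _ => hbox.le, fun _ y hy => ?_, ?_, ?_⟩
    · have hy' : y ∈ BoxIntegral.Box.Icc J := hbox ▸ hy
      have e0 := abs_lt.1 (hr y hy')
      have e1 := abs_lt.1 (hr y0 hy0)
      have e2 := abs_lt.1 (hr y1 hy1)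
      rw [abs_le]
      constructor
      · linarith [e0.1, e2.2]
      · linarith [e0.2, e1.1]
    · rw [Finset.univ_unique, Finset.sum_singleton, hbox]
      exact (measureReal_congr (BoxIntegral.Box.coe_ae_eq_Icc J)).symm.le
    · rw [hcoe, Finset.univ_unique, Finset.sum_singleton, Rat.cast_zero, zero_add]

/-- Subdivision. Either by the grid of the `N^n` boxes of side `2/N` (overlaps are null sets:
use half open boxes), or by `BoxIntegral.Box.subbox_induction_on'` (half open boxes
`∏ (l_i, u_i]`, bisection; the statement for a box `J` with rational ends: the conclusion with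
`box ι` replaced by `J`, the `rbox (l i) (u i) ⊆ Box.Icc J`, and `∑ volume ≤ volume J`; it is
additive, and for a small box `J`: `p > 0` on `J` (the integral is rational, `rat_int'`), or
`p ≤ 0` on `J` (the integral is `0`), or `p` takes both signs and `|p| ≤ η` on the closed box by
uniform continuity). `Box.Icc J` and `J` differ by a null set. -/
theorem subdiv {ι : Type} [Fintype ι] (H p : MvPolynomial ι ℚ) (K : ℕ) (hK : 1 ≤ K) (η : ℝ)
    (hη : 0 < η) :
    ∃ (s : ℕ) (l u : Fin s → ι → ℚ) (c : ℚ), (∀ i j, l i j < u i j) ∧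
      (∀ i, rbox (l i) (u i) ⊆ box ι) ∧
      (∀ i, ∀ y ∈ rbox (l i) (u i), |(aeval y p : ℝ)| ≤ η) ∧
      ∑ i, volume.real (rbox (l i) (u i)) ≤ 2 ^ (Fintype.card ι) ∧
      ∫ y in box ι, (aeval y H : ℝ) * (max (aeval y p) 0) ^ K =
        c + ∑ i, ∫ y in rbox (l i) (u i), (aeval y H : ℝ) * (max (aeval y p) 0) ^ K := by
  classical
  set I : BoxIntegral.Box ι := ⟨fun _ => -1, fun _ => 1, fun _ => by norm_num⟩ with hI
  have hIbox : BoxIntegral.Box.Icc I = box ι := rfl
  have key : (∃ l u : ι → ℚ, I.lower = (fun i => (l i : ℝ)) ∧ I.upper = fun i => (u i : ℝ)) →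
      QI_good H p K η I := by
    refine BoxIntegral.Box.subbox_induction_on'
      (p := fun J => (∃ l u : ι → ℚ, J.lower = (fun i => (l i : ℝ)) ∧
        J.upper = fun i => (u i : ℝ)) → QI_good H p K η J) I ?_ ?_
    · rintro J - hJ ⟨l, u, hl, hu⟩
      refine QI_add H p K η J fun s => hJ s ⟨fun i => if i ∈ s then (l i + u i) / 2 else l i,
        fun i => if i ∈ s then u i else (l i + u i) / 2, ?_, ?_⟩
      · funext i
        simp only [BoxIntegral.Box.splitCenterBox, Set.piecewise]
        split_ifs with h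
        · rw [hl, hu]
          push_cast
          ring
        · rw [hl]
      · funext i
        simp only [BoxIntegral.Box.splitCenterBox, Set.piecewise]
        split_ifs with h
        · rw [hu]
        · rw [hl, hu]
          push_cast
          ring
    · intro z hz
      refine ⟨{y | |(aeval y p : ℝ) - aeval z p| < η / 2}, ?_, ?_⟩
      · refine mem_nhdsWithin_of_mem_nhds ?_
        refine (isOpen_lt ((QI_cont p).sub continuous_const).abs continuous_const).mem_nhds ?_
        simp [hη]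
      · rintro J - m hzJ hJU - ⟨l, u, hl, hu⟩
        exact QI_small H p K hK η J l u hl hu (aeval z p) fun y hy => hJU hy
  obtain ⟨σ, hσ, l, u, c, h1, h2, h3, h4, h5⟩ := key
    ⟨fun _ => -1, fun _ => 1, by simp [hI], by simp [hI]⟩
  refine ⟨Fintype.card σ, fun i => l ((Fintype.equivFin σ).symm i),
    fun i => u ((Fintype.equivFin σ).symm i), c, fun i j => h1 _ j, fun i => hIbox ▸ h2 _,
    fun i => h3 _, ?_, ?_⟩
  · have e1 := (Fintype.equivFin σ).symm.sum_comp (fun a => volume.real (rbox (l a) (u a)))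
    rw [e1]
    refine h4.trans (le_of_eq ?_)
    rw [measureReal_congr (BoxIntegral.Box.coe_ae_eq_Icc I)]
    have e2 : (BoxIntegral.Box.Icc I) = Set.Icc (fun _ : ι => (-1 : ℝ)) (fun _ => (1 : ℝ)) := rfl
    rw [e2, measureReal_def, Real.volume_Icc_pi_toReal (fun _ => by norm_num)]
    simp
    norm_num
  · have e1 := (Fintype.equivFin σ).symm.sum_comp
      (fun a => ∫ y in rbox (l a) (u a), (aeval y H : ℝ) * (max (aeval y p) 0) ^ K)
    rw [e1, ← h5, ← hIbox]
    exact (setIntegral_congr_set (BoxIntegral.Box.coe_ae_eq_Icc I)).symm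

end Pool.Agent.QVol
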