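import Pool.Agent.W_2cf66e_h46.Defs
import Pool.Agent.W_2cf66e_h65.HSmooth
import Pool.Agent.W_2cf66e_h65.HCell

/-!
# Quadratic volumes, part J: sums of `Apow` numbers (helper46)
-/

set_option autoImplicit false

noncomputable section

open MeasureTheory MvPolynomial

namespace Pool.Agent.QVol

theorem apow_zero : Apow 0 := by
  refine ⟨Fin 0, inferInstance, 0, fun j => j.elim0, fun e _ => ⟨fun j => j.elim0, ?_⟩⟩
  simp

theorem QJ_cont {ι : Type} (p : MvPolynomial ι ℚ) :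
    Continuous fun z : ι → ℝ => (aeval z p : ℝ) := by
  have h := MvPolynomial.continuous_eval (Pool.Agent.CVol.re p)
  simpa only [Pool.Agent.CVol.eval_re] using h

theorem QJ_inl {ι κ : Type} [Fintype ι] [Fintype κ] (g : (ι → ℝ) → ℝ) (hg : Continuous g) :
    ∫ z in box (ι ⊕ κ), (((1 / 2 : ℚ) ^ (Fintype.card κ) : ℚ) : ℝ) *
      g (fun i => z (Sum.inl i)) = ∫ y in box ι, g y := by
  have hc : Continuous (fun z : ι ⊕ κ → ℝ => (((1 / 2 : ℚ) ^ (Fintype.card κ) : ℚ) : ℝ) *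
      g (fun i => z (Sum.inl i))) :=
    continuous_const.mul (hg.comp (continuous_pi fun i => continuous_apply _))
  unfold box
  rw [Pool.Agent.CVol.int_box_sum _ hc]
  have e1 : ∀ y : ι → ℝ, ∫ u in Pool.Agent.CVol.box κ,
      (((1 / 2 : ℚ) ^ (Fintype.card κ) : ℚ) : ℝ) *
        g (fun i => (Sum.elim y u : ι ⊕ κ → ℝ) (Sum.inl i)) = g y := by
    intro y
    change ∫ u in Pool.Agent.CVol.box κ, (((1 / 2 : ℚ) ^ (Fintype.card κ) : ℚ) : ℝ) * g y = g y
    rw [setIntegral_const, Pool.Agent.CVol.HSmooth_vol, smul_eq_mul, ← mul_assoc,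
      mul_comm (2 ^ _), Pool.Agent.CVol.HSmooth_half, one_mul]
  simp only [e1]

theorem QJ_inr {ι κ : Type} [Fintype ι] [Fintype κ] (f : (κ → ℝ) → ℝ) (hf : Continuous f) :
    ∫ z in box (ι ⊕ κ), (((1 / 2 : ℚ) ^ (Fintype.card ι) : ℚ) : ℝ) *
      f (fun i => z (Sum.inr i)) = ∫ y in box κ, f y := by
  have hc : Continuous (fun z : ι ⊕ κ → ℝ => (((1 / 2 : ℚ) ^ (Fintype.card ι) : ℚ) : ℝ) *
      f (fun i => z (Sum.inr i))) :=
    continuous_const.mul (hf.comp (continuous_pi fun i => continuous_apply _))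
  unfold box
  rw [Pool.Agent.CVol.int_box_sum _ hc]
  have e1 : ∀ y' : ι → ℝ, ∫ u in Pool.Agent.CVol.box κ,
      (((1 / 2 : ℚ) ^ (Fintype.card ι) : ℚ) : ℝ) *
        f (fun i => (Sum.elim y' u : ι ⊕ κ → ℝ) (Sum.inr i)) =
      (((1 / 2 : ℚ) ^ (Fintype.card ι) : ℚ) : ℝ) * ∫ u in Pool.Agent.CVol.box κ, f u := by
    intro y'
    change ∫ u in Pool.Agent.CVol.box κ, (((1 / 2 : ℚ) ^ (Fintype.card ι) : ℚ) : ℝ) * f u = _
    rw [integral_const_mul]
  simp only [e1]
  rw [setIntegral_const, Pool.Agent.CVol.HSmooth_vol, smul_eq_mul, ← mul_assoc,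
    mul_comm (2 ^ _), Pool.Agent.CVol.HSmooth_half, one_mul]

/-- Sums: index type `ι ⊕ κ`, polynomials `rename inl (P j)`, `rename inr (P' j)`,
factors `2^(-card κ)`, `2^(-card ι)` in `H`. Compare `Smooth.add` in
`W_2cf66e_h65/HSmooth.lean`. -/
theorem Apow.add {x y : ℝ} (hx : Apow x) (hy : Apow y) : Apow (x + y) := by
  obtain ⟨ι, _, J, P, hP⟩ := hx
  obtain ⟨κ, _, J', P', hP'⟩ := hy
  refine ⟨ι ⊕ κ, inferInstance, J + J', Fin.addCases (fun j => rename Sum.inl (P j))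
    (fun j => rename Sum.inr (P' j)), fun e he => ?_⟩
  obtain ⟨H, hH⟩ := hP e he
  obtain ⟨H', hH'⟩ := hP' e he
  refine ⟨Fin.addCases (fun j => C ((1 / 2 : ℚ) ^ (Fintype.card κ)) * rename Sum.inl (H j))
    (fun j => C ((1 / 2 : ℚ) ^ (Fintype.card ι)) * rename Sum.inr (H' j)), ?_⟩
  rw [Fin.sum_univ_add, hH, hH']
  simp only [Fin.addCases_left, Fin.addCases_right]
  congr 1
  · refine Finset.sum_congr rfl fun j _ => ?_
    rw [← QJ_inl (κ := κ) (fun y : ι → ℝ => aeval y (H j) * (max (aeval y (P j)) 0) ^ (2 * e))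
      ((QJ_cont (H j)).mul (((QJ_cont (P j)).max continuous_const).pow _))]
    refine integral_congr_ae (Filter.Eventually.of_forall fun z => ?_)
    simp only [map_mul, aeval_C, aeval_rename, eq_ratCast]
    rw [mul_assoc]
    rfl
  · refine Finset.sum_congr rfl fun j _ => ?_
    rw [← QJ_inr (ι := ι) (fun y : κ → ℝ => aeval y (H' j) * (max (aeval y (P' j)) 0) ^ (2 * e))
      ((QJ_cont (H' j)).mul (((QJ_cont (P' j)).max continuous_const).pow _))]
    refine integral_congr_ae (Filter.Eventually.of_forall fun z => ?_)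
    simp only [map_mul, aeval_C, aeval_rename, eq_ratCast]
    rw [mul_assoc]
    rfl

theorem Apow.sum {α : Type} (T : Finset α) (x : α → ℝ) (h : ∀ a ∈ T, Apow (x a)) :
    Apow (∑ a ∈ T, x a) := by
  classical
  induction T using Finset.induction_on with
  | empty =>
    rw [Finset.sum_empty]
    exact apow_zero
  | insert a s ha ih =>
    rw [Finset.sum_insert ha]
    exact (h a (Finset.mem_insert_self a s)).add
      (ih fun b hb => h b (Finset.mem_insert_of_mem hb))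

end Pool.Agent.QVol
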