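import Pool.Agent.W_2cf66e_h46.Defs

/-!
# Quadratic volumes, part J: one variable integral, signs (helper46)
-/

set_option autoImplicit false

noncomputable section

open MeasureTheory MvPolynomial

namespace Pool.Agent.QVol

/-- `∫_{-1}^{1} (k+1)/2 (A - (1+τ)/2 D)_+^k dτ = A^(k+1)/D` for `0 ≤ A ≤ D`, `0 < D`, `k ≥ 1`.
(The integrand is continuous; it vanishes for `(1+τ)/2 ≥ A/D`; primitive
`-(A - (1+τ)/2 D)_+^(k+1)/D`.) -/
theorem tau_int (k : ℕ) (hk : 1 ≤ k) (A D : ℝ) (hA : 0 ≤ A) (hD : 0 < D) (hAD : A ≤ D) :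
    ∫ τ in Set.Icc (-1 : ℝ) 1, ((k : ℝ) + 1) / 2 * (max (A - (1 + τ) / 2 * D) 0) ^ k =
      A ^ (k + 1) / D := by
  have hc : Continuous fun x : ℝ => (max x 0) ^ k := by fun_prop
  have h1 : ∀ a b : ℝ, IntervalIntegrable (fun x : ℝ => (max x 0) ^ k) volume a b :=
    fun a b => hc.intervalIntegrable a b
  rw [integral_Icc_eq_integral_Ioc, ← intervalIntegral.integral_of_le (by norm_num : (-1 : ℝ) ≤ 1),
    intervalIntegral.integral_const_mul]
  have e1 : (fun τ : ℝ => (max (A - (1 + τ) / 2 * D) 0) ^ k) =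
      fun τ : ℝ => (fun x : ℝ => (max x 0) ^ k) ((A - D / 2) - (D / 2) * τ) := by
    funext τ
    show (max (A - (1 + τ) / 2 * D) 0) ^ k = (max ((A - D / 2) - (D / 2) * τ) 0) ^ k
    congr 2
    ring
  rw [e1, intervalIntegral.integral_comp_sub_mul (fun x : ℝ => (max x 0) ^ k) (half_pos hD).ne',
    show (A - D / 2) - D / 2 * 1 = A - D by ring, show (A - D / 2) - D / 2 * (-1) = A by ring,
    ← intervalIntegral.integral_add_adjacent_intervals (h1 (A - D) 0) (h1 0 A)]
  have e2 : ∫ x in (A - D)..0, (max x 0) ^ k = 0 := by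
    rw [intervalIntegral.integral_of_le (by linarith : A - D ≤ 0)]
    refine setIntegral_eq_zero_of_forall_eq_zero fun x hx => ?_
    rw [max_eq_right hx.2, zero_pow (by omega)]
  have e3 : ∫ x in (0 : ℝ)..A, (max x 0) ^ k = A ^ (k + 1) / (k + 1) := by
    have e4 : ∫ x in (0 : ℝ)..A, (max x 0) ^ k = ∫ x in (0 : ℝ)..A, x ^ k := by
      refine intervalIntegral.integral_congr fun x hx => ?_
      rw [Set.uIcc_of_le hA] at hx
      show (max x 0) ^ k = x ^ k
      rw [max_eq_left hx.1]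
    rw [e4, integral_pow, zero_pow (Nat.succ_ne_zero k), sub_zero]
  rw [e2, e3, zero_add, smul_eq_mul]
  have hk' : (k : ℝ) + 1 ≠ 0 := by positivity
  field_simp

/-- `x^(2e) sign x = (x_+)^(2e) - ((-x)_+)^(2e)` for `e ≥ 1`. -/
theorem pow_sign (e : ℕ) (he : 1 ≤ e) (x : ℝ) :
    x ^ (2 * e) * Real.sign x = (max x 0) ^ (2 * e) - (max (-x) 0) ^ (2 * e) := by
  have h2 : 2 * e ≠ 0 := by omega
  rcases lt_trichotomy x 0 with h | h | h
  · rw [Real.sign_of_neg h, max_eq_right h.le, max_eq_left (by linarith : (0 : ℝ) ≤ -x),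
      zero_pow h2, Even.neg_pow (even_two_mul e)]
    ring
  · subst h
    simp [h2]
  · rw [Real.sign_of_pos h, max_eq_left h.le, max_eq_right (by linarith : -x ≤ 0), zero_pow h2]
    ring

theorem sign_mul' (a b : ℝ) : Real.sign (a * b) = Real.sign a * Real.sign b := by
  rcases lt_trichotomy a 0 with ha | ha | ha
  · rcases lt_trichotomy b 0 with hb | hb | hb
    · rw [Real.sign_of_neg ha, Real.sign_of_neg hb, Real.sign_of_pos (mul_pos_of_neg_of_neg ha hb)]
      norm_num
    · rw [hb, mul_zero, Real.sign_zero, mul_zero]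
    · rw [Real.sign_of_neg ha, Real.sign_of_pos hb, Real.sign_of_neg (mul_neg_of_neg_of_pos ha hb)]
      norm_num
  · rw [ha, zero_mul, Real.sign_zero, zero_mul]
  · rcases lt_trichotomy b 0 with hb | hb | hb
    · rw [Real.sign_of_pos ha, Real.sign_of_neg hb, Real.sign_of_neg (mul_neg_of_pos_of_neg ha hb)]
      norm_num
    · rw [hb, mul_zero, Real.sign_zero, mul_zero]
    · rw [Real.sign_of_pos ha, Real.sign_of_pos hb, Real.sign_of_pos (mul_pos ha hb)]
      norm_num

/-- Expansion of a product of `(1 + sign a_k)/2`. (`Finset.prod_one_add` or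
`Finset.prod_add`, `sign_mul'`.) -/
theorem sign_expand {m : ℕ} (a : Fin m → ℝ) :
    ∏ k, ((1 + Real.sign (a k)) / 2) =
      ∑ S : Finset (Fin m), (1 / 2) ^ m * Real.sign (∏ k ∈ S, a k) := by
  have h1 : ∀ S : Finset (Fin m), Real.sign (∏ k ∈ S, a k) = ∏ k ∈ S, Real.sign (a k) := by
    intro S
    induction S using Finset.induction_on with
    | empty => simp [Real.sign_one]
    | insert k S hk ih => rw [Finset.prod_insert hk, Finset.prod_insert hk, sign_mul', ih]
  have h2 : ∏ k, ((1 + Real.sign (a k)) / 2) =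
      (1 / 2) ^ m * ∏ k, (1 + Real.sign (a k)) := by
    have h3 : ∀ k, (1 + Real.sign (a k)) / 2 = (1 / 2) * (1 + Real.sign (a k)) := fun k => by ring
    simp only [h3]
    rw [Finset.prod_mul_distrib, Finset.prod_const, Finset.card_univ, Fintype.card_fin]
  rw [h2, Finset.prod_one_add, Finset.powerset_univ, Finset.mul_sum]
  refine Finset.sum_congr rfl fun S _ => ?_
  rw [h1 S]

/-- `(x_+)^(2e) = x^(2e) (1 + sign x)/2` for `e ≥ 1`. -/
theorem max_pow (e : ℕ) (he : 1 ≤ e) (x : ℝ) :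
    (max x 0) ^ (2 * e) = x ^ (2 * e) * ((1 + Real.sign x) / 2) := by
  have h2 : 2 * e ≠ 0 := by omega
  rcases lt_trichotomy x 0 with h | h | h
  · rw [Real.sign_of_neg h, max_eq_right h.le, zero_pow h2]
    ring
  · subst h
    simp [h2]
  · rw [Real.sign_of_pos h, max_eq_left h.le]
    ring

end Pool.Agent.QVol
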