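import Pool.Agent.W_2cf66e_h65.HCell

/-!
# Quadratic volumes, part J: cells with an explicit polynomial (helper46)
-/

set_option autoImplicit false

noncomputable section

open MeasureTheory MvPolynomial

namespace Pool.Agent.QVol

open Pool.Agent.CVol (IsCell ocube den den_pos exists_bound exists_cell)

/-- The cell attached to finitely many polynomials and a denominator, with two more properties of
the polynomial `F = (1/M) q^2 ∏ p_k den`: it is a multiple of `∏ p_k`, and it vanishes at the points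
of the closed cube outside the cell at which all `p_k` are `≥ 0`. The proof is that of
`Pool.Agent.CVol.exists_cell` (`W_2cf66e_h65/HCell.lean`) with these two additions. -/
theorem exists_cell2 {n m : ℕ} (p : Fin m → MvPolynomial (Fin n) ℚ)
    (r q : MvPolynomial (Fin n) ℚ) :
    ∃ F f R : MvPolynomial (Fin n) ℚ,
      IsCell {y : Fin n → ℝ | y ∈ ocube n ∧ (∀ k, 0 < (aeval y (p k) : ℝ)) ∧
        (aeval y q : ℝ) ≠ 0} F ∧
      (∀ y ∈ {y : Fin n → ℝ | y ∈ ocube n ∧ (∀ k, 0 < (aeval y (p k) : ℝ)) ∧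
          (aeval y q : ℝ) ≠ 0},
        (aeval y r : ℝ) / aeval y q = aeval y f / aeval y F) ∧
      F = R * ∏ k, p k ∧
      ∀ y ∈ Pool.Agent.CVol.box (Fin n),
        y ∉ {y : Fin n → ℝ | y ∈ ocube n ∧ (∀ k, 0 < (aeval y (p k) : ℝ)) ∧
          (aeval y q : ℝ) ≠ 0} →
        (∀ k, 0 ≤ (aeval y (p k) : ℝ)) → (aeval y F : ℝ) = 0 := by
  obtain ⟨H, hH⟩ : ∃ H : MvPolynomial (Fin n) ℚ, H = q ^ 2 * (∏ k, p k) * den n := ⟨_, rfl⟩
  obtain ⟨M, hM, hMb⟩ := exists_bound H
  have hMr : (0 : ℝ) < M := by exact_mod_cast hM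
  have hHe : ∀ y : Fin n → ℝ, aeval y H =
      (aeval y q) ^ 2 * (∏ k, aeval y (p k)) * aeval y (den n) := by
    intro y
    rw [hH]
    simp only [map_mul, map_pow, map_prod]
  have hFe : ∀ y : Fin n → ℝ, aeval y (C (1 / M) * H) = 1 / (M : ℝ) * aeval y H := by
    intro y
    rw [map_mul, aeval_C]
    congr 1
    simp
  have hsub : ∀ y ∈ ocube n, y ∈ Pool.Agent.CVol.box (Fin n) := by
    intro y hy
    rw [Pool.Agent.CVol.box_eq]
    intro i
    have h1 := abs_lt.1 (hy i)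
    exact ⟨h1.1.le, h1.2.le⟩
  have hpos : ∀ y ∈ {y : Fin n → ℝ | y ∈ ocube n ∧ (∀ k, 0 < aeval y (p k)) ∧ aeval y q ≠ 0},
      0 < aeval y H := by
    intro y hy
    rw [hHe]
    have h1 : 0 < (aeval y q) ^ 2 := by
      have := hy.2.2
      positivity
    have h2 : 0 < ∏ k, aeval y (p k) := Finset.prod_pos fun k _ => hy.2.1 k
    have h3 := den_pos hy.1
    positivity
  have hU : {y : Fin n → ℝ | y ∈ ocube n ∧ (∀ k, 0 < aeval y (p k)) ∧ aeval y q ≠ 0} =
      {y : Fin n → ℝ | ∀ i, |y i| < 1} ∩ ((⋂ k, {y : Fin n → ℝ | 0 < aeval y (p k)}) ∩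
        {y : Fin n → ℝ | aeval y q ≠ 0}) := by
    ext y
    simp only [Set.mem_ofPred_eq, Set.mem_inter_iff, Set.mem_iInter, ocube]
  have hopen : IsOpen {y : Fin n → ℝ | y ∈ ocube n ∧ (∀ k, 0 < aeval y (p k)) ∧
      aeval y q ≠ 0} := by
    rw [hU]
    refine IsOpen.inter ?_ (IsOpen.inter ?_ ?_)
    · have h1 : {y : Fin n → ℝ | ∀ i, |y i| < 1} = ⋂ i, {y : Fin n → ℝ | |y i| < 1} := by
        ext y
        simp only [Set.mem_ofPred_eq, Set.mem_iInter]
      rw [h1]
      exact isOpen_iInter_of_finite fun i =>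
        isOpen_lt ((continuous_apply i).abs) continuous_const
    · exact isOpen_iInter_of_finite fun k => isOpen_lt continuous_const (Pool.Agent.CVol.HCell_cont (p k))
    · exact isOpen_ne_fun (Pool.Agent.CVol.HCell_cont q) continuous_const
  have hkey : ∀ x : Fin n → ℝ, (∀ i, |x i| ≤ 1) → (∀ k, 0 ≤ (aeval x (p k) : ℝ)) →
      x ∉ {y : Fin n → ℝ | y ∈ ocube n ∧ (∀ k, 0 < (aeval y (p k) : ℝ)) ∧
        (aeval y q : ℝ) ≠ 0} → (aeval x H : ℝ) = 0 := by
    intro x hx1 hx2 hx3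
    by_contra hH0
    apply hx3
    rw [hHe] at hH0
    have hd0 : (aeval x (den n) : ℝ) ≠ 0 := right_ne_zero_of_mul hH0
    have hqp := left_ne_zero_of_mul hH0
    have hp0 : ∏ k, (aeval x (p k) : ℝ) ≠ 0 := right_ne_zero_of_mul hqp
    have hq0 : (aeval x q : ℝ) ≠ 0 := fun h => left_ne_zero_of_mul hqp (by rw [h]; ring)
    rw [Pool.Agent.CVol.HCell_den] at hd0
    refine ⟨?_, ?_, hq0⟩
    · intro i
      refine lt_of_le_of_ne (hx1 i) fun h2 => ?_
      have h3 : 1 - (x i) ^ 2 ≠ 0 := Finset.prod_ne_zero_iff.1 hd0 i (Finset.mem_univ i)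
      apply h3
      rw [← sq_abs, h2]
      norm_num
    · intro k
      exact lt_of_le_of_ne (hx2 k) (Finset.prod_ne_zero_iff.1 hp0 k (Finset.mem_univ k)).symm
  refine ⟨C (1 / M) * H, C (1 / M) * (r * q * (∏ k, p k) * den n), C (1 / M) * (q ^ 2 * den n),
    ⟨hopen, ?_, ?_, ?_, ?_, ?_⟩, ?_, ?_, ?_⟩
  · intro y hy
    exact hsub y hy.1
  · rw [hU]
    exact Pool.Agent.CVol.IsSA.obox.inter ((Pool.Agent.CVol.IsSA.iInter _ fun k =>
      Pool.Agent.CVol.IsSA.pos (p k)).inter (Pool.Agent.CVol.IsSA.ne_zero q))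
  · intro y hy
    rw [hFe]
    have := hpos y hy
    positivity
  · intro y hy
    rw [hFe, one_div, ← div_eq_inv_mul, div_le_one hMr]
    exact (le_abs_self _).trans (hMb y (hsub y hy.1))
  · intro x hx
    rw [hopen.frontier_eq] at hx
    obtain ⟨hx1, hx2⟩ := hx
    rw [hFe, hkey x ?_ ?_ hx2, mul_zero]
    · intro i
      have h2 : IsClosed {y : Fin n → ℝ | |y i| ≤ 1} :=
        isClosed_le ((continuous_apply i).abs) continuous_const
      exact closure_minimal (fun y hy => (hy.1 i).le) h2 hx1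
    · intro k
      have h2 : IsClosed {y : Fin n → ℝ | 0 ≤ aeval y (p k)} :=
        isClosed_le continuous_const (Pool.Agent.CVol.HCell_cont (p k))
      exact closure_minimal (fun y hy => (hy.2.1 k).le) h2 hx1
  · intro y hy
    rw [hFe, hHe, map_mul, aeval_C]
    simp only [map_mul, map_prod]
    have h1 : aeval y q ≠ 0 := hy.2.2
    have h2 : ∏ k, aeval y (p k) ≠ 0 := (Finset.prod_pos fun k _ => hy.2.1 k).ne'
    have h3 : aeval y (den n) ≠ 0 := (den_pos hy.1).ne'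
    have h4 : (algebraMap ℚ ℝ) (1 / M) = 1 / (M : ℝ) := by simp
    rw [h4]
    field_simp
  · rw [hH]
    ring
  · intro y hy1 hy2 hy3
    rw [hFe, hkey y (fun i => ?_) hy3 hy2, mul_zero]
    rw [Pool.Agent.CVol.box_eq] at hy1
    exact abs_le.2 (hy1 i)

end Pool.Agent.QVol
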