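import Pool.Agent.W_2cf66e_h46.QJa
import Pool.Agent.W_2cf66e_h46.QAa
import Pool.Agent.W_2cf66e_h46.QB
import Pool.Agent.W_2cf66e_h65.DCellA
import Pool.Agent.W_2cf66e_h65.CKer
import Pool.Agent.W_2cf66e_h65.CBox

/-!
# Quadratic volumes, part J: the polynomials of a piece and its integral (helper46)

Coordinates: `y` (`Fin n`), `u` (`Fin μ`), `τ` (`Unit`).
-/

set_option autoImplicit false

noncomputable section

open MeasureTheory MvPolynomial

namespace Pool.Agent.QVol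

open Pool.Agent.CVol (IsCell)

/-- The polynomial `F(y)`. -/
def Fy {n : ℕ} (μ : ℕ) (F : MvPolynomial (Fin n) ℚ) : MvPolynomial (Fin n ⊕ (Fin μ ⊕ Unit)) ℚ :=
  rename Sum.inl F

/-- `D_a = 4 F + (1 + u_a)^2 (1 - F)`. -/
def Da {n : ℕ} (μ : ℕ) (F : MvPolynomial (Fin n) ℚ) (a : Fin μ) :
    MvPolynomial (Fin n ⊕ (Fin μ ⊕ Unit)) ℚ :=
  C 4 * Fy μ F + (1 + (X (Sum.inr (Sum.inl a)) : MvPolynomial (Fin n ⊕ (Fin μ ⊕ Unit)) ℚ)) ^ 2 *
    (1 - Fy μ F)

/-- `D = ∏_{a < i} D_a`. -/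
def DD {n : ℕ} (μ : ℕ) (F : MvPolynomial (Fin n) ℚ) (i : ℕ) :
    MvPolynomial (Fin n ⊕ (Fin μ ⊕ Unit)) ℚ :=
  ∏ a : Fin μ, (if (a : ℕ) < i then Da μ F a else 1)

/-- `W = F^i - (1 + τ)/2 D`. -/
def Wp {n : ℕ} (μ : ℕ) (F : MvPolynomial (Fin n) ℚ) (i : ℕ) :
    MvPolynomial (Fin n ⊕ (Fin μ ⊕ Unit)) ℚ :=
  (Fy μ F) ^ i - C (1 / 2) *
    (1 + (X (Sum.inr (Sum.inr ())) : MvPolynomial (Fin n ⊕ (Fin μ ⊕ Unit)) ℚ)) * DD μ F i

/-- `∏_{a<i} 2 (1+u_a)(F-1) ∏_{a≥i} 1/2`. -/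
def Np {n : ℕ} (μ : ℕ) (F : MvPolynomial (Fin n) ℚ) (i : ℕ) :
    MvPolynomial (Fin n ⊕ (Fin μ ⊕ Unit)) ℚ :=
  ∏ a : Fin μ, (if (a : ℕ) < i then
    C 2 * (1 + (X (Sum.inr (Sum.inl a)) : MvPolynomial (Fin n ⊕ (Fin μ ⊕ Unit)) ℚ)) *
      (Fy μ F - 1)
    else C (1 / 2))

/-- The polynomial factor of the integrand. -/
def Hp {n : ℕ} (μ : ℕ) (F h : MvPolynomial (Fin n) ℚ) (i e : ℕ) :
    MvPolynomial (Fin n ⊕ (Fin μ ⊕ Unit)) ℚ :=
  rename Sum.inl h * (Fy μ F) ^ ((μ - i) * (2 * e + 1)) * Np μ F i * C (((2 * e + 1 : ℕ) : ℚ) / 2)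

theorem QJc_Fy {n : ℕ} (μ : ℕ) (F : MvPolynomial (Fin n) ℚ) (z : Fin n ⊕ (Fin μ ⊕ Unit) → ℝ) :
    (aeval z (Fy μ F) : ℝ) = aeval (fun j => z (Sum.inl j)) F := by
  rw [Fy, aeval_rename]
  rfl

theorem QJc_Da {n : ℕ} (μ : ℕ) (F : MvPolynomial (Fin n) ℚ) (a : Fin μ)
    (z : Fin n ⊕ (Fin μ ⊕ Unit) → ℝ) :
    (aeval z (Da μ F a) : ℝ) = 4 * aeval (fun j => z (Sum.inl j)) F +
      (1 + z (Sum.inr (Sum.inl a))) ^ 2 * (1 - aeval (fun j => z (Sum.inl j)) F) := by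
  simp only [Da, map_add, map_mul, map_pow, map_sub, map_one, aeval_X, QJc_Fy, aeval_C, eq_ratCast]
  norm_num

theorem QJc_DD {n : ℕ} (μ : ℕ) (F : MvPolynomial (Fin n) ℚ) (i : ℕ)
    (z : Fin n ⊕ (Fin μ ⊕ Unit) → ℝ) :
    (aeval z (DD μ F i) : ℝ) = ∏ a : Fin μ, (if (a : ℕ) < i then
      (4 * aeval (fun j => z (Sum.inl j)) F +
      (1 + z (Sum.inr (Sum.inl a))) ^ 2 * (1 - aeval (fun j => z (Sum.inl j)) F) : ℝ) else 1) := by
  rw [DD, map_prod]
  refine Finset.prod_congr rfl (fun a _ => ?_)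
  split_ifs
  · exact QJc_Da μ F a z
  · simp

theorem QJc_Np {n : ℕ} (μ : ℕ) (F : MvPolynomial (Fin n) ℚ) (i : ℕ)
    (z : Fin n ⊕ (Fin μ ⊕ Unit) → ℝ) :
    (aeval z (Np μ F i) : ℝ) = ∏ a : Fin μ, (if (a : ℕ) < i then
      (2 * (1 + z (Sum.inr (Sum.inl a))) * (aeval (fun j => z (Sum.inl j)) F - 1) : ℝ)
      else 1 / 2) := by
  rw [Np, map_prod]
  refine Finset.prod_congr rfl (fun a _ => ?_)
  split_ifs
  · simp only [map_add, map_mul, map_sub, map_one, aeval_X, QJc_Fy, aeval_C, eq_ratCast]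
    norm_num
  · simp

theorem QJc_Wp {n : ℕ} (μ : ℕ) (F : MvPolynomial (Fin n) ℚ) (i : ℕ)
    (z : Fin n ⊕ (Fin μ ⊕ Unit) → ℝ) :
    (aeval z (Wp μ F i) : ℝ) = (aeval (fun j => z (Sum.inl j)) F : ℝ) ^ i -
      (1 + z (Sum.inr (Sum.inr ()))) / 2 * aeval z (DD μ F i) := by
  simp only [Wp, map_add, map_mul, map_pow, map_sub, map_one, aeval_X, QJc_Fy, aeval_C, eq_ratCast]
  push_cast
  ring

theorem QJc_Hp {n : ℕ} (μ : ℕ) (F h : MvPolynomial (Fin n) ℚ) (i e : ℕ)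
    (z : Fin n ⊕ (Fin μ ⊕ Unit) → ℝ) :
    (aeval z (Hp μ F h i e) : ℝ) = aeval (fun j => z (Sum.inl j)) h *
      (aeval (fun j => z (Sum.inl j)) F : ℝ) ^ ((μ - i) * (2 * e + 1)) * aeval z (Np μ F i) *
      (((2 * e : ℕ) + 1 : ℝ) / 2) := by
  have h1 : (aeval z (rename Sum.inl h : MvPolynomial (Fin n ⊕ (Fin μ ⊕ Unit)) ℚ) : ℝ) =
      aeval (fun j => z (Sum.inl j)) h := by
    rw [aeval_rename]
    rfl
  simp only [Hp, map_mul, map_pow, QJc_Fy, aeval_C, eq_ratCast, h1]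
  push_cast
  ring

theorem QJc_pow_prod (μ i : ℕ) (hi : i ≤ μ) (y : ℝ) :
    ∏ a : Fin μ, (if (a : ℕ) < i then y else 1) = y ^ i := by
  rw [Fin.prod_univ_eq_prod_range (fun a => if a < i then y else 1) μ, ← Finset.prod_filter]
  have h5 : (Finset.range μ).filter (fun a => a < i) = Finset.range i := by
    ext a
    rw [Finset.mem_filter, Finset.mem_range, Finset.mem_range]
    omega
  rw [h5, Finset.prod_const, Finset.card_range]

theorem QJc_unit (f : (Unit → ℝ) → ℝ) :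
    ∫ s in box Unit, f s = ∫ t in Set.Icc (-1 : ℝ) 1, f (fun _ => t) := by
  have hm : MeasurableSet (box Unit) := (cpt_box Unit).measurableSet
  rw [← integral_indicator hm, int_unit, ← integral_indicator measurableSet_Icc]
  refine integral_congr_ae (Filter.Eventually.of_forall (fun t => ?_))
  have hiff : (fun _ : Unit => t) ∈ box Unit ↔ t ∈ Set.Icc (-1 : ℝ) 1 := by
    unfold box
    rw [Pool.Agent.CVol.box_eq]
    simp [Set.mem_Icc]
  show (box Unit).indicator f (fun _ => t) = (Set.Icc (-1 : ℝ) 1).indicator (fun t => f (fun _ => t)) t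
  by_cases h : t ∈ Set.Icc (-1 : ℝ) 1
  · rw [Set.indicator_of_mem (hiff.mpr h), Set.indicator_of_mem h]
  · rw [Set.indicator_of_notMem (fun h' => h (hiff.mp h')), Set.indicator_of_notMem h]

theorem QJc_elim_cont {ι κ : Type} (x : ι → ℝ) :
    Continuous fun w : κ → ℝ => (Sum.elim x w : ι ⊕ κ → ℝ) := by
  refine continuous_pi (fun i => ?_)
  cases i with
  | inl i => exact continuous_const
  | inr i => exact continuous_apply i

theorem QJc_mem_box {ι κ : Type} {x : ι → ℝ} {w : κ → ℝ} (hx : x ∈ box ι) (hw : w ∈ box κ) :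
    (Sum.elim x w : ι ⊕ κ → ℝ) ∈ box (ι ⊕ κ) := by
  unfold box at hx hw ⊢
  rw [Pool.Agent.CVol.box_eq] at hx hw ⊢
  rintro (i | i)
  · exact hx i
  · exact hw i

/-- The integral of a piece. `Φ` is a continuous function which on the cube is
`1_U Hp F^(2e) (W_+)^(2e)`. Fubini (`int_box_sum` twice; the index type of `τ` is `Unit`); for
`y ∈ U` fixed: the integral over `τ` by `tau_int` with `k = 2e`, `A = F^i`,
`D = ∏_{a<i} D_a ≥ (4F)^i ≥ F^i` gives `F^(i(2e+1))/D`; the integral over `u` by `int_kap_prod`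
(`kap (u_a) F = 2 (1+u_a)(F-1)/D_a`) gives `(log F)^i`. -/
theorem int_piece {n : ℕ} (μ : ℕ) {U : Set (Fin n → ℝ)} {F : MvPolynomial (Fin n) ℚ}
    (hc : IsCell U F) (h : MvPolynomial (Fin n) ℚ) (i e : ℕ) (hi : i ≤ μ) (he : 1 ≤ e)
    (Φ : (Fin n ⊕ (Fin μ ⊕ Unit) → ℝ) → ℝ) (hΦc : Continuous Φ)
    (hΦ : ∀ z ∈ box (Fin n ⊕ (Fin μ ⊕ Unit)), Φ z =
      U.indicator (fun _ => (1 : ℝ)) (fun j => z (Sum.inl j)) *
        (aeval z (Hp μ F h i e) * (aeval z (Fy μ F)) ^ (2 * e) *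
          (max (aeval z (Wp μ F i)) 0) ^ (2 * e))) :
    ∫ z in box (Fin n ⊕ (Fin μ ⊕ Unit)), Φ z =
      ∫ x in U, aeval x h * (aeval x F) ^ (2 * e + μ * (2 * e + 1)) *
        (Real.log (aeval x F)) ^ i := by
  rw [Pool.Agent.CVol.int_box_sum _ hΦc]
  have hKexp : (μ - i) * (2 * e + 1) + 2 * e + i * (2 * e + 1) = 2 * e + μ * (2 * e + 1) := by
    obtain ⟨d, rfl⟩ := Nat.exists_eq_add_of_le hi
    rw [Nat.add_sub_cancel_left]
    ring
  have h1 : ∀ x ∈ box (Fin n), ∫ w in box (Fin μ ⊕ Unit), Φ (Sum.elim x w) =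
      U.indicator (fun x : Fin n → ℝ =>
        aeval x h * (aeval x F) ^ (2 * e + μ * (2 * e + 1)) * (Real.log (aeval x F)) ^ i) x := by
    intro x hx
    rw [Pool.Agent.CVol.int_box_sum (fun w => Φ (Sum.elim x w)) (hΦc.comp (QJc_elim_cont x))]
    by_cases hxU : x ∈ U
    · rw [Set.indicator_of_mem hxU]
      set y : ℝ := aeval x F with hy
      have hy0 : 0 < y := hc.pos x hxU
      have hy1 : y ≤ 1 := hc.le_one x hxU
      rw [← Pool.Agent.CVol.int_kap_prod μ i hi y hy0 hy1, ← integral_const_mul]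
      refine setIntegral_congr_fun (cpt_box (Fin μ)).measurableSet (fun u hu => ?_)
      show ∫ t in box Unit, Φ (Sum.elim x (Sum.elim u t)) = _
      rw [QJc_unit]
      set D : ℝ := ∏ a : Fin μ, (if (a : ℕ) < i then (4 * y + (1 + u a) ^ 2 * (1 - y) : ℝ) else 1)
        with hD
      set N : ℝ := ∏ a : Fin μ, (if (a : ℕ) < i then (2 * (1 + u a) * (y - 1) : ℝ) else 1 / 2)
        with hN
      have hda : ∀ a : Fin μ, y ≤ 4 * y + (1 + u a) ^ 2 * (1 - y) := by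
        intro a
        have := mul_nonneg (sq_nonneg (1 + u a)) (sub_nonneg.mpr hy1)
        linarith
      have hDy : y ^ i ≤ D := by
        rw [← QJc_pow_prod μ i hi y, hD]
        refine Finset.prod_le_prod (fun a _ => ?_) (fun a _ => ?_)
        · split_ifs
          · exact hy0.le
          · exact zero_le_one
        · split_ifs
          · exact hda a
          · exact le_refl _
      have hD0 : 0 < D := (pow_pos hy0 i).trans_le hDy
      have hND : N / D = ∏ a : Fin μ, (if (a : ℕ) < i then Pool.Agent.CVol.kap (u a) y else 1 / 2) := by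
        rw [hN, hD, ← Finset.prod_div_distrib]
        refine Finset.prod_congr rfl (fun a _ => ?_)
        split_ifs
        · rfl
        · simp
      have hval : ∀ t ∈ Set.Icc (-1 : ℝ) 1, Φ (Sum.elim x (Sum.elim u (fun _ => t))) =
          (aeval x h * y ^ ((μ - i) * (2 * e + 1)) * N * y ^ (2 * e)) *
            ((((2 * e : ℕ) : ℝ) + 1) / 2 * (max (y ^ i - (1 + t) / 2 * D) 0) ^ (2 * e)) := by
        intro t ht
        have htb : (fun _ : Unit => t) ∈ box Unit := by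
          unfold box
          rw [Pool.Agent.CVol.box_eq]
          exact fun _ => ht
        have hz := QJc_mem_box hx (QJc_mem_box hu htb)
        rw [hΦ _ hz]
        have hzx : (fun j => (Sum.elim x (Sum.elim u (fun _ => t)) : Fin n ⊕ (Fin μ ⊕ Unit) → ℝ)
            (Sum.inl j)) = x := rfl
        rw [QJc_Hp, QJc_Wp, QJc_Np, QJc_DD, QJc_Fy, hzx, Set.indicator_of_mem hxU]
        simp only [Sum.elim_inr, Sum.elim_inl, one_mul]
        rw [← hy, ← hD, ← hN]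
        ring
      rw [setIntegral_congr_fun measurableSet_Icc hval, integral_const_mul,
        tau_int (2 * e) (by omega) (y ^ i) D (pow_pos hy0 i).le hD0 hDy, ← hND, ← hKexp, ← pow_mul,
        pow_add, pow_add]
      ring
    · rw [Set.indicator_of_notMem hxU]
      rw [← integral_zero (Fin μ → ℝ) ℝ (μ := volume.restrict (box (Fin μ)))]
      refine setIntegral_congr_fun (cpt_box (Fin μ)).measurableSet (fun u hu => ?_)
      show ∫ t in box Unit, Φ (Sum.elim x (Sum.elim u t)) = 0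
      rw [← integral_zero (Unit → ℝ) ℝ (μ := volume.restrict (box Unit))]
      refine setIntegral_congr_fun (cpt_box Unit).measurableSet (fun t ht => ?_)
      show Φ (Sum.elim x (Sum.elim u t)) = 0
      rw [hΦ _ (QJc_mem_box hx (QJc_mem_box hu ht))]
      have hzx : (fun j => (Sum.elim x (Sum.elim u t) : Fin n ⊕ (Fin μ ⊕ Unit) → ℝ)
            (Sum.inl j)) = x := rfl
      rw [hzx, Set.indicator_of_notMem hxU, zero_mul]
  rw [setIntegral_congr_fun (cpt_box (Fin n)).measurableSet h1,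
    setIntegral_indicator hc.isOpen.measurableSet, Set.inter_eq_self_of_subset_right hc.sub]

end Pool.Agent.QVol
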