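import Pool.Agent.W_2cf66e_h46.QJa
import Pool.Agent.W_2cf66e_h46.QA

/-!
# Quadratic volumes, part J: expansion of a product of positive parts (helper46)
-/

set_option autoImplicit false

noncomputable section

open MeasureTheory MvPolynomial

namespace Pool.Agent.QVol

/-- The polynomials `P_{S,b} = ∏_{k∈S} p_k W^b`. -/
def PS {ι : Type} {m : ℕ} (p : Fin m → MvPolynomial ι ℚ) (W : MvPolynomial ι ℚ)
    (S : Finset (Fin m)) (b : Bool) : MvPolynomial ι ℚ := (∏ k ∈ S, p k) * (if b then W else 1)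

/-- The cofactors `R ∏_{k∉S} p_k W^(1-b)`. -/
def RS' {ι : Type} {m : ℕ} (p : Fin m → MvPolynomial ι ℚ) (R W : MvPolynomial ι ℚ)
    (S : Finset (Fin m)) (b : Bool) : MvPolynomial ι ℚ :=
  R * (∏ k ∈ Sᶜ, p k) * (if b then 1 else W)

theorem QJd_prod_mul {ι : Type} {m : ℕ} (p : Fin m → MvPolynomial ι ℚ)
    (R W : MvPolynomial ι ℚ) (z : ι → ℝ) (S : Finset (Fin m)) (b : Bool) :
    (aeval z (RS' p R W S b) : ℝ) * aeval z (PS p W S b) = aeval z (R * ∏ k, p k) * aeval z W := by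
  rw [← map_mul, ← map_mul]
  congr 1
  have h1 : (∏ k, p k) = (∏ k ∈ S, p k) * ∏ k ∈ Sᶜ, p k := (Finset.prod_mul_prod_compl S p).symm
  rw [RS', PS, h1]
  cases b
  · simp only [Bool.false_eq_true, if_false]
    ring
  · simp only [if_true]
    ring

theorem QJd_prod_sign {m : ℕ} (a : Fin m → ℝ) (r χ : ℝ) (e : ℕ) (he : 1 ≤ e)
    (h1 : (∀ k, 0 < a k) → r * ∏ k, a k ≠ 0 → χ = 1)
    (h0 : (¬ ∀ k, 0 < a k) → r * ∏ k, a k ≠ 0 → χ = 0) :
    χ * (r * ∏ k, a k) ^ (2 * e) =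
      (r * ∏ k, a k) ^ (2 * e) * ∏ k, ((1 + Real.sign (a k)) / 2) := by
  by_cases hF : r * ∏ k, a k = 0
  · rw [hF, zero_pow (by omega), mul_zero, zero_mul]
  · by_cases hpos : ∀ k, 0 < a k
    · have h2 : ∏ k, ((1 + Real.sign (a k)) / 2) = 1 := by
        refine Finset.prod_eq_one fun k _ => ?_
        rw [Real.sign_of_pos (hpos k)]
        norm_num
      rw [h1 hpos hF, h2, one_mul, mul_one]
    · rw [h0 hpos hF, zero_mul]
      push Not at hpos
      obtain ⟨k, hk⟩ := hpos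
      have hne : a k ≠ 0 := by
        intro h2
        apply hF
        rw [Finset.prod_eq_zero (Finset.mem_univ k) h2, mul_zero]
      have h2 : ∏ k, ((1 + Real.sign (a k)) / 2) = 0 := by
        refine Finset.prod_eq_zero (Finset.mem_univ k) ?_
        rw [Real.sign_of_neg (lt_of_le_of_ne hk hne)]
        norm_num
      rw [h2, mul_zero]

/-- Pointwise expansion: let `F = R ∏ p_k`; if `χ = 1` when all `p_k > 0` and `F ≠ 0`, and
`χ = 0` if `F ≠ 0` and not all `p_k > 0`, then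
`χ F^(2e) (W_+)^(2e) = ∑_{S,b} 2^(-m-1) R_{S,b}^(2e) ((P_{S,b})_+^(2e) - (-P_{S,b})_+^(2e))`.
Proof: if `F ≠ 0` then no `p_k` vanishes and `χ = ∏ (1 + sign p_k)/2`; both sides vanish if
`F = 0` (for the right side: the sum is `F^(2e) W^(2e) ∏(...)(...)` in all cases, by
`sign_expand`, `pow_sign`, `max_pow`, `R_{S,b} P_{S,b} = F W`). -/
theorem expand {ι : Type} {m : ℕ} (p : Fin m → MvPolynomial ι ℚ) (R W : MvPolynomial ι ℚ)
    (e : ℕ) (he : 1 ≤ e) (z : ι → ℝ) (χ : ℝ)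
    (h1 : (∀ k, 0 < (aeval z (p k) : ℝ)) → (aeval z (R * ∏ k, p k) : ℝ) ≠ 0 → χ = 1)
    (h0 : (¬ ∀ k, 0 < (aeval z (p k) : ℝ)) → (aeval z (R * ∏ k, p k) : ℝ) ≠ 0 → χ = 0) :
    χ * ((aeval z (R * ∏ k, p k)) ^ (2 * e) * (max (aeval z W) 0) ^ (2 * e)) =
      ∑ S : Finset (Fin m), ∑ b : Bool, (1 / 2) ^ (m + 1) * (aeval z (RS' p R W S b)) ^ (2 * e) *
        ((max (aeval z (PS p W S b)) 0) ^ (2 * e) -
          (max (aeval z (-PS p W S b)) 0) ^ (2 * e)) := by
  have hterm : ∀ (S : Finset (Fin m)) (b : Bool),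
      (1 / 2 : ℝ) ^ (m + 1) * (aeval z (RS' p R W S b)) ^ (2 * e) *
        ((max (aeval z (PS p W S b)) 0) ^ (2 * e) -
          (max (aeval z (-PS p W S b)) 0) ^ (2 * e)) =
      ((aeval z (R * ∏ k, p k) * aeval z W) ^ (2 * e) *
        ((1 / 2 : ℝ) ^ m * Real.sign (∏ k ∈ S, (aeval z (p k) : ℝ)))) *
        ((1 / 2 : ℝ) * (if b then Real.sign (aeval z W) else 1)) := by
    intro S b
    rw [map_neg, ← pow_sign e he, ← QJd_prod_mul p R W z S b, mul_pow]
    have h2 : Real.sign (aeval z (PS p W S b)) =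
        Real.sign (∏ k ∈ S, (aeval z (p k) : ℝ)) *
          (if b then Real.sign (aeval z W) else 1) := by
      rw [PS, map_mul, map_prod, sign_mul']
      congr 1
      cases b
      · simp only [Bool.false_eq_true, if_false, map_one]
        exact Real.sign_of_pos one_pos
      · simp only [if_true]
    rw [h2, pow_succ]
    ring
  have hsum : (∑ S : Finset (Fin m), ∑ b : Bool,
      (1 / 2 : ℝ) ^ (m + 1) * (aeval z (RS' p R W S b)) ^ (2 * e) *
        ((max (aeval z (PS p W S b)) 0) ^ (2 * e) -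
          (max (aeval z (-PS p W S b)) 0) ^ (2 * e))) =
      (aeval z (R * ∏ k, p k) * aeval z W) ^ (2 * e) *
        (∏ k, ((1 + Real.sign (aeval z (p k) : ℝ)) / 2)) *
        ((1 + Real.sign (aeval z W)) / 2) := by
    rw [sign_expand (fun k => (aeval z (p k) : ℝ)), Finset.mul_sum, Finset.sum_mul]
    refine Finset.sum_congr rfl fun S _ => ?_
    rw [Fintype.sum_bool, hterm S true, hterm S false]
    simp only [if_true, Bool.false_eq_true, if_false]
    ring
  rw [hsum, max_pow e he (aeval z W)]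
  have hF := QJd_prod_sign (fun k => (aeval z (p k) : ℝ)) (aeval z R) χ e he
    (by intro h; have := h1 h; rwa [map_mul, map_prod] at this)
    (by intro h; have := h0 h; rwa [map_mul, map_prod] at this)
  rw [map_mul, map_prod, mul_pow (aeval z R * ∏ k, (aeval z (p k) : ℝ)) (aeval z W) (2 * e)]
  calc χ * ((aeval z R * ∏ k, (aeval z (p k) : ℝ)) ^ (2 * e) *
        ((aeval z W) ^ (2 * e) * ((1 + Real.sign (aeval z W)) / 2)))
      = (χ * (aeval z R * ∏ k, (aeval z (p k) : ℝ)) ^ (2 * e)) *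
        ((aeval z W) ^ (2 * e) * ((1 + Real.sign (aeval z W)) / 2)) := by ring
    _ = ((aeval z R * ∏ k, (aeval z (p k) : ℝ)) ^ (2 * e) *
          ∏ k, ((1 + Real.sign (aeval z (p k) : ℝ)) / 2)) *
        ((aeval z W) ^ (2 * e) * ((1 + Real.sign (aeval z W)) / 2)) := by rw [hF]
    _ = _ := by ring

end Pool.Agent.QVol
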