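import Pool.Agent.W_2cf66e_h46.QJ
import Pool.Agent.W_2cf66e_h46.QJc
import Pool.Agent.W_2cf66e_h46.QJd
import Pool.Agent.W_2cf66e_h65.BLog

/-!
# Quadratic volumes, part J: a cell integral is an `Apow` number (helper46)
-/

set_option autoImplicit false

noncomputable section

open MeasureTheory MvPolynomial

namespace Pool.Agent.QVol

open Pool.Agent.CVol (IsCell cell_log)

theorem QJe_cont {ι : Type} (g : MvPolynomial ι ℚ) :
    Continuous fun x : ι → ℝ => (aeval x g : ℝ) := by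
  have h : (fun x : ι → ℝ => (aeval x g : ℝ)) =
      fun x : ι → ℝ => MvPolynomial.eval x (MvPolynomial.map (algebraMap ℚ ℝ) g) := by
    funext x
    rw [MvPolynomial.eval_map]
    rfl
  rw [h]
  exact MvPolynomial.continuous_eval _

/-- The polynomials `± P_{S,b}`. -/
def QJe_P {n m : ℕ} (μ : ℕ) (F : MvPolynomial (Fin n) ℚ) (p : Fin m → MvPolynomial (Fin n) ℚ)
    (i : ℕ) (S : Finset (Fin m)) (b c : Bool) : MvPolynomial (Fin n ⊕ (Fin μ ⊕ Unit)) ℚ :=
  if c then PS (fun k => rename Sum.inl (p k)) (Wp μ F i) S b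
  else -PS (fun k => rename Sum.inl (p k)) (Wp μ F i) S b

/-- The polynomial factors. -/
def QJe_H {n m : ℕ} (μ : ℕ) (F R : MvPolynomial (Fin n) ℚ) (p : Fin m → MvPolynomial (Fin n) ℚ)
    (h : MvPolynomial (Fin n) ℚ) (e i : ℕ) (S : Finset (Fin m)) (b c : Bool) :
    MvPolynomial (Fin n ⊕ (Fin μ ⊕ Unit)) ℚ :=
  (if c then 1 else -1) * (Hp μ F h i e * (C ((1 / 2) ^ (m + 1)) *
    (RS' (fun k => rename Sum.inl (p k)) (rename Sum.inl R) (Wp μ F i) S b) ^ (2 * e)))

theorem QJe_piece {n m : ℕ} {U : Set (Fin n → ℝ)} {F R : MvPolynomial (Fin n) ℚ}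
    (p : Fin m → MvPolynomial (Fin n) ℚ) (hc : IsCell U F) (hF : F = R * ∏ k, p k)
    (hU : ∀ y ∈ U, ∀ k, 0 < (aeval y (p k) : ℝ))
    (h0 : ∀ y ∈ box (Fin n), y ∉ U → (∀ k, 0 ≤ (aeval y (p k) : ℝ)) → (aeval y F : ℝ) = 0)
    (μ : ℕ) (h : MvPolynomial (Fin n) ℚ) (i e : ℕ) (hi : i ≤ μ) (he : 1 ≤ e) :
    ∫ x in U, aeval x h * (aeval x F) ^ (2 * e + μ * (2 * e + 1)) *
        (Real.log (aeval x F)) ^ i =
      ∑ S : Finset (Fin m), ∑ b : Bool, ∑ c : Bool,
        ∫ z in box (Fin n ⊕ (Fin μ ⊕ Unit)), (aeval z (QJe_H μ F R p h e i S b c) : ℝ) *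
          (max (aeval z (QJe_P μ F p i S b c)) 0) ^ (2 * e) := by
  classical
  have hcont : ∀ (S : Finset (Fin m)) (b c : Bool),
      Continuous fun z : Fin n ⊕ (Fin μ ⊕ Unit) → ℝ =>
        (aeval z (QJe_H μ F R p h e i S b c) : ℝ) *
          (max (aeval z (QJe_P μ F p i S b c)) 0) ^ (2 * e) := by
    intro S b c
    exact (QJe_cont _).mul (((QJe_cont _).max continuous_const).pow _)
  have hbox : IsCompact (box (Fin n ⊕ (Fin μ ⊕ Unit))) := isCompact_Icc
  have hint : ∀ (S : Finset (Fin m)) (b c : Bool),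
      IntegrableOn (fun z : Fin n ⊕ (Fin μ ⊕ Unit) → ℝ =>
        (aeval z (QJe_H μ F R p h e i S b c) : ℝ) *
          (max (aeval z (QJe_P μ F p i S b c)) 0) ^ (2 * e)) (box (Fin n ⊕ (Fin μ ⊕ Unit))) := by
    intro S b c
    exact (hcont S b c).continuousOn.integrableOn_compact hbox
  rw [← int_piece μ hc h i e hi he (fun z => ∑ S : Finset (Fin m), ∑ b : Bool, ∑ c : Bool,
        (aeval z (QJe_H μ F R p h e i S b c) : ℝ) *
          (max (aeval z (QJe_P μ F p i S b c)) 0) ^ (2 * e))]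
  · rw [integral_finsetSum]
    · refine Finset.sum_congr rfl fun S _ => ?_
      rw [integral_finsetSum]
      · refine Finset.sum_congr rfl fun b _ => ?_
        rw [integral_finsetSum]
        intro c _
        exact hint S b c
      · intro b _
        exact integrable_finsetSum _ fun c _ => hint S b c
    · intro S _
      exact integrable_finsetSum _ fun b _ => integrable_finsetSum _ fun c _ => hint S b c
  · exact continuous_finsetSum _ fun S _ => continuous_finsetSum _ fun b _ =>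
      continuous_finsetSum _ fun c _ => hcont S b c
  · intro z hz
    have hy : (fun j => z (Sum.inl j)) ∈ box (Fin n) :=
      ⟨fun j => hz.1 (Sum.inl j), fun j => hz.2 (Sum.inl j)⟩
    have hp : ∀ g : MvPolynomial (Fin n) ℚ,
        (aeval z (rename Sum.inl g : MvPolynomial (Fin n ⊕ (Fin μ ⊕ Unit)) ℚ) : ℝ) =
          aeval (fun j => z (Sum.inl j)) g := by
      intro g
      rw [aeval_rename]
      rfl
    have hR : (rename Sum.inl R * ∏ k, rename Sum.inl (p k) :
        MvPolynomial (Fin n ⊕ (Fin μ ⊕ Unit)) ℚ) = Fy μ F := by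
      rw [Fy, hF, map_mul, map_prod]
    have hex := expand (fun k => (rename Sum.inl (p k) : MvPolynomial (Fin n ⊕ (Fin μ ⊕ Unit)) ℚ))
      (rename Sum.inl R) (Wp μ F i) e he z
      (U.indicator (fun _ => (1 : ℝ)) (fun j => z (Sum.inl j))) ?_ ?_
    · rw [hR] at hex
      have h1 : U.indicator (fun _ => (1 : ℝ)) (fun j => z (Sum.inl j)) *
          (aeval z (Hp μ F h i e) * (aeval z (Fy μ F)) ^ (2 * e) *
            (max (aeval z (Wp μ F i)) 0) ^ (2 * e)) =
          aeval z (Hp μ F h i e) * (U.indicator (fun _ => (1 : ℝ)) (fun j => z (Sum.inl j)) *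
          ((aeval z (Fy μ F)) ^ (2 * e) * (max (aeval z (Wp μ F i)) 0) ^ (2 * e))) := by ring
      rw [h1, hex, Finset.mul_sum]
      refine Finset.sum_congr rfl fun S _ => ?_
      rw [Finset.mul_sum]
      refine Finset.sum_congr rfl fun b _ => ?_
      rw [Fintype.sum_bool]
      have h2 : (aeval z (C (1 / 2) : MvPolynomial (Fin n ⊕ (Fin μ ⊕ Unit)) ℚ) : ℝ) =
          1 / 2 := by
        rw [aeval_C, eq_ratCast]
        push_cast
        rfl
      simp only [QJe_H, QJe_P, if_true, Bool.false_eq_true, if_false, one_mul, neg_mul, map_neg,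
        map_mul, map_pow, h2]
      ring
    · intro hpos hne
      rw [hR, Fy, hp] at hne
      have hyU : (fun j => z (Sum.inl j)) ∈ U := by
        by_contra hyU
        apply hne
        refine h0 _ hy hyU fun k => ?_
        have := hpos k
        simp only [hp] at this
        exact this.le
      exact Set.indicator_of_mem hyU _
    · intro hpos _
      have hyU : (fun j => z (Sum.inl j)) ∉ U := by
        intro hyU
        apply hpos
        intro k
        simp only [hp]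
        exact hU _ hyU k
      exact Set.indicator_of_notMem hyU _

/-- A cell integral is an `Apow` number. `cell_log` gives `μ`. Index type
`Fin n ⊕ (Fin μ ⊕ Unit)`, polynomials `± PS (rename inl ∘ p) (Wp μ F i) S b` for `i ≤ μ`,
`S`, `b`, sign (finitely many, reindexed by `Fin J`). For `e ≥ 1` take `K = 2e + μ(2e+1)` in
`cell_log`; for each `i` use `int_piece` with
`Φ z = Hp * ∑_{S,b} ...` (the right side of `expand`, continuous), by `expand` for
`rename inl ∘ p`, `rename inl R`, `W = Wp μ F i`, `χ = 1_U`. -/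
theorem cell_apow {n m : ℕ} {U : Set (Fin n → ℝ)} {F R : MvPolynomial (Fin n) ℚ}
    (p : Fin m → MvPolynomial (Fin n) ℚ) (hc : IsCell U F) (hF : F = R * ∏ k, p k)
    (hU : ∀ y ∈ U, ∀ k, 0 < (aeval y (p k) : ℝ))
    (h0 : ∀ y ∈ box (Fin n), y ∉ U → (∀ k, 0 ≤ (aeval y (p k) : ℝ)) → (aeval y F : ℝ) = 0)
    (f : MvPolynomial (Fin n) ℚ)
    (hf : IntegrableOn (fun x => (aeval x f : ℝ) / aeval x F) U) :
    Apow (∫ x in U, (aeval x f : ℝ) / aeval x F) := by
  classical
  obtain ⟨μ, hμ⟩ := cell_log hc f hf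
  let I : Type := Fin (μ + 1) × Finset (Fin m) × Bool × Bool
  let eq := Fintype.equivFin I
  refine ⟨Fin n ⊕ (Fin μ ⊕ Unit), inferInstance, Fintype.card I,
    fun j => QJe_P μ F p (eq.symm j).1 (eq.symm j).2.1 (eq.symm j).2.2.1 (eq.symm j).2.2.2,
    fun e he => ?_⟩
  obtain ⟨h, hh⟩ := hμ (2 * e + μ * (2 * e + 1)) (by nlinarith)
  refine ⟨fun j => QJe_H μ F R p (h (eq.symm j).1) e (eq.symm j).1 (eq.symm j).2.1
    (eq.symm j).2.2.1 (eq.symm j).2.2.2, ?_⟩
  rw [hh]
  have h1 : ∀ i ∈ Finset.range (μ + 1), ∫ x in U, MvPolynomial.aeval x (h i) *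
      (MvPolynomial.aeval x F) ^ (2 * e + μ * (2 * e + 1)) *
        (Real.log (MvPolynomial.aeval x F)) ^ i =
      ∑ S : Finset (Fin m), ∑ b : Bool, ∑ c : Bool,
        ∫ z in box (Fin n ⊕ (Fin μ ⊕ Unit)), (aeval z (QJe_H μ F R p (h i) e i S b c) : ℝ) *
          (max (aeval z (QJe_P μ F p i S b c)) 0) ^ (2 * e) := by
    intro i hi
    rw [Finset.mem_range] at hi
    exact QJe_piece p hc hF hU h0 μ (h i) i e (by omega) he
  rw [Finset.sum_congr rfl h1, Finset.sum_range]
  have h2 := Equiv.sum_comp eq.symm (fun a : I =>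
    ∫ z in box (Fin n ⊕ (Fin μ ⊕ Unit)),
      (aeval z (QJe_H μ F R p (h a.1) e a.1 a.2.1 a.2.2.1 a.2.2.2) : ℝ) *
          (max (aeval z (QJe_P μ F p a.1 a.2.1 a.2.2.1 a.2.2.2)) 0) ^ (2 * e))
  refine Eq.trans ?_ h2.symm
  rw [Fintype.sum_prod_type]
  refine Finset.sum_congr rfl fun i _ => ?_
  rw [Fintype.sum_prod_type]
  refine Finset.sum_congr rfl fun S _ => ?_
  rw [Fintype.sum_prod_type]

end Pool.Agent.QVol
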