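import Pool.Agent.W_2cf66e_h46.QJe
import Pool.Agent.W_2cf66e_h46.QJb
import Pool.Agent.W_2cf66e_h65.HMain

/-!
# Quadratic volumes, part J: every period is an `Apow` number (helper46)
-/

set_option autoImplicit false

noncomputable section

open MeasureTheory MvPolynomial

namespace Pool.Agent.QVol

open Pool.Agent.CVol (re eval_re change exists_pull num den phi phi_surj den_pos ocube null_rat
  IsCell HCell_cont HMain_eq_zero int_sign scell sg)

/-- basic open sets -/
theorem QJf_basic {n m : ℕ} (p : Fin m → MvPolynomial (Fin n) ℚ)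
    (P Q : MvPolynomial (Fin n) ℚ) (hQ : Q ≠ 0)
    (hint : IntegrableOn (fun x : Fin n → ℝ => aeval x P / aeval x Q)
      {x : Fin n → ℝ | ∀ c, 0 < aeval x (p c)}) :
    Apow (∫ x in {x : Fin n → ℝ | ∀ c, 0 < aeval x (p c)}, aeval x P / aeval x Q) := by
  classical
  have hA : MeasurableSet {x : Fin n → ℝ | ∀ c, 0 < aeval x (p c)} := by
    have h1 : {x : Fin n → ℝ | ∀ c, 0 < aeval x (p c)} =
        ⋂ c, {x : Fin n → ℝ | 0 < aeval x (p c)} := by
      ext x
      simp only [Set.mem_ofPred_eq, Set.mem_iInter]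
    rw [h1]
    exact MeasurableSet.iInter fun c =>
      (isOpen_lt continuous_const (HCell_cont (p c))).measurableSet
  obtain ⟨hiff, hval⟩ := change hA (fun x : Fin n → ℝ => aeval x P / aeval x Q)
  choose d p' hp' using fun c => exists_pull (p c)
  obtain ⟨dP, P', hP'⟩ := exists_pull P
  obtain ⟨dQ, Q', hQ'⟩ := exists_pull Q
  obtain ⟨r, hr⟩ : ∃ r : MvPolynomial (Fin n) ℚ, r = num n * P' * den n ^ dQ := ⟨_, rfl⟩
  obtain ⟨q, hq⟩ : ∃ q : MvPolynomial (Fin n) ℚ, q = Q' * den n ^ (dP + 2) := ⟨_, rfl⟩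
  have hq0 : q ≠ 0 := by
    intro h
    apply hQ
    apply HMain_eq_zero
    intro x
    obtain ⟨y, hy, rfl⟩ := phi_surj n x
    have h1 : aeval y q = 0 := by rw [h, map_zero]
    have h2 := (den_pos hy).ne'
    rw [hq, map_mul, map_pow, hQ' y hy] at h1
    rcases mul_eq_zero.1 h1 with h3 | h3
    · exact (mul_eq_zero.1 h3).resolve_right (pow_ne_zero _ h2)
    · exact absurd h3 (pow_ne_zero _ h2)
  have hrq : ∀ y ∈ ocube n, aeval y (num n) / (aeval y (den n)) ^ 2 *
      (aeval (phi y) P / aeval (phi y) Q) = aeval y r / aeval y q := by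
    intro y hy
    have h2 := (den_pos hy).ne'
    rw [hr, hq]
    simp only [map_mul, map_pow]
    rw [hP' y hy, hQ' y hy]
    by_cases h3 : aeval (phi y) Q = 0
    · rw [h3]
      simp
    · rw [pow_add]
      field_simp
  have hpos : ∀ y ∈ ocube n, ∀ c, (0 < aeval (phi y) (p c) ↔ 0 < aeval y (p' c)) := by
    intro y hy c
    rw [hp' c y hy]
    have h2 : 0 < (aeval y (den n)) ^ (d c) := pow_pos (den_pos hy) _
    exact (mul_pos_iff_of_pos_right h2).symm
  obtain ⟨F, f, R, hcell, hfF, hFR, hzero⟩ := exists_cell2 p' r q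
  have hUB : {y : Fin n → ℝ | y ∈ ocube n ∧ (∀ k, 0 < aeval y (p' k)) ∧ aeval y q ≠ 0} ⊆
      ocube n ∩ {y | phi y ∈ {x : Fin n → ℝ | ∀ c, 0 < aeval x (p c)}} := by
    rintro y ⟨hy1, hy2, -⟩
    exact ⟨hy1, fun c => (hpos y hy1 c).2 (hy2 c)⟩
  have hBU : (ocube n ∩ {y | phi y ∈ {x : Fin n → ℝ | ∀ c, 0 < aeval x (p c)}}) \
      {y : Fin n → ℝ | y ∈ ocube n ∧ (∀ k, 0 < aeval y (p' k)) ∧ aeval y q ≠ 0} ⊆
      {y : Fin n → ℝ | aeval y q = 0} := by
    rintro y ⟨⟨hy1, hy2⟩, hy3⟩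
    by_contra h
    exact hy3 ⟨hy1, fun c => (hpos y hy1 c).1 (hy2 c), h⟩
  have hae : (ocube n ∩ {y | phi y ∈ {x : Fin n → ℝ | ∀ c, 0 < aeval x (p c)}} :
      Set (Fin n → ℝ)) =ᵐ[volume]
      {y : Fin n → ℝ | y ∈ ocube n ∧ (∀ k, 0 < aeval y (p' k)) ∧ aeval y q ≠ 0} := by
    rw [ae_eq_set]
    refine ⟨measure_mono_null hBU (null_rat q hq0), ?_⟩
    rw [Set.sdiff_eq_empty.2 hUB, measure_empty]
  have hmeas : MeasurableSet
      {y : Fin n → ℝ | y ∈ ocube n ∧ (∀ k, 0 < aeval y (p' k)) ∧ aeval y q ≠ 0} :=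
    hcell.isOpen.measurableSet
  have hEq : Set.EqOn (fun y => aeval y (num n) / (aeval y (den n)) ^ 2 *
      (aeval (phi y) P / aeval (phi y) Q)) (fun y => aeval y f / aeval y F)
      {y : Fin n → ℝ | y ∈ ocube n ∧ (∀ k, 0 < aeval y (p' k)) ∧ aeval y q ≠ 0} := by
    intro y hy
    exact (hrq y hy.1).trans (hfF y hy)
  have hint2 : IntegrableOn (fun y => aeval y f / aeval y F)
      {y : Fin n → ℝ | y ∈ ocube n ∧ (∀ k, 0 < aeval y (p' k)) ∧ aeval y q ≠ 0} :=
    ((hiff.1 hint).mono_set hUB).congr_fun hEq hmeas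
  have hfin : ∫ x in {x : Fin n → ℝ | ∀ c, 0 < aeval x (p c)}, aeval x P / aeval x Q =
      ∫ y in {y : Fin n → ℝ | y ∈ ocube n ∧ (∀ k, 0 < aeval y (p' k)) ∧ aeval y q ≠ 0},
        aeval y f / aeval y F := by
    rw [hval, setIntegral_congr_set hae]
    exact setIntegral_congr_fun hmeas hEq
  rw [hfin]
  exact cell_apow p' hcell hFR (fun y hy => hy.2.1) hzero f hint2

/-- Every period is an `Apow` number. The proof is that of `basic_smooth` and `period_smooth`
(`W_2cf66e_h65/HMain.lean`), with `exists_cell2`, `cell_apow`, `Apow.sum`, `apow_zero` in place of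
`exists_cell`, `cell_smooth`, `Smooth.sum`, `Smooth.zero`. -/
theorem period_apow {x : ℝ} (h : Pool.Agent.CVol.IsPeriod x) : Apow x := by
  classical
  obtain ⟨n, P, Q, k', m, p, hint, hval⟩ := h
  by_cases hQ : Q = 0
  · have h1 : x = 0 := by
      rw [← hval, hQ]
      simp
    rw [h1]
    exact apow_zero
  · obtain ⟨p', hp'⟩ : ∃ p' : Fin k' → Fin m → MvPolynomial (Fin n) ℚ,
        p' = fun j i => if p j i = 0 then -1 else p j i := ⟨_, rfl⟩
    have hne : ∀ j i, p' j i ≠ 0 := by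
      intro j i
      rw [hp']
      by_cases h1 : p j i = 0
      · simp [h1]
      · simp [h1]
    have hpos : ∀ (y : Fin n → ℝ) j i, 0 < aeval y (p j i) ↔ 0 < aeval y (p' j i) := by
      intro y j i
      rw [hp']
      by_cases h1 : p j i = 0
      · simp only [h1, if_true, map_zero, map_neg, map_one]
        norm_num
      · simp only [h1, if_false]
    have hset : {x : Fin n → ℝ | ∃ j, ∀ i, 0 < aeval x (p j i)} =
        {x : Fin n → ℝ | ∃ j, ∀ i, 0 < aeval x (p' j i)} := by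
      ext y
      simp only [Set.mem_ofPred_eq, hpos]
    rw [hset] at hint hval
    obtain ⟨h1, h2⟩ := int_sign p' hne _ hint
    rw [← hval, h2]
    apply Apow.sum
    intro s hs
    have h3 : scell p' s = {x : Fin n → ℝ | ∀ c : Fin (k' * m),
        0 < aeval x (sg (s (finProdFinEquiv.symm c).1 (finProdFinEquiv.symm c).2) *
          p' (finProdFinEquiv.symm c).1 (finProdFinEquiv.symm c).2)} := by
      ext y
      constructor
      · intro hy c
        exact hy _ _
      · intro hy j i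
        have h4 := hy (finProdFinEquiv (j, i))
        rwa [Equiv.symm_apply_apply] at h4
    have h5 := h1 s hs
    rw [h3] at h5 ⊢
    exact QJf_basic _ P Q hQ h5

end Pool.Agent.QVol
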