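import Pool.Agent.W_2cf66e_h46.QEc
import Pool.Agent.W_2cf66e_h46.QF
import Pool.Agent.W_2cf66e_h46.QFa
import Pool.Agent.W_2cf66e_h46.QFb
import Pool.Agent.W_2cf66e_h46.QH
import Pool.Agent.W_2cf66e_h46.QI
import Pool.Agent.W_2cf66e_h46.QJf
import Pool.Agent.W_2cf66e_h65.ISet

/-!
# Quadratic volumes, part K: the theorem (helper46)
-/

set_option autoImplicit false

noncomputable section

open MeasureTheory MvPolynomial

namespace Pool.Agent.QVol

/-- One integral: up to a rational number it is the value of a block with small bound. -/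
theorem one_int {ι : Type} [Fintype ι] (H p : MvPolynomial ι ℚ) (m : ℕ)
    (hH : ∀ y ∈ box ι, 0 < (aeval y H : ℝ)) (hp : ConeG p m) :
    ∃ Λ : ℝ, 0 ≤ Λ ∧ ∀ η : ℝ, 0 < η → η ≤ 1 / 2 → ∃ (c : ℚ) (y : ℝ), 0 ≤ y ∧
      Block y (Λ * η) ∧
      ∫ y in box ι, (aeval y H : ℝ) * (max (aeval y p) 0) ^ (m + 1) = c + y := by
  obtain ⟨Λ, hΛ, hb⟩ := piece H p m hH hp
  refine ⟨Λ * 2 ^ (Fintype.card ι), by positivity, fun η hη hη2 => ?_⟩
  obtain ⟨s, l, u, c, h1, h2, h3, h4, h5⟩ := subdiv H p (m + 1) (Nat.succ_pos m) η hη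
  refine ⟨c, ∑ i, ∫ y in rbox (l i) (u i), (aeval y H : ℝ) * (max (aeval y p) 0) ^ (m + 1),
    ?_, ?_, h5⟩
  · refine Finset.sum_nonneg fun i _ => setIntegral_nonneg ?_ fun y hy => ?_
    · exact measurableSet_Icc
    · exact mul_nonneg (hH y (h2 i hy)).le (pow_nonneg (le_max_right _ _) _)
  · have h6 : Block (∑ i, ∫ y in rbox (l i) (u i),
        (aeval y H : ℝ) * (max (aeval y p) 0) ^ (m + 1))
        (∑ i, Λ * η * volume.real (rbox (l i) (u i))) :=
      Block.sum Finset.univ _ _ fun i _ => hb (l i) (u i) η (h1 i) (h2 i) hη hη2 (h3 i)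
    refine h6.mono ?_
    rw [← Finset.mul_sum]
    calc Λ * η * ∑ i, volume.real (rbox (l i) (u i)) ≤ Λ * η * 2 ^ (Fintype.card ι) := by
          gcongr
      _ = Λ * 2 ^ (Fintype.card ι) * η := by ring

theorem int_box_poly {ι : Type} [Fintype ι] (p : (ι → ℝ) → ℝ) (hp : Continuous p) :
    IntegrableOn p (box ι) := hp.continuousOn.integrableOn_compact (cpt_box ι)

/-- Reduction to a rational number minus two integrals with positive weights. -/
theorem split_int {ι : Type} [Fintype ι] (H P : MvPolynomial ι ℚ) (e : ℕ) (he : 1 ≤ e)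
    (M : ℚ) : ∃ c : ℚ, ∫ z in box ι, (aeval z H : ℝ) * (max (aeval z P) 0) ^ (2 * e) =
      c - ((∫ z in box ι, (aeval z (H + C M) : ℝ) * (max (aeval z (-P)) 0) ^ (2 * e)) +
        ∫ z in box ι, (aeval z (C M : MvPolynomial ι ℚ) : ℝ) *
          (max (aeval z P) 0) ^ (2 * e)) := by
  obtain ⟨c, hc⟩ := rat_int' (H + C M) P (2 * e) (fun _ => -1) (fun _ => 1)
  rw [← box_eq_rbox] at hc
  refine ⟨c, ?_⟩
  have c0 : ∀ Q : MvPolynomial ι ℚ, Continuous fun z : ι → ℝ => (aeval z Q : ℝ) := cont_aeval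
  have i1 : IntegrableOn (fun z : ι → ℝ => (aeval z (H + C M) : ℝ) * (aeval z P) ^ (2 * e))
      (box ι) := int_box_poly _ ((c0 _).mul ((c0 _).pow _))
  have i2 : IntegrableOn (fun z : ι → ℝ => (aeval z (H + C M) : ℝ) *
      (max (aeval z (-P)) 0) ^ (2 * e)) (box ι) :=
    int_box_poly _ ((c0 _).mul (((c0 _).max continuous_const).pow _))
  have i3 : IntegrableOn (fun z : ι → ℝ => (aeval z (C M : MvPolynomial ι ℚ) : ℝ) *
      (max (aeval z P) 0) ^ (2 * e)) (box ι) :=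
    int_box_poly _ ((c0 _).mul (((c0 _).max continuous_const).pow _))
  have i4 : IntegrableOn (fun z : ι → ℝ => (aeval z (H + C M) : ℝ) *
      (max (aeval z (-P)) 0) ^ (2 * e) + (aeval z (C M : MvPolynomial ι ℚ) : ℝ) *
      (max (aeval z P) 0) ^ (2 * e)) (box ι) := i2.add i3
  rw [← hc, ← integral_add i2 i3, ← integral_sub i1 i4]
  refine integral_congr_ae (Filter.Eventually.of_forall fun z => ?_)
  have hk : 2 * e ≠ 0 := by omega
  have key : (aeval z P : ℝ) ^ (2 * e) = (max (aeval z P) 0) ^ (2 * e) +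
      (max (-aeval z P) 0) ^ (2 * e) := by
    rcases le_total 0 (aeval z P : ℝ) with h | h
    · rw [max_eq_left h, max_eq_right (by linarith : -aeval z P ≤ (0 : ℝ)), zero_pow hk, add_zero]
    · rw [max_eq_right h, max_eq_left (by linarith : (0 : ℝ) ≤ -aeval z P), zero_pow hk, zero_add,
        Even.neg_pow ⟨e, by ring⟩]
  simp only [Pi.add_apply, map_add, map_neg, aeval_C, eq_ratCast]
  rw [key]
  ring

/-- The sum of finitely many integrals. -/
theorem sum_int {ι : Type} [Fintype ι] {J : ℕ} (H p : Fin J → MvPolynomial ι ℚ) (m : ℕ)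
    (hH : ∀ j, ∀ y ∈ box ι, 0 < (aeval y (H j) : ℝ)) (hp : ∀ j, ConeG (p j) m) :
    ∃ Λ : ℝ, 0 ≤ Λ ∧ ∀ η : ℝ, 0 < η → η ≤ 1 / 2 → ∃ (c : ℚ) (y : ℝ), 0 ≤ y ∧
      Block y (Λ * η) ∧
      ∑ j, ∫ y in box ι, (aeval y (H j) : ℝ) * (max (aeval y (p j)) 0) ^ (m + 1) = c + y := by
  choose Λ h1 h2 using fun j => one_int (H j) (p j) m (hH j) (hp j)
  refine ⟨∑ j, Λ j, Finset.sum_nonneg fun j _ => h1 j, fun η hη hη2 => ?_⟩
  choose c y h3 h4 h5 using fun j => h2 j η hη hη2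
  refine ⟨∑ j, c j, ∑ j, y j, Finset.sum_nonneg fun j _ => h3 j, ?_, ?_⟩
  · rw [Finset.sum_mul]
    exact Block.sum Finset.univ y (fun j => Λ j * η) fun j _ => h4 j
  · rw [Finset.sum_congr rfl fun j _ => h5 j, Finset.sum_add_distrib]
    push_cast
    rfl

/-- A positive `Apow` number is a volume. -/
theorem apow_vol {x : ℝ} (hx : 0 < x) (h : Apow x) :
    ∃ (κ : Type) (_ : Fintype κ) (S : Set (κ → ℝ)), QS S ∧ IsCompact S ∧
      volume S = ENNReal.ofReal x := by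
  obtain ⟨ι, _, J, P, hP⟩ := h
  choose m1 hm1 using fun j => cone_all (P j)
  choose m2 hm2 using fun j => cone_all (-P j)
  set s : ℕ := ∑ j, (m1 j + m2 j) with hs
  have hle : ∀ j, m1 j + m2 j ≤ s := fun j =>
    Finset.single_le_sum (f := fun j => m1 j + m2 j) (fun j _ => Nat.zero_le _)
      (Finset.mem_univ j)
  set m : ℕ := 2 * s + 1 with hm
  have hK : m + 1 = 2 * (s + 1) := by omega
  obtain ⟨H, hH⟩ := hP (s + 1) (by omega)
  have hM : ∀ j, ∃ M : ℚ, 0 < M ∧ ∀ y ∈ box ι, 0 < (aeval y (H j + C M) : ℝ) := by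
    intro j
    obtain ⟨B, hB0, hB⟩ := bdd_box (H j)
    obtain ⟨M, hM⟩ := exists_rat_gt B
    refine ⟨M, by exact_mod_cast hB0.trans_lt hM, fun y hy => ?_⟩
    have h1 := (abs_le.1 (hB y hy)).1
    simp only [map_add, aeval_C, eq_ratCast]
    linarith
  choose M hM0 hM1 using hM
  choose c hc using fun j => split_int (H j) (P j) (s + 1) (by omega) (M j)
  obtain ⟨Λ1, hΛ1, hb1⟩ := sum_int (fun j => H j + C (M j)) (fun j => -P j) m
    (fun j => hM1 j) (fun j => hm2 j m (by have := hle j; omega))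
  obtain ⟨Λ2, hΛ2, hb2⟩ := sum_int (fun j => (C (M j) : MvPolynomial ι ℚ)) P m
    (fun j y _ => by
      have := hM0 j
      simp only [aeval_C, eq_ratCast]
      exact_mod_cast this) (fun j => hm1 j m (by have := hle j; omega))
  have hpos : 0 < x / (Λ1 + Λ2 + 1) := by positivity
  set η : ℝ := min (1 / 2) (x / (Λ1 + Λ2 + 1)) with hη
  have hη0 : 0 < η := lt_min (by norm_num) hpos
  obtain ⟨c1, y1, hy1, hB1, he1⟩ := hb1 η hη0 (min_le_left _ _)
  obtain ⟨c2, y2, hy2, hB2, he2⟩ := hb2 η hη0 (min_le_left _ _)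
  rw [hK] at he1 he2
  have hxe : x = ((∑ j, c j - c1 - c2 : ℚ) : ℝ) - (y1 + y2) := by
    rw [hH, Finset.sum_congr rfl fun j _ => hc j, Finset.sum_sub_distrib,
      Finset.sum_add_distrib, he1, he2]
    push_cast
    ring
  have hβ : Λ1 * η + Λ2 * η ≤ x := by
    have h1 : η ≤ x / (Λ1 + Λ2 + 1) := min_le_right _ _
    have h2 : η * (Λ1 + Λ2 + 1) ≤ x := (le_div_iff₀ (by positivity)).1 h1
    nlinarith
  obtain ⟨κ, i1, S, hS, hcS, hv⟩ := block_final (hB1.add hB2) (∑ j, c j - c1 - c2) (by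
    linarith)
  refine ⟨κ, i1, S, hS, hcS, ?_⟩
  rw [hv]
  congr 1
  exact hxe.symm

/-- The theorem. -/
theorem period_iff_quad (x : ℝ) (hx : 0 < x) : Pool.Agent.CVol.IsPeriod x ↔
    ∃ (N m : ℕ) (q : Fin m → MvPolynomial (Fin N) ℚ), (∀ i, IsQI (q i)) ∧
      IsCompact {z : Fin N → ℝ | ∀ i, 0 ≤ (aeval z (q i) : ℝ)} ∧
      volume {z : Fin N → ℝ | ∀ i, 0 ≤ (aeval z (q i) : ℝ)} = ENNReal.ofReal x := by
  constructor
  · intro h
    obtain ⟨κ, i1, S, hS, hc, hv⟩ := apow_vol hx (period_apow h)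
    obtain ⟨N, m, q, h1, h2, h3⟩ := reindex S hS hc
    exact ⟨N, m, q, h1, h2, h3.trans hv⟩
  · rintro ⟨N, m, q, h1, h2, h3⟩
    have hS : QS {z : Fin N → ℝ | ∀ i, 0 ≤ (aeval z (q i) : ℝ)} := ⟨m, q, h1, rfl⟩
    exact Pool.Agent.CVol.period_of_volume hS.isSA x hx h3

end Pool.Agent.QVol
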