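import Mathlib

/-!
# MP_2cf66e_nt (periods), quadratic volumes: definitions used in the statements (helper46)
-/

set_option autoImplicit false

noncomputable section

open MvPolynomial

namespace Pool.Agent.QVol

/-- `q` is an affine polynomial, or an affine polynomial plus a rational multiple of a product of
two distinct coordinates. -/
def IsQI {ι : Type} (q : MvPolynomial ι ℚ) : Prop :=
  q.totalDegree ≤ 1 ∨ ∃ (l : MvPolynomial ι ℚ) (c : ℚ) (i j : ι),
    l.totalDegree ≤ 1 ∧ i ≠ j ∧ q = l + C c * (X i * X j)

end Pool.Agent.QVol
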